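import Pool.Agent.S7A.Defs

/-! # MP_13664e_an, block A: first facts -/

set_option autoImplicit false

namespace Pool.Agent.S7A

open MeasureTheory Filter Topology Pool.Agent.Sar

section

variable {X : Type*} [MetricSpace X] [CompactSpace X] {T : X ≃ₜ X}

-- BEGIN ba1
/-- Let `F` be closed, nonempty and `T⁻¹ F ⊆ F`. Then `F` is everything: `F' = ⋂ n ≥ 0, T^(-n) F` is a decreasing
intersection of nonempty compact sets, `T '' F' = F'`, so `F' = univ` by minimality. -/
theorem eq_univ (hT : Mini T) {F : Set X} (hF : IsClosed F) (hn : F.Nonempty)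
    (hi : ∀ x, T x ∈ F → x ∈ F) : F = Set.univ := by
  have hstep : ∀ (n : ℕ) (x : X), (T ^ (n + 1)) x = (T ^ n) (T x) := by
    intro n x
    rw [pow_succ]
    rfl
  have hstep' : ∀ (n : ℕ) (x : X), (T ^ (n + 1)) x = T ((T ^ n) x) := by
    intro n x
    rw [pow_succ']
    rfl
  let G : ℕ → Set X := fun n => (T ^ n) ⁻¹' F
  have hGc : ∀ n, IsClosed (G n) := fun n => hF.preimage (T ^ n).continuous
  have hGn : ∀ n, (G n).Nonempty := by
    intro n
    obtain ⟨y, hy⟩ := hn
    refine ⟨(T ^ n).symm y, ?_⟩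
    show (T ^ n) ((T ^ n).symm y) ∈ F
    rw [Homeomorph.apply_symm_apply]
    exact hy
  have hGd : ∀ n, G (n + 1) ⊆ G n := by
    intro n x hx
    have h1 : (T ^ (n + 1)) x ∈ F := hx
    rw [hstep'] at h1
    exact hi _ h1
  have hne : (⋂ n, G n).Nonempty :=
    IsCompact.nonempty_iInter_of_sequence_nonempty_isCompact_isClosed G hGd hGn
      (hGc 0).isCompact hGc
  have himg : T '' (⋂ n, G n) = ⋂ n, G n := by
    apply Set.Subset.antisymm
    · rintro _ ⟨x, hx, rfl⟩
      rw [Set.mem_iInter] at hx ⊢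
      intro n
      show (T ^ n) (T x) ∈ F
      rw [← hstep]
      exact hx (n + 1)
    · intro x hx
      rw [Set.mem_iInter] at hx
      refine ⟨T.symm x, ?_, T.apply_symm_apply x⟩
      rw [Set.mem_iInter]
      intro n
      cases n with
      | zero =>
        apply hi
        rw [T.apply_symm_apply]
        exact hx 0
      | succ n =>
        show (T ^ (n + 1)) (T.symm x) ∈ F
        rw [hstep, T.apply_symm_apply]
        exact hx n
  have hall := hT (⋂ n, G n) (isClosed_iInter hGc) hne himg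
  apply Set.eq_univ_of_forall
  intro x
  have hx : x ∈ ⋂ n, G n := by
    rw [hall]
    exact Set.mem_univ x
  exact (Set.mem_iInter.mp hx) 0

/-- the forward orbit visits every open set, arbitrarily late: the set of the `x` with `T^m x ∉ O` for all `m > L` is
closed and `T F ⊆ F`; apply the analogue of `eq_univ` for the inverse (or `⋂ n, T^n F`). -/
theorem visit (hT : Mini T) {O : Set X} (hO : IsOpen O) (hn : O.Nonempty) (x : X) (L : ℕ) :
    ∃ m : ℕ, L < m ∧ (T ^ (m : ℤ)) x ∈ O := by
  have hsym : Mini T.symm := by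
    intro F hF hne hFi
    apply hT F hF hne
    apply Set.Subset.antisymm
    · rintro _ ⟨y, hy, rfl⟩
      rw [← hFi] at hy
      obtain ⟨z, hz, rfl⟩ := hy
      rw [T.apply_symm_apply]
      exact hz
    · intro y hy
      refine ⟨T.symm y, ?_, T.apply_symm_apply y⟩
      rw [← hFi]
      exact ⟨y, hy, rfl⟩
  by_contra hcon
  push Not at hcon
  let F : Set X := ⋂ m : ℕ, ⋂ _ : L < m, (T ^ (m : ℤ)) ⁻¹' Oᶜ
  have hF : IsClosed F :=
    isClosed_iInter fun m => isClosed_iInter fun _ =>
      hO.isClosed_compl.preimage (T ^ (m : ℤ)).continuous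
  have hmem : ∀ z, z ∈ F ↔ ∀ m : ℕ, L < m → (T ^ (m : ℤ)) z ∉ O := by
    intro z
    simp only [F, Set.mem_iInter, Set.mem_preimage, Set.mem_compl_iff]
  have hall : F = Set.univ := by
    apply eq_univ hsym hF ⟨x, (hmem x).mpr hcon⟩
    intro z hz
    rw [hmem] at hz ⊢
    intro m hm
    have h1 := hz (m + 1) (by omega)
    have h2 : (T ^ ((m + 1 : ℕ) : ℤ)) (T.symm z) = (T ^ (m : ℤ)) z := by
      rw [zpow_natCast, zpow_natCast, pow_succ]
      show (T ^ m) (T (T.symm z)) = (T ^ m) z
      rw [T.apply_symm_apply]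
    rw [h2] at h1
    exact h1
  obtain ⟨o, ho⟩ := hn
  have h3 : (T ^ ((L + 1 : ℕ) : ℤ)).symm o ∈ F := by
    rw [hall]
    exact Set.mem_univ _
  rw [hmem] at h3
  apply h3 (L + 1) (by omega)
  rw [Homeomorph.apply_symm_apply]
  exact ho

/-- and within a bounded time (compactness) -/
theorem cover (hT : Mini T) {O : Set X} (hO : IsOpen O) (hn : O.Nonempty) :
    ∃ n : ℕ, ∀ x, ∃ i : ℕ, i < n ∧ (T ^ (i : ℤ)) x ∈ O := by
  have hop : ∀ m : ℕ, IsOpen ((T ^ (m : ℤ)) ⁻¹' O) := fun m =>
    hO.preimage (T ^ (m : ℤ)).continuous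
  have hcov : (Set.univ : Set X) ⊆ ⋃ m : ℕ, (T ^ (m : ℤ)) ⁻¹' O := by
    intro x _
    obtain ⟨m, -, hm⟩ := visit hT hO hn x 0
    exact Set.mem_iUnion.mpr ⟨m, hm⟩
  obtain ⟨t, ht⟩ := isCompact_univ.elim_finite_subcover _ hop hcov
  refine ⟨t.sup id + 1, fun x => ?_⟩
  obtain ⟨i, hi, hx⟩ := Set.mem_iUnion₂.mp (ht (Set.mem_univ x))
  exact ⟨i, Nat.lt_succ_of_le (Finset.le_sup (f := id) hi), hx⟩

/-- A lower semicontinuous function with `f x ≤ f (T x)` on a minimal system is constant: for every `c` the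
set `{f ≤ c}` is closed and `T x ∈ F → x ∈ F`, so it is empty or everything by `eq_univ`. -/
theorem lsc_const (hT : Mini T) {f : X → ℝ} (hf : LowerSemicontinuous f) (hi : ∀ x, f x ≤ f (T x))
    (x y : X) : f x = f y := by
  have key : ∀ a b : X, f b ≤ f a := by
    intro a b
    have h1 : f ⁻¹' Set.Iic (f a) = Set.univ := by
      apply eq_univ hT (hf.isClosed_preimage (f a)) ⟨a, le_refl (f a)⟩
      intro z hz
      exact (hi z).trans hz
    have h2 : b ∈ f ⁻¹' Set.Iic (f a) := by
      rw [h1]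
      exact Set.mem_univ b
    exact h2
  exact le_antisymm (key y x) (key x y)
-- END ba1

variable {K : Type*} [Group K] [TopologicalSpace K] {u : K} {p : X → K}

omit [CompactSpace X] in
-- BEGIN ba2
/-- integer powers -/
theorem p_zpow (he : Ext T u p) (s : ℤ) (x : X) : p ((T ^ s) x) = u ^ s * p x := by
  have h1 : ∀ y, p (T.symm y) = u⁻¹ * p y := fun y => by
    have h := he.eq (T.symm y)
    rw [T.apply_symm_apply] at h
    rw [h, inv_mul_cancel_left]
  induction s using Int.induction_on generalizing x with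
  | zero => simp
  | succ n ih =>
    rw [zpow_add, zpow_one, zpow_add, zpow_one]
    show p ((T ^ (n : ℤ)) (T x)) = _
    rw [ih, he.eq, mul_assoc]
  | pred n ih =>
    rw [zpow_sub, zpow_one, zpow_sub, zpow_one]
    show p ((T ^ (-(n : ℤ))) (T.symm x)) = _
    rw [ih, h1, mul_assoc]
-- END ba2

end

-- BEGIN ba3
private theorem ba3_pow {X : Type*} [TopologicalSpace X] (T : X ≃ₜ X) (n : ℕ) (x : X) :
    (T ^ (n : ℤ)) x = (⇑T)^[n] x := by
  rw [zpow_natCast]
  induction n generalizing x with
  | zero => rfl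
  | succ n ih =>
    rw [pow_succ, Function.iterate_succ_apply]
    show (T ^ n) (T x) = _
    rw [ih]

/-- Krylov-Bogoliubov and minimality: there is an invariant probability, and every open nonempty set `O` has positive
measure because finitely many preimages `T^(-i) O` cover `X` (`cover`). For the existence: the space of
probability measures on `X` is compact (Mathlib, Prokhorov), take a limit point of
`(1/N) ∑_{n < N} δ_{T^n x}` (along an ultrafilter); the limit `μ` satisfies `∫ f (T x) = ∫ f` for continuous `f`. -/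
theorem exists_inv {X : Type*} [MetricSpace X] [CompactSpace X] [Nonempty X] [MeasurableSpace X]
    [BorelSpace X] {T : X ≃ₜ X} (hT : Mini T) :
    ∃ μ : Measure X, IsProbabilityMeasure μ ∧ μ.IsOpenPosMeasure ∧ MeasurePreserving T μ μ := by
  obtain ⟨x⟩ := ‹Nonempty X›
  have hc : ∀ N : ℕ, ((N : ENNReal) + 1) ≠ 0 := fun N => by simp
  have hc' : ∀ N : ℕ, ((N : ENNReal) + 1) ≠ ⊤ := fun N => by
    exact_mod_cast ENNReal.natCast_ne_top (N + 1)
  let ν : ℕ → Measure X := fun N =>
    ((N : ENNReal) + 1)⁻¹ • ∑ n ∈ Finset.range (N + 1), Measure.dirac ((⇑T)^[n] x)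
  have hν : ∀ N, IsProbabilityMeasure (ν N) := fun N => ⟨by
    simp only [ν, Measure.smul_apply, Measure.finsetSum_apply, measure_univ, Finset.sum_const,
      Finset.card_range, smul_eq_mul, nsmul_eq_mul, mul_one, Nat.cast_add, Nat.cast_one]
    exact ENNReal.inv_mul_cancel (hc N) (hc' N)⟩
  let P : ℕ → ProbabilityMeasure X := fun N => ⟨ν N, hν N⟩
  obtain ⟨μ, -, hμ⟩ := isCompact_univ.ultrafilter_le_nhds ((hyperfilter ℕ).map P) (by simp)
  have hlim : Tendsto P (hyperfilter ℕ : Filter ℕ) (𝓝 μ) := hμ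
  rw [ProbabilityMeasure.tendsto_iff_forall_integral_tendsto] at hlim
  have hint : ∀ (f : BoundedContinuousFunction X ℝ) (N : ℕ), ∫ y, f y ∂(P N : Measure X) =
      ((N : ℝ) + 1)⁻¹ * ∑ n ∈ Finset.range (N + 1), f ((⇑T)^[n] x) := by
    intro f N
    show ∫ y, f y ∂(ν N) = _
    simp only [ν]
    rw [integral_smul_measure, integral_finsetSum_measure]
    · rw [ENNReal.toReal_inv, smul_eq_mul]
      congr 1
      refine Finset.sum_congr rfl fun n _ => ?_
      rw [integral_dirac]
    · intro n _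
      exact f.integrable _
  have hinv : ∀ f : BoundedContinuousFunction X ℝ, ∫ y, f (T y) ∂(μ : Measure X) =
      ∫ y, f y ∂(μ : Measure X) := by
    intro f
    have h1 := hlim f
    have h2 := hlim (f.compContinuous ⟨T, T.continuous⟩)
    have h3 : Tendsto (fun N => ∫ y, (f.compContinuous ⟨T, T.continuous⟩) y ∂(P N : Measure X) -
        ∫ y, f y ∂(P N : Measure X)) (hyperfilter ℕ : Filter ℕ) (𝓝 0) := by
      have h4 : Tendsto (fun N => ∫ y, (f.compContinuous ⟨T, T.continuous⟩) y ∂(P N : Measure X) -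
        ∫ y, f y ∂(P N : Measure X)) atTop (𝓝 0) := by
        have h5 : ∀ N : ℕ, ∫ y, (f.compContinuous ⟨T, T.continuous⟩) y ∂(P N : Measure X) -
            ∫ y, f y ∂(P N : Measure X) = ((N : ℝ) + 1)⁻¹ * (f ((⇑T)^[N + 1] x) - f x) := by
          intro N
          rw [hint, hint, ← mul_sub, ← Finset.sum_sub_distrib]
          congr 1
          have h6 : ∀ n, (f.compContinuous ⟨T, T.continuous⟩) ((⇑T)^[n] x) =
              f ((⇑T)^[n + 1] x) := fun n => by
            rw [Function.iterate_succ_apply']; rfl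
          simp only [h6]
          rw [Finset.sum_range_sub (fun n => f ((⇑T)^[n] x))]
          rfl
        simp only [h5]
        have h7 : Tendsto (fun N : ℕ => ((N : ℝ) + 1)⁻¹ * (2 * ‖f‖)) atTop (𝓝 0) := by
          have := (tendsto_one_div_add_atTop_nhds_zero_nat (𝕜 := ℝ)).mul_const (2 * ‖f‖)
          simpa using this
        refine squeeze_zero_norm (fun N => ?_) h7
        rw [norm_mul, norm_inv]
        have h8 : ‖((N : ℝ) + 1)‖ = (N : ℝ) + 1 := by
          rw [Real.norm_eq_abs, abs_of_pos (by positivity)]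
        rw [h8]
        gcongr
        refine (norm_sub_le _ _).trans ?_
        have h9 := f.norm_coe_le_norm ((⇑T)^[N + 1] x)
        have h10 := f.norm_coe_le_norm x
        linarith
      exact h4.mono_left Nat.hyperfilter_le_atTop
    have h6 := tendsto_nhds_unique h3 (h2.sub h1)
    have h7 : ∫ y, (f.compContinuous ⟨T, T.continuous⟩) y ∂(μ : Measure X) =
      ∫ y, f (T y) ∂(μ : Measure X) := rfl
    rw [h7] at h6
    linarith
  have hmp : MeasurePreserving T (μ : Measure X) (μ : Measure X) := by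
    refine ⟨T.continuous.measurable, ?_⟩
    have : IsFiniteMeasure ((μ : Measure X).map T) := inferInstance
    refine ext_of_forall_integral_eq_of_IsFiniteMeasure fun f => ?_
    rw [integral_map T.continuous.measurable.aemeasurable f.continuous.aestronglyMeasurable]
    exact hinv f
  refine ⟨μ, inferInstance, ⟨fun O hO hn h0 => ?_⟩, hmp⟩
  obtain ⟨n, hn⟩ := cover hT hO hn
  have h1 : (μ : Measure X) Set.univ = 0 := by
    refine measure_mono_null (t := ⋃ i : ℕ, (⇑T)^[i] ⁻¹' O) (fun y _ => ?_) ?_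
    · obtain ⟨i, -, hi⟩ := hn y
      rw [ba3_pow] at hi
      exact Set.mem_iUnion.2 ⟨i, hi⟩
    · refine measure_iUnion_null fun i => ?_
      rw [(hmp.iterate i).measure_preimage hO.measurableSet.nullMeasurableSet, h0]
  rw [measure_univ] at h1
  exact one_ne_zero h1
-- END ba3

end Pool.Agent.S7A
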