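import Pool.Agent.Sar.Defs

/-!
# MP_13664e_an, block A: definitions

`X` compact metric, `T` a minimal homeomorphism, `K` a compact metrisable abelian group (multiplicative), `u` an
element with dense positive powers, `p : X → K` continuous, onto, `p (T x) = u * p x`, such that every continuous
eigenfunction of `T` is constant on the fibres of `p`.

Integer powers of `T` are `T ^ s` in the group of homeomorphisms `X ≃ₜ X`.
-/

set_option autoImplicit false

namespace Pool.Agent.S7A

open MeasureTheory Filter Topology Pool.Agent.Sar

/-- minimal: the only nonempty closed set `F` with `T F = F` is the whole space -/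
def Mini {X : Type*} [TopologicalSpace X] (T : X ≃ₜ X) : Prop :=
  ∀ F : Set X, IsClosed F → F.Nonempty → T '' F = F → F = Set.univ

/-- `p` is a factor map onto the rotation by `u` on the group `K` and all continuous eigenfunctions are constant on the
fibres of `p` -/
structure Ext {X K : Type*} [TopologicalSpace X] [Group K] [TopologicalSpace K] (T : X ≃ₜ X) (u : K)
    (p : X → K) : Prop where
  cont : Continuous p
  surj : Function.Surjective p
  eq : ∀ x, p (T x) = u * p x
  eig : ∀ (e : X → ℂ) (l : ℂ), Continuous e → (∀ x, e (T x) = l * e x) → ∀ x x', p x = p x' → e x = e x'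
  dense : ∀ O : Set K, IsOpen O → O.Nonempty → ∀ L : ℕ, ∃ m : ℕ, L < m ∧ u ^ m ∈ O

/-- an action of the integers on a probability space by measure preserving maps -/
structure Act {Y : Type*} [MeasurableSpace Y] (ρ : Measure Y) (R : ℤ → Y → Y) : Prop where
  mp : ∀ s, MeasurePreserving (R s) ρ ρ
  zero : ∀ y, R 0 y = y
  add : ∀ s t y, R (s + t) y = R s (R t y)

/-- `SS T R A B L v` is the union of the sets `R^s A` over all `s > L` with `v ∈ T^s B` -/
def SS {X Y : Type*} [TopologicalSpace X] (T : X ≃ₜ X) (R : ℤ → Y → Y) (A : Set Y) (B : Set X) (L : ℤ)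
    (v : X) : Set Y :=
  ⋃ s ∈ {s : ℤ | L < s ∧ (T ^ (-s)) v ∈ B}, (R (-s)) ⁻¹' A

end Pool.Agent.S7A
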