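import Pool.Agent.S7A.Top

/-! # MP_13664e_an, block A: independence contradicts bounded sequence entropy, the fibres are finite (helper58) -/

set_option autoImplicit false

namespace Pool.Agent.S7A

open MeasureTheory Filter Topology Pool.Agent.Sar

section comb

variable {Y : Type*}

/-- the sets `U j` are independent for `f` along arbitrarily long and late sequences of times -/
def Ind (f : Y → Y) {R : ℕ} (U : Fin R → Set Y) : Prop :=
  ∀ n L : ℕ, ∃ s : Fin n → ℕ, StrictMono s ∧ (∀ i, L < s i) ∧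
    ∀ w : Fin n → Fin R, ∃ x, ∀ i, f^[s i] x ∈ U (w i)

/-- the total length of the first `b` blocks -/
def NN : ℕ → ℕ
  | 0 => 0
  | b + 1 => NN b + (b + 1) * (NN b + 1)

theorem NN_succ (b : ℕ) : NN (b + 1) = NN b + (b + 1) * (NN b + 1) := rfl

theorem NN_lt (b : ℕ) : NN b < NN (b + 1) := by
  rw [NN_succ]
  have : 0 < (b + 1) * (NN b + 1) := Nat.mul_pos (Nat.succ_pos _) (Nat.succ_pos _)
  omega

theorem NN_mono {b c : ℕ} (h : b ≤ c) : NN b ≤ NN c :=
  monotone_nat_of_le_succ (fun b => (NN_lt b).le) h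

theorem le_NN (b : ℕ) : b ≤ NN b := by
  induction b with
  | zero => exact Nat.zero_le _
  | succ b ih =>
    have := NN_lt b
    omega

private def Inv (b : ℕ) (q : ℕ → ℕ) : Prop :=
  (∀ i j, i < j → j < NN b → q i < q j) ∧ ∀ i < NN b, 0 < q i

private theorem ext_block {f : Y → Y} {R : ℕ} {U : Fin R → Set Y} (hI : Ind f U) (b : ℕ)
    (q : ℕ → ℕ) (hq : Inv b q) : ∃ q' : ℕ → ℕ, Inv (b + 1) q' ∧ (∀ i < NN b, q' i = q i) ∧
      ∀ w : ℕ → Fin R, ∃ x, ∀ i, NN b ≤ i → i < NN (b + 1) → f^[q' i] x ∈ U (w i) := by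
  classical
  obtain ⟨s, hs1, hs2, hs3⟩ := hI ((b + 1) * (NN b + 1)) (∑ i ∈ Finset.range (NN b), q i)
  have hle : ∀ i < NN b, q i ≤ ∑ i ∈ Finset.range (NN b), q i := fun i hi =>
    Finset.single_le_sum (f := q) (fun _ _ => Nat.zero_le _) (Finset.mem_range.2 hi)
  let q' : ℕ → ℕ := fun i => if i < NN b then q i else
    if h : i - NN b < (b + 1) * (NN b + 1) then s ⟨i - NN b, h⟩ else 0
  have hq1 : ∀ i < NN b, q' i = q i := fun i hi => by simp only [q', if_pos hi]
  have hq2 : ∀ i (h1 : NN b ≤ i) (h2 : i < NN (b + 1)),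
      q' i = s ⟨i - NN b, by rw [NN_succ] at h2; omega⟩ := fun i h1 h2 => by
    have h3 : i - NN b < (b + 1) * (NN b + 1) := by rw [NN_succ] at h2; omega
    simp only [q', if_neg (not_lt.2 h1), dif_pos h3]
  refine ⟨q', ⟨?_, ?_⟩, hq1, ?_⟩
  · intro i j hij hj
    by_cases h1 : j < NN b
    · rw [hq1 i (hij.trans h1), hq1 j h1]
      exact hq.1 i j hij h1
    · rw [hq2 j (not_lt.1 h1) hj]
      by_cases h2 : i < NN b
      · rw [hq1 i h2]
        exact lt_of_le_of_lt (hle i h2) (hs2 _)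
      · rw [hq2 i (not_lt.1 h2) (hij.trans hj)]
        apply hs1
        rw [Fin.mk_lt_mk]
        omega
  · intro i hi
    by_cases h1 : i < NN b
    · rw [hq1 i h1]
      exact hq.2 i h1
    · rw [hq2 i (not_lt.1 h1) hi]
      exact lt_of_le_of_lt (Nat.zero_le _) (hs2 _)
  · intro w
    obtain ⟨x, hx⟩ := hs3 (fun i => w (NN b + i))
    refine ⟨x, fun i h1 h2 => ?_⟩
    rw [hq2 i h1 h2]
    have h3 := hx ⟨i - NN b, by rw [NN_succ] at h2; omega⟩
    have h4 : NN b + (i - NN b) = i := by omega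
    simp only [h4] at h3
    exact h3

theorem exists_seq {f : Y → Y} {R : ℕ} {U : Fin R → Set Y} (hI : Ind f U) :
    ∃ a : ℕ → ℕ, StrictMono a ∧ 0 < a 0 ∧
      ∀ b, ∀ w : ℕ → Fin R, ∃ x, ∀ i, NN b ≤ i → i < NN (b + 1) → f^[a i] x ∈ U (w i) := by
  choose! E hE1 hE2 hE3 using fun b q => ext_block hI b q
  let g : ℕ → (ℕ → ℕ) := fun b => Nat.rec (fun _ => 0) (fun b q => E b q) b
  have hg : ∀ b, Inv b (g b) := by
    intro b
    induction b with
    | zero => exact ⟨fun i j _ hj => absurd hj (Nat.not_lt_zero _), fun i hi =>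
        absurd hi (Nat.not_lt_zero _)⟩
    | succ b ih => exact hE1 b _ ih
  have hst : ∀ b c, ∀ i < NN b, g (b + c) i = g b i := by
    intro b c
    induction c with
    | zero => intro i _; rfl
    | succ c ih =>
      intro i hi
      have h1 : g (b + (c + 1)) i = g (b + c) i :=
        hE2 (b + c) _ (hg _) i (lt_of_lt_of_le hi (NN_mono (Nat.le_add_right _ _)))
      rw [h1, ih i hi]
  have hst2 : ∀ b c, ∀ i, i < NN b → i < NN c → g b i = g c i := by
    intro b c i hb hc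
    rcases le_total b c with h | h
    · obtain ⟨d, rfl⟩ := Nat.exists_eq_add_of_le h
      exact (hst b d i hb).symm
    · obtain ⟨d, rfl⟩ := Nat.exists_eq_add_of_le h
      exact hst c d i hc
  have hlt : ∀ i, i < NN (i + 1) := fun i => lt_of_lt_of_le (Nat.lt_succ_self i) (le_NN _)
  refine ⟨fun i => g (i + 1) i, strictMono_nat_of_lt_succ fun i => ?_, (hg 1).2 0 (hlt 0), ?_⟩
  · show g (i + 1) i < g (i + 1 + 1) (i + 1)
    rw [hst2 (i + 1) (i + 1 + 1) i (hlt i) ((Nat.lt_succ_self i).trans (hlt (i + 1)))]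
    exact (hg (i + 1 + 1)).1 i (i + 1) (Nat.lt_succ_self i) (hlt (i + 1))
  · intro b w
    obtain ⟨x, hx⟩ := hE3 b (g b) (hg b) w
    refine ⟨x, fun i h1 h2 => ?_⟩
    have h3 := hx i h1 h2
    have h4 : g (i + 1) i = g (b + 1) i := hst2 _ _ i (hlt i) h2
    show f^[g (i + 1) i] x ∈ U (w i)
    rw [h4]
    exact h3

theorem covNum_ge {f : Y → Y} {a : ℕ → ℕ} {R : ℕ} (hR : 0 < R) {U C : Fin R → Set Y}
    (hcov : (⋃ i, C i) = Set.univ) (hC : ∀ i j x, x ∈ U i → x ∈ C j → i = j) {m l n : ℕ}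
    (hn : m + l ≤ n)
    (h : ∀ w : ℕ → Fin R, ∃ x, ∀ i, m ≤ i → i < m + l → f^[a i] x ∈ U (w i)) :
    R ^ l ≤ covNum f a C n := by
  classical
  have hne : {c | ∃ W : Finset (Fin n → Fin R), W.card = c ∧
      ∀ x, ∃ w ∈ W, ∀ i : Fin n, f^[a i] x ∈ C (w i)}.Nonempty := by
    refine ⟨_, Finset.univ, rfl, fun x => ?_⟩
    have h1 : ∀ i : Fin n, ∃ j, f^[a i] x ∈ C j := fun i => by
      have : f^[a i] x ∈ ⋃ j, C j := by rw [hcov]; exact Set.mem_univ _
      exact Set.mem_iUnion.1 this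
    choose w hw using h1
    exact ⟨w, Finset.mem_univ _, hw⟩
  obtain ⟨W, hW, hWc⟩ := Nat.sInf_mem hne
  change W.card = covNum f a C n at hW
  rw [← hW]
  let ρ : (Fin n → Fin R) → (Fin l → Fin R) := fun w i => w ⟨m + i, by have := i.2; omega⟩
  have hsub : (Finset.univ : Finset (Fin l → Fin R)) ⊆ W.image ρ := by
    intro σ _
    obtain ⟨x, hx⟩ := h fun i => if hi : i - m < l then σ ⟨i - m, hi⟩ else ⟨0, hR⟩
    obtain ⟨w, hw, hwx⟩ := hWc x
    refine Finset.mem_image.2 ⟨w, hw, ?_⟩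
    funext i
    have h1 := hx (m + i) (Nat.le_add_right _ _) (by have := i.2; omega)
    have h2 := hwx ⟨m + i, by have := i.2; omega⟩
    have h3 : m + (i : ℕ) - m = i := by omega
    have h4 := hC _ _ _ h1 h2
    rw [dif_pos (by rw [h3]; exact i.2)] at h4
    show w ⟨m + i, _⟩ = σ i
    rw [← h4]
    congr 1
    exact Fin.ext h3
  have h5 := (Finset.card_le_card hsub).trans Finset.card_image_le
  rw [Finset.card_univ, Fintype.card_fun, Fintype.card_fin, Fintype.card_fin] at h5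
  exact h5

theorem log_le {f : Y → Y} {R : ℕ} (hR : 0 < R) {U C : Fin R → Set Y}
    (hcov : (⋃ i, C i) = Set.univ) (hC : ∀ i j x, x ∈ U i → x ∈ C j → i = j) (hI : Ind f U) {M : ℝ}
    (hM : ∀ a : ℕ → ℕ, StrictMono a → 0 < a 0 →
      limsup (fun n : ℕ => (((Real.log (covNum f a C n)) / n : ℝ) : EReal)) atTop ≤ (M : EReal)) :
    Real.log R ≤ M := by
  by_contra hcon
  push Not at hcon
  obtain ⟨a, ha1, ha2, ha3⟩ := exists_seq hI
  obtain ⟨M', hM1, hM2⟩ := exists_between hcon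
  have hlt : limsup (fun n : ℕ => (((Real.log (covNum f a C n)) / n : ℝ) : EReal)) atTop <
      (M' : EReal) := lt_of_le_of_lt (hM a ha1 ha2) (EReal.coe_lt_coe_iff.2 hM1)
  obtain ⟨n₀, hn₀⟩ := eventually_atTop.1 (eventually_lt_of_limsup_lt hlt)
  have hR1 : (1 : ℝ) ≤ R := by exact_mod_cast hR
  have hlR : 0 ≤ Real.log R := Real.log_nonneg hR1
  obtain ⟨b₀, hb₀⟩ := exists_nat_gt (Real.log R / (Real.log R - M'))
  let b := max b₀ n₀
  have hb1 : Real.log R / (Real.log R - M') < (b : ℝ) + 2 := by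
    have : (b₀ : ℝ) ≤ (b : ℝ) := by exact_mod_cast le_max_left _ _
    linarith
  have hd : 0 < Real.log R - M' := by linarith
  rw [div_lt_iff₀ hd] at hb1
  have hn1 : n₀ ≤ NN (b + 1) := (le_max_right b₀ n₀).trans ((Nat.le_succ _).trans (le_NN _))
  have h1 := EReal.coe_lt_coe_iff.1 (hn₀ (NN (b + 1)) hn1)
  have h2 := covNum_ge (f := f) (a := a) hR hcov hC (m := NN b) (l := (b + 1) * (NN b + 1))
    (n := NN (b + 1)) (le_of_eq (NN_succ b).symm) (by
      intro w
      obtain ⟨x, hx⟩ := ha3 b w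
      exact ⟨x, fun i hi1 hi2 => hx i hi1 (by rw [NN_succ]; exact hi2)⟩)
  have hRp : (0 : ℝ) < R := by linarith
  have h3 : (((b + 1) * (NN b + 1) : ℕ) : ℝ) * Real.log R ≤ Real.log (covNum f a C (NN (b + 1))) := by
    rw [← Real.log_pow]
    apply Real.log_le_log (pow_pos hRp _)
    exact_mod_cast h2
  have hNp : (0 : ℝ) < (NN (b + 1) : ℝ) := by
    have := NN_lt b
    have : 0 < NN (b + 1) := by omega
    exact_mod_cast this
  rw [div_lt_iff₀ hNp] at h1
  have h4 : (NN (b + 1) : ℝ) = NN b + ((b : ℝ) + 1) * (NN b + 1) := by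
    rw [NN_succ]
    push_cast
    ring
  rw [h4] at h1
  push_cast at h3
  have h5 : ((b : ℝ) + 1) * ((NN b : ℝ) + 1) * Real.log R <
      M' * (NN b + ((b : ℝ) + 1) * (NN b + 1)) := lt_of_le_of_lt h3 h1
  have hNb : (0 : ℝ) ≤ (NN b : ℝ) := Nat.cast_nonneg _
  have hbb : (0 : ℝ) ≤ (b : ℝ) := Nat.cast_nonneg _
  -- `M' < log R (b+1)/(b+2)` and `l (b+2) ≥ (b+1) NN (b+1)`
  have hM'0 : M' * (NN b + ((b : ℝ) + 1) * (NN b + 1)) ≤
      max M' 0 * (NN b + ((b : ℝ) + 1) * (NN b + 1)) := by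
    apply mul_le_mul_of_nonneg_right (le_max_left _ _)
    positivity
  have h6 : max M' 0 * ((b : ℝ) + 2) ≤ Real.log R * ((b : ℝ) + 1) := by
    rcases max_cases M' 0 with ⟨h, -⟩ | ⟨h, -⟩
    · rw [h]
      nlinarith
    · rw [h, zero_mul]
      positivity
  have h7 : (NN b : ℝ) + ((b : ℝ) + 1) * (NN b + 1) ≤ ((b : ℝ) + 2) * (NN b + 1) := by
    nlinarith
  have h8 : max M' 0 * (NN b + ((b : ℝ) + 1) * (NN b + 1)) ≤
      max M' 0 * (((b : ℝ) + 2) * (NN b + 1)) :=
    mul_le_mul_of_nonneg_left h7 (le_max_right _ _)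
  have h9 : max M' 0 * ((b : ℝ) + 2) * ((NN b : ℝ) + 1) ≤
      Real.log R * ((b : ℝ) + 1) * ((NN b : ℝ) + 1) :=
    mul_le_mul_of_nonneg_right h6 (by linarith)
  nlinarith

end comb

section fib

variable {X : Type*} [MetricSpace X] [CompactSpace X] [Nonempty X] [MeasurableSpace X] [BorelSpace X]
  {K : Type*} [CommGroup K] [TopologicalSpace K] [IsTopologicalGroup K] [CompactSpace K] [T2Space K]
  {T : X ≃ₜ X} {u : K} {p : X → K}

omit [CompactSpace X] [Nonempty X] [MeasurableSpace X] [BorelSpace X] in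
theorem pow_iter (T : X ≃ₜ X) (s : ℕ) (x : X) : (T ^ (s : ℤ)) x = (⇑T)^[s] x := by
  rw [zpow_natCast]
  induction s with
  | zero => rfl
  | succ s ih =>
    rw [pow_succ', Function.iterate_succ_apply', ← ih]
    rfl

/-- **The fibres of `p` have at most `e^M` points almost everywhere.** -/
theorem fib_null (hT : Mini T) (he : Ext T u p) [MeasurableSpace K] [BorelSpace K] (h : Measure K)
    [IsFiniteMeasure h] [h.IsMulLeftInvariant] [h.InnerRegularCompactLTTop] {M : ℝ}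
    (hM : ∀ a : ℕ → ℕ, StrictMono a → 0 < a 0 → ∀ (k : ℕ) (C : Fin k → Set X),
      (∀ i, IsOpen (C i)) → (⋃ i, C i) = Set.univ →
      limsup (fun n : ℕ => (((Real.log (covNum T a C n)) / n : ℝ) : EReal)) atTop ≤ (M : EReal))
    {R : ℕ} (hR0 : 0 < R) (hR : M < Real.log R) :
    h {z | (R : ℕ∞) ≤ (p ⁻¹' {z}).encard} = 0 := by
  classical
  let D : ℕ → X := TopologicalSpace.denseSeq X
  have hD : DenseRange D := TopologicalSpace.denseRange_denseSeq X
  let I := {q : (Fin R → ℕ) × ℕ // ∀ i j, i ≠ j →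
    4 * (1 / ((q.2 : ℝ) + 1)) < dist (D (q.1 i)) (D (q.1 j))}
  let V : I → Fin R → Set X := fun q j => Metric.closedBall (D (q.1.1 j)) (1 / ((q.1.2 : ℝ) + 1))
  have hrp : ∀ m : ℕ, (0 : ℝ) < 1 / ((m : ℝ) + 1) := fun m => by positivity
  have hsub : {z | (R : ℕ∞) ≤ (p ⁻¹' {z}).encard} ⊆ ⋃ q : I, ⋂ j, p '' V q j := by
    intro z hz
    obtain ⟨t, ht1, ht2⟩ := Set.exists_subset_encard_eq hz
    have htf : t.Finite := Set.finite_of_encard_eq_coe ht2
    have htc : htf.toFinset.card = R := by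
      have h1 := htf.encard_eq_coe_toFinset_card
      rw [ht2] at h1
      exact_mod_cast h1.symm
    let e := (Finset.equivFinOfCardEq htc).symm
    let x : Fin R → X := fun j => (e j : X)
    have hxp : ∀ j, p (x j) = z := fun j => ht1 (htf.mem_toFinset.1 (e j).2)
    have hxi : ∀ i j, i ≠ j → x i ≠ x j := fun i j hij hx => hij (e.injective (Subtype.ext hx))
    have hev : ∀ᶠ m : ℕ in atTop, ∀ i j, i ≠ j → 6 * (1 / ((m : ℝ) + 1)) < dist (x i) (x j) := by
      refine eventually_all.2 fun i => eventually_all.2 fun j => ?_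
      by_cases hij : i = j
      · exact Eventually.of_forall fun _ h => absurd hij h
      · have h1 : Tendsto (fun m : ℕ => 6 * (1 / ((m : ℝ) + 1))) atTop (𝓝 (6 * 0)) :=
          tendsto_one_div_add_atTop_nhds_zero_nat.const_mul 6
        rw [mul_zero] at h1
        exact (h1.eventually_lt_const (dist_pos.2 (hxi i j hij))).mono fun _ h _ => h
    obtain ⟨m, hm⟩ := hev.exists
    have hc : ∀ j, ∃ c, dist (x j) (D c) < 1 / ((m : ℝ) + 1) := fun j =>
      hD.exists_dist_lt (x j) (hrp m)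
    choose c hc using hc
    refine Set.mem_iUnion.2 ⟨⟨(c, m), fun i j hij => ?_⟩, Set.mem_iInter.2 fun j => ?_⟩
    · have h1 := hm i j hij
      have h2 := dist_triangle4 (x i) (D (c i)) (D (c j)) (x j)
      have h3 := hc i
      have h4 := hc j
      rw [dist_comm] at h4
      show 4 * (1 / ((m : ℝ) + 1)) < dist (D (c i)) (D (c j))
      linarith
    · exact ⟨x j, (hc j).le, hxp j⟩
  refine measure_mono_null hsub (measure_iUnion_null fun q => ?_)
  by_contra h0
  set r : ℝ := 1 / ((q.1.2 : ℝ) + 1) with hr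
  have hr0 : 0 < r := hrp _
  let U : Fin R → Set X := fun j => Metric.ball (D (q.1.1 j)) (2 * r)
  let C : Fin R → Set X := fun j => (⋃ i ∈ {i : Fin R | i ≠ j}, Metric.closedBall (D (q.1.1 i)) (2 * r))ᶜ
  have hdis : ∀ i j x, x ∈ Metric.closedBall (D (q.1.1 i)) (2 * r) →
      x ∈ Metric.closedBall (D (q.1.1 j)) (2 * r) → i = j := by
    intro i j x hi hj
    by_contra hij
    have h1 := q.2 i j hij
    rw [Metric.mem_closedBall] at hi hj
    have h2 := dist_triangle_left (D (q.1.1 i)) (D (q.1.1 j)) x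
    linarith
  have hC : ∀ i j x, x ∈ U i → x ∈ C j → i = j := by
    intro i j x hi hj
    by_contra hij
    exact hj (Set.mem_biUnion (show i ∈ {i : Fin R | i ≠ j} from hij) (Metric.ball_subset_closedBall hi))
  have hCo : ∀ j, IsOpen (C j) := fun j =>
    (Set.Finite.isClosed_biUnion (Set.toFinite _) fun i _ => Metric.isClosed_closedBall).isOpen_compl
  have hcov : (⋃ j, C j) = Set.univ := by
    rw [Set.eq_univ_iff_forall]
    intro x
    rw [Set.mem_iUnion]
    by_cases hx : ∃ i, x ∈ Metric.closedBall (D (q.1.1 i)) (2 * r)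
    · obtain ⟨i, hi⟩ := hx
      refine ⟨i, fun hmem => ?_⟩
      obtain ⟨k, hk, hxk⟩ := Set.mem_iUnion₂.1 hmem
      exact hk (hdis k i x hxk hi)
    · refine ⟨⟨0, hR0⟩, fun hmem => ?_⟩
      obtain ⟨k, -, hxk⟩ := Set.mem_iUnion₂.1 hmem
      exact hx ⟨k, hxk⟩
  have hVU : ∀ j, V q j ⊆ U j := fun j => Metric.closedBall_subset_ball (by linarith)
  have hWc : IsClosed (⋂ j, p '' V q j) := isClosed_iInter fun j =>
    ((Metric.isClosed_closedBall.isCompact).image he.cont).isClosed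
  have hI : Ind (⇑T) U := by
    intro n L
    obtain ⟨s, hs1, hs2, hs3⟩ := indep hT he h (V q) U (fun j => Metric.isOpen_ball) hVU
      (⋂ j, p '' V q j) hWc (fun j => Set.iInter_subset _ j) h0 n L
    refine ⟨s, hs1, hs2, fun w => ?_⟩
    obtain ⟨x, hx⟩ := hs3 w
    refine ⟨x, fun i => ?_⟩
    rw [← pow_iter]
    exact hx i
  exact absurd (log_le hR0 hcov hC hI fun a ha1 ha2 => hM a ha1 ha2 R C hCo hcov) (not_le.2 hR)

/-- the form for bounded sequence entropy -/
theorem exists_bound (hT : Mini T) (he : Ext T u p) [MeasurableSpace K] [BorelSpace K]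
    (h : Measure K) [IsFiniteMeasure h] [h.IsMulLeftInvariant] [h.InnerRegularCompactLTTop]
    (hE : BddSeqEnt (⇑T)) : ∃ R : ℕ, 0 < R ∧ h {z | (R : ℕ∞) ≤ (p ⁻¹' {z}).encard} = 0 := by
  obtain ⟨M, hM⟩ := hE
  obtain ⟨R, hR⟩ := exists_nat_gt (Real.exp M)
  have hR0 : (0 : ℝ) < R := (Real.exp_pos M).trans hR
  refine ⟨R, by exact_mod_cast hR0, fib_null hT he h hM (by exact_mod_cast hR0) ?_⟩
  rw [Real.lt_log_iff_exp_lt hR0]
  exact hR

end fib

end Pool.Agent.S7A
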