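import Pool.Agent.S7.Grp
import Pool.Agent.S7A.Basic

/-! # MP_13664e_an, block A: the maximal equicontinuous factor `p : X → KG (E0 T)` -/

set_option autoImplicit false

namespace Pool.Agent.S7A

open MeasureTheory Filter Topology Pool.Agent.Sar Pool.Agent.S7

-- BEGIN mf1
private noncomputable def mf1_ev {G : Subgroup Circle} (w : Dsc G) : C(KG G, ℂ) where
  toFun χ := ((χ w : Circle) : ℂ)
  continuous_toFun := by
    have h1 : Continuous fun χ : (Dsc G →ₜ* Circle) => (χ w : Circle) :=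
      (continuous_eval_const (F := C(Dsc G, Circle)) w).comp
        (ContinuousMonoidHom.isInducing_toContinuousMap _ _).continuous
    exact continuous_subtype_val.comp h1

private theorem mf1_ev_apply {G : Subgroup Circle} (w : Dsc G) (χ : KG G) :
    mf1_ev w χ = ((χ w : Circle) : ℂ) := rfl

private theorem mf1_pow {G : Subgroup Circle} (χ : KG G) (n : ℕ) (w : Dsc G) :
    (χ ^ n) w = (χ w) ^ n := by
  induction n with
  | zero => rw [pow_zero, pow_zero]; rfl
  | succ n ih =>
    rw [pow_succ, pow_succ, ← ih]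
    rfl

private noncomputable def mf1_alg (G : Subgroup Circle) : StarSubalgebra ℂ C(KG G, ℂ) where
  toSubalgebra := Algebra.adjoin ℂ (Set.range (mf1_ev (G := G)))
  star_mem' := by
    change Algebra.adjoin ℂ (Set.range (mf1_ev (G := G))) ≤
      star (Algebra.adjoin ℂ (Set.range (mf1_ev (G := G))))
    refine Algebra.adjoin_le ?_
    rintro - ⟨w, rfl⟩
    refine Algebra.subset_adjoin ⟨w⁻¹, ?_⟩
    ext χ
    rw [ContinuousMap.star_apply, mf1_ev_apply, mf1_ev_apply, map_inv, Circle.coe_inv_eq_conj]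
    rfl

private theorem mf1_span (G : Subgroup Circle) :
    Subalgebra.toSubmodule (mf1_alg G).toSubalgebra =
      Submodule.span ℂ (Set.range (mf1_ev (G := G))) := by
  apply Algebra.adjoin_eq_span_of_subset
  refine Set.Subset.trans ?_ Submodule.subset_span
  intro x hx
  refine Submonoid.closure_induction (fun _ => id) ⟨1, ?_⟩ ?_ hx
  · ext χ
    rw [mf1_ev_apply, map_one]
    rfl
  · rintro - - - - ⟨m, rfl⟩ ⟨n, rfl⟩
    refine ⟨m * n, ?_⟩
    ext χ
    rw [ContinuousMap.mul_apply, mf1_ev_apply, mf1_ev_apply, mf1_ev_apply, map_mul]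
    rfl

private theorem mf1_dense (G : Subgroup Circle) :
    (Submodule.span ℂ (Set.range (mf1_ev (G := G)))).topologicalClosure = ⊤ := by
  rw [← mf1_span]
  refine congr_arg (Subalgebra.toSubmodule <| StarSubalgebra.toSubalgebra ·)
    (ContinuousMap.starSubalgebra_topologicalClosure_eq_top_of_separatesPoints (mf1_alg G) ?_)
  intro x y hxy
  have h1 : ∃ w, x w ≠ y w := by
    by_contra h
    push Not at h
    exact hxy (DFunLike.ext _ _ h)
  obtain ⟨w, hw⟩ := h1
  refine ⟨_, ⟨mf1_ev w, Algebra.subset_adjoin ⟨w, rfl⟩, rfl⟩, ?_⟩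
  intro h
  exact hw (Subtype.ext h)

private noncomputable def mf1_av {G : Subgroup Circle} (f : C(KG G, ℂ)) (N : ℕ) (g : KG G) : ℂ :=
  (N : ℂ)⁻¹ * ∑ n ∈ Finset.range N, f (uG G ^ n * g)

private theorem mf1_av_le {G : Subgroup Circle} (f : C(KG G, ℂ)) (N : ℕ) (g : KG G) :
    ‖mf1_av f N g‖ ≤ ‖f‖ := by
  unfold mf1_av
  rw [norm_mul, norm_inv, Complex.norm_natCast]
  rcases Nat.eq_zero_or_pos N with h | h
  · subst h
    simp
  · have hN : (0 : ℝ) < N := by exact_mod_cast h
    rw [inv_mul_le_iff₀ hN]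
    refine (norm_sum_le _ _).trans ?_
    refine (Finset.sum_le_sum fun n _ => f.norm_coe_le_norm _).trans ?_
    rw [Finset.sum_const, Finset.card_range, nsmul_eq_mul]

private def mf1_Q {G : Subgroup Circle} (f : C(KG G, ℂ)) : Prop :=
  ∀ ε : ℝ, 0 < ε → ∃ c : ℂ, ∀ᶠ N : ℕ in atTop, ∀ g, ‖mf1_av f N g - c‖ ≤ ε

private theorem mf1_geom (w : Circle) (hw : w ≠ 1) (N : ℕ) :
    ‖∑ n ∈ Finset.range N, (w : ℂ) ^ n‖ ≤ 2 / ‖(w : ℂ) - 1‖ := by
  have h1 : (w : ℂ) ≠ 1 := by
    intro h
    exact hw (Subtype.ext h)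
  have h2 : (0 : ℝ) < ‖(w : ℂ) - 1‖ := norm_pos_iff.mpr (sub_ne_zero.mpr h1)
  rw [geom_sum_eq h1, norm_div, div_le_div_iff_of_pos_right h2]
  refine (norm_sub_le _ _).trans ?_
  rw [norm_pow, Circle.norm_coe, one_pow, norm_one]
  norm_num

private theorem mf1_Q_ev {G : Subgroup Circle} (w : Dsc G) : mf1_Q (mf1_ev w) := by
  intro ε hε
  have hval : ∀ (n : ℕ) (g : KG G), mf1_ev w (uG G ^ n * g) =
      ((uG G w : Circle) : ℂ) ^ n * ((g w : Circle) : ℂ) := by
    intro n g
    rw [mf1_ev_apply]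
    have h1 : (uG G ^ n * g) w = (uG G ^ n) w * g w := rfl
    rw [h1, mf1_pow, Circle.coe_mul, Circle.coe_pow]
  by_cases hw : uG G w = 1
  · have hw1 : w = 1 := by
      apply Subtype.ext
      exact hw
    refine ⟨1, ?_⟩
    filter_upwards [eventually_gt_atTop 0] with N hN g
    have hN' : (N : ℂ) ≠ 0 := by exact_mod_cast hN.ne'
    have h2 : mf1_av (mf1_ev w) N g = 1 := by
      unfold mf1_av
      have h3 : ∀ n ∈ Finset.range N, mf1_ev w (uG G ^ n * g) = 1 := by
        intro n _
        rw [hval, hw, hw1, map_one, Circle.coe_one, one_pow, one_mul]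
      rw [Finset.sum_congr rfl h3, Finset.sum_const, Finset.card_range, nsmul_eq_mul, mul_one,
        inv_mul_cancel₀ hN']
    rw [h2, sub_self, norm_zero]
    exact hε.le
  · refine ⟨0, ?_⟩
    have h4 : Tendsto (fun N : ℕ => (N : ℝ)⁻¹ * (2 / ‖((uG G w : Circle) : ℂ) - 1‖)) atTop
        (𝓝 (0 * (2 / ‖((uG G w : Circle) : ℂ) - 1‖))) :=
      (tendsto_inv_atTop_nhds_zero_nat (𝕜 := ℝ)).mul_const _
    rw [zero_mul] at h4
    filter_upwards [h4.eventually (eventually_le_nhds hε)] with N hN g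
    rw [sub_zero]
    refine le_trans ?_ hN
    unfold mf1_av
    rw [norm_mul, norm_inv, Complex.norm_natCast]
    apply mul_le_mul_of_nonneg_left _ (by positivity)
    have h5 : ∑ n ∈ Finset.range N, mf1_ev w (uG G ^ n * g) =
        (∑ n ∈ Finset.range N, ((uG G w : Circle) : ℂ) ^ n) * ((g w : Circle) : ℂ) := by
      rw [Finset.sum_mul]
      exact Finset.sum_congr rfl fun n _ => hval n g
    rw [h5, norm_mul, Circle.norm_coe, mul_one]
    exact mf1_geom _ hw N

private theorem mf1_Q_span {G : Subgroup Circle} (f : C(KG G, ℂ))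
    (hf : f ∈ Submodule.span ℂ (Set.range (mf1_ev (G := G)))) : mf1_Q f := by
  induction hf using Submodule.span_induction with
  | mem x hx =>
    obtain ⟨w, rfl⟩ := hx
    exact mf1_Q_ev w
  | zero =>
    intro ε hε
    refine ⟨0, Eventually.of_forall fun N g => ?_⟩
    have h1 : mf1_av (0 : C(KG G, ℂ)) N g = 0 := by
      unfold mf1_av
      simp
    rw [h1, sub_zero, norm_zero]
    exact hε.le
  | add x y _ _ hx hy =>
    intro ε hε
    obtain ⟨c, hc⟩ := hx (ε / 2) (half_pos hε)
    obtain ⟨c', hc'⟩ := hy (ε / 2) (half_pos hε)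
    refine ⟨c + c', ?_⟩
    filter_upwards [hc, hc'] with N h1 h2 g
    have h3 : mf1_av (x + y) N g - (c + c') = (mf1_av x N g - c) + (mf1_av y N g - c') := by
      unfold mf1_av
      simp only [ContinuousMap.add_apply, Finset.sum_add_distrib]
      ring
    rw [h3]
    refine (norm_add_le _ _).trans ?_
    have := h1 g
    have := h2 g
    linarith
  | smul a x _ hx =>
    intro ε hε
    obtain ⟨c, hc⟩ := hx (ε / (‖a‖ + 1)) (by positivity)
    refine ⟨a * c, ?_⟩
    filter_upwards [hc] with N h1 g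
    have h3 : mf1_av (a • x) N g - a * c = a * (mf1_av x N g - c) := by
      unfold mf1_av
      simp only [ContinuousMap.smul_apply, smul_eq_mul, ← Finset.mul_sum]
      ring
    rw [h3, norm_mul]
    have h2 := h1 g
    have h4 : (0 : ℝ) < ‖a‖ + 1 := by positivity
    calc ‖a‖ * ‖mf1_av x N g - c‖ ≤ (‖a‖ + 1) * (ε / (‖a‖ + 1)) :=
          mul_le_mul (by linarith) h2 (norm_nonneg _) h4.le
      _ = ε := by field_simp

private theorem mf1_Q_all {G : Subgroup Circle} (f : C(KG G, ℂ)) : mf1_Q f := by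
  intro ε hε
  have h1 : f ∈ (Submodule.span ℂ (Set.range (mf1_ev (G := G)))).topologicalClosure := by
    rw [mf1_dense]
    exact Submodule.mem_top
  have h2 : f ∈ closure ((Submodule.span ℂ (Set.range (mf1_ev (G := G))) : Submodule ℂ C(KG G, ℂ)) :
      Set C(KG G, ℂ)) := h1
  rw [Metric.mem_closure_iff] at h2
  obtain ⟨P, hP, hd⟩ := h2 (ε / 2) (half_pos hε)
  obtain ⟨c, hc⟩ := mf1_Q_span P hP (ε / 2) (half_pos hε)
  refine ⟨c, ?_⟩
  filter_upwards [hc] with N h3 g
  have h4 : mf1_av f N g - c = mf1_av (f - P) N g + (mf1_av P N g - c) := by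
    unfold mf1_av
    simp only [ContinuousMap.sub_apply, Finset.sum_sub_distrib]
    ring
  rw [h4]
  refine (norm_add_le _ _).trans ?_
  have h5 := mf1_av_le (f - P) N g
  rw [dist_eq_norm] at hd
  have := h3 g
  linarith

/-- **Powers of `uG` are dense**, arbitrarily late ones: let `O` be open, nonempty. The span of the evaluations `χ ↦ χ w`, `w ∈ G`, is a
point separating star subalgebra of `C(KG G, ℂ)`, dense by Stone-Weierstrass. For `w ≠ 1` (as an element of the circle) the averages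
`(1/N) ∑_{n < N} (uG ^ n * y) w = y w (1/N) ∑ w^n` tend to `0`, and the Haar integral of the evaluation is `0`. So
`(1/N) ∑_{n < N} f (uG ^ n) → ∫ f` for all continuous `f`; take `f ≥ 0` supported in `O` with `∫ f > 0`: infinitely many `n` have
`uG ^ n ∈ O`. (Another proof: in a compact group the closure of `{u ^ n : n > L}` is the closed subgroup generated by `u`; if it is not
everything there is `f` as above with integral `≠` the integral over the subgroup.) -/
theorem dense_uG (G : Subgroup Circle) (O : Set (KG G)) (hO : IsOpen O) (hn : O.Nonempty) (L : ℕ) :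
    ∃ m : ℕ, L < m ∧ uG G ^ m ∈ O := by
  classical
  by_contra hcon
  push Not at hcon
  obtain ⟨χ0, hχ0⟩ := hn
  obtain ⟨f, hf0, hf1, hf01⟩ := exists_continuous_zero_one_of_isClosed (X := KG G)
    hO.isClosed_compl isClosed_singleton
    (Set.disjoint_singleton_right.mpr (fun h : χ0 ∈ Oᶜ => h hχ0))
  let F : C(KG G, ℂ) := ⟨fun χ => ((f χ : ℝ) : ℂ), Complex.continuous_ofReal.comp f.continuous⟩
  have hF : ∀ χ, F χ = ((f χ : ℝ) : ℂ) := fun χ => rfl
  have hV : IsOpen {χ : KG G | (1 : ℝ) / 2 < f χ} := isOpen_lt continuous_const f.continuous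
  have hVn : (interior {χ : KG G | (1 : ℝ) / 2 < f χ}).Nonempty := by
    rw [hV.interior_eq]
    refine ⟨χ0, ?_⟩
    have h1 : f χ0 = 1 := hf1 (Set.mem_singleton _)
    show (1 : ℝ) / 2 < f χ0
    rw [h1]; norm_num
  obtain ⟨t, ht⟩ := compact_covered_by_mul_left_translates (isCompact_univ (X := KG G)) hVn
  have hsum : ∀ y : KG G, (1 : ℝ) / 2 ≤ ∑ g ∈ t, f (y * g) := by
    intro y
    have h1 := ht (Set.mem_univ y)
    simp only [Set.mem_iUnion] at h1
    obtain ⟨g, hg, h2⟩ := h1
    have h3 : (1 : ℝ) / 2 < f (g * y) := h2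
    rw [mul_comm g y] at h3
    refine h3.le.trans ?_
    exact Finset.single_le_sum (f := fun g => f (y * g)) (fun g' _ => (hf01 (y * g')).1) hg
  have hε : (0 : ℝ) < 1 / (12 * ((t.card : ℝ) + 1)) := by positivity
  obtain ⟨c, hc⟩ := mf1_Q_all F _ hε
  have hsmall : Tendsto (fun N : ℕ => (N : ℝ)⁻¹ * ((L : ℝ) + 1)) atTop (𝓝 (0 * ((L : ℝ) + 1))) :=
    (tendsto_inv_atTop_nhds_zero_nat (𝕜 := ℝ)).mul_const _
  rw [zero_mul] at hsmall
  obtain ⟨N, ⟨hN1, hN2⟩, hN3⟩ := ((hc.and (hsmall.eventually (eventually_le_nhds hε))).and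
    (eventually_gt_atTop 0)).exists
  have hNpos : (0 : ℝ) < N := by exact_mod_cast hN3
  -- the average at 1 is small
  have hav1 : ‖mf1_av F N 1‖ ≤ 1 / (12 * ((t.card : ℝ) + 1)) := by
    refine le_trans ?_ hN2
    unfold mf1_av
    rw [norm_mul, norm_inv, Complex.norm_natCast]
    apply mul_le_mul_of_nonneg_left _ (by positivity)
    refine (norm_sum_le _ _).trans ?_
    have h1 : ∀ n ∈ Finset.range N, ‖F (uG G ^ n * 1)‖ ≤ if n ≤ L then (1 : ℝ) else 0 := by
      intro n _
      rw [hF, mul_one, Complex.norm_real, Real.norm_eq_abs]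
      split_ifs with h
      · rw [abs_of_nonneg (hf01 _).1]
        exact (hf01 _).2
      · have h2 : uG G ^ n ∈ Oᶜ := hcon n (by omega)
        have h3 : f (uG G ^ n) = 0 := hf0 h2
        rw [h3, abs_zero]
    refine (Finset.sum_le_sum h1).trans ?_
    rw [← Finset.sum_filter, Finset.sum_const, nsmul_eq_mul, mul_one]
    have h2 : (Finset.filter (fun n => n ≤ L) (Finset.range N)) ⊆ Finset.range (L + 1) := by
      intro n hn
      rw [Finset.mem_filter] at hn
      rw [Finset.mem_range]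
      omega
    have h3 := Finset.card_le_card h2
    rw [Finset.card_range] at h3
    exact_mod_cast h3
  have hcn : ‖c‖ ≤ 2 * (1 / (12 * ((t.card : ℝ) + 1))) := by
    have h1 := hN1 1
    have h2 : c = mf1_av F N 1 - (mf1_av F N 1 - c) := by ring
    rw [h2]
    refine (norm_sub_le _ _).trans ?_
    linarith
  have hall : ∀ g, ‖mf1_av F N g‖ ≤ 3 * (1 / (12 * ((t.card : ℝ) + 1))) := by
    intro g
    have h1 := hN1 g
    have h2 : mf1_av F N g = (mf1_av F N g - c) + c := by ring
    rw [h2]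
    refine (norm_add_le _ _).trans ?_
    linarith
  -- the sum over the translates is large
  have hbig : (1 : ℝ) / 2 ≤ ‖∑ g ∈ t, mf1_av F N g‖ := by
    have h1 : ∑ g ∈ t, mf1_av F N g =
        (((N : ℝ)⁻¹ * ∑ n ∈ Finset.range N, ∑ g ∈ t, f (uG G ^ n * g) : ℝ) : ℂ) := by
      unfold mf1_av
      rw [← Finset.mul_sum, Finset.sum_comm]
      push_cast
      rfl
    rw [h1, Complex.norm_real]
    refine le_trans ?_ (le_abs_self _)
    rw [le_inv_mul_iff₀ hNpos]
    calc (N : ℝ) * (1 / 2) = ∑ n ∈ Finset.range N, (1 : ℝ) / 2 := by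
          rw [Finset.sum_const, Finset.card_range, nsmul_eq_mul]
      _ ≤ _ := Finset.sum_le_sum fun n _ => hsum _
  have hle : ‖∑ g ∈ t, mf1_av F N g‖ ≤ (t.card : ℝ) * (3 * (1 / (12 * ((t.card : ℝ) + 1)))) := by
    refine (norm_sum_le _ _).trans ?_
    refine (Finset.sum_le_sum fun g _ => hall g).trans ?_
    rw [Finset.sum_const, nsmul_eq_mul]
  have hfin : (t.card : ℝ) * (3 * (1 / (12 * ((t.card : ℝ) + 1)))) < 1 / 2 := by
    have h1 : (0 : ℝ) ≤ (t.card : ℝ) := Nat.cast_nonneg _
    have h2 : (t.card : ℝ) * (3 * (1 / (12 * ((t.card : ℝ) + 1)))) =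
        (t.card : ℝ) / (4 * ((t.card : ℝ) + 1)) := by
      field_simp
      ring
    rw [h2, div_lt_iff₀ (by positivity)]
    linarith
  linarith
-- END mf1

variable {X : Type*} [MetricSpace X] [CompactSpace X] {T : X ≃ₜ X}

-- BEGIN mf2
private theorem mf2_iter {w : Circle} {e : C(X, Circle)} (he : ∀ x, e (T x) = w * e x) (x : X) (n : ℕ) :
    e (T^[n] x) = w ^ n * e x := by
  induction n with
  | zero => simp
  | succ n ih => rw [Function.iterate_succ_apply', he, ih, pow_succ', mul_assoc]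

/-- Distinct eigenvalues have distant eigenfunctions: let `w ≠ w'`. The function `e / e'` takes the values `c z ^ n` with `z = w / w' ≠ 1`,
their averages tend to `0`, so some value has real part `≤ 1/2`, and there `‖e - e'‖ ≥ 1/2`. -/
theorem eig_far [Nonempty X] {w w' : Circle} (h : w ≠ w') {e e' : C(X, Circle)} (he : ∀ x, e (T x) = w * e x)
    (he' : ∀ x, e' (T x) = w' * e' x) : ∃ x, (1 : ℝ) / 2 ≤ ‖(e x : ℂ) - (e' x : ℂ)‖ := by
  by_contra hcon
  push Not at hcon
  obtain ⟨x0⟩ := ‹Nonempty X›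
  set z : ℂ := ((w / w' : Circle) : ℂ) with hz
  set c : ℂ := ((e x0 / e' x0 : Circle) : ℂ) with hc
  have hz1 : z - 1 ≠ 0 := by
    rw [sub_ne_zero]
    intro h1
    apply h
    have h2 : (w / w' : Circle) = 1 := by
      apply Circle.ext
      rw [← hz, h1, Circle.coe_one]
    exact div_eq_one.1 h2
  have hzn : ‖z‖ = 1 := Circle.norm_coe _
  have hcn : ‖c‖ = 1 := Circle.norm_coe _
  have hval : ∀ n : ℕ, (1 : ℝ) / 2 ≤ (z ^ n * c).re := by
    intro n
    have h1 := hcon (T^[n] x0)
    rw [mf2_iter he, mf2_iter he'] at h1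
    have h2 : z ^ n * c - 1 = (((w ^ n * e x0 : Circle) : ℂ) - ((w' ^ n * e' x0 : Circle) : ℂ)) *
        ((w' ^ n * e' x0 : Circle) : ℂ)⁻¹ := by
      have h3 : z ^ n * c = (((w ^ n * e x0) / (w' ^ n * e' x0) : Circle) : ℂ) := by
        rw [hz, hc, ← Circle.coe_pow, ← Circle.coe_mul]
        congr 1
        rw [div_pow, div_mul_div_comm]
      rw [h3, Circle.coe_div, sub_mul, mul_inv_cancel₀ (Circle.coe_ne_zero _), div_eq_mul_inv]
    have h4 : ‖z ^ n * c - 1‖ < 1 / 2 := by
      rw [h2, norm_mul, norm_inv, Circle.norm_coe, inv_one, mul_one]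
      exact h1
    have h5 : |(z ^ n * c - 1).re| ≤ ‖z ^ n * c - 1‖ := Complex.abs_re_le_norm _
    rw [Complex.sub_re, Complex.one_re] at h5
    have h6 := (abs_le.1 h5).1
    linarith
  have hsum : ∀ N : ℕ, (N : ℝ) / 2 ≤ ((∑ n ∈ Finset.range N, z ^ n) * c).re := by
    intro N
    rw [Finset.sum_mul, Complex.re_sum]
    have h1 : ∑ _n ∈ Finset.range N, (1 : ℝ) / 2 ≤ ∑ n ∈ Finset.range N, (z ^ n * c).re :=
      Finset.sum_le_sum fun n _ => hval n
    rw [Finset.sum_const, Finset.card_range, nsmul_eq_mul] at h1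
    linarith
  have hbd : ∀ N : ℕ, ‖(∑ n ∈ Finset.range N, z ^ n) * c‖ * ‖z - 1‖ ≤ 2 := by
    intro N
    rw [norm_mul, hcn, mul_one, ← norm_mul, geom_sum_mul]
    refine (norm_sub_le _ _).trans ?_
    rw [norm_pow, hzn, one_pow, norm_one]
    norm_num
  have hpos : 0 < ‖z - 1‖ := norm_pos_iff.2 hz1
  obtain ⟨N, hN⟩ := exists_nat_gt (4 / ‖z - 1‖)
  rw [div_lt_iff₀ hpos] at hN
  have h7 : (N : ℝ) / 2 ≤ ‖(∑ n ∈ Finset.range N, z ^ n) * c‖ :=
    (hsum N).trans (Complex.re_le_norm _)
  have h8 := mul_le_mul_of_nonneg_right h7 hpos.le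
  have h9 := hbd N
  linarith

/-- `E0 T` is countable: `C(X, ℂ)` is separable (second countable), and the chosen eigenfunctions are at distance `≥ 1/2` from one another. -/
theorem countable_E0 [Nonempty X] (T : X ≃ₜ X) : Countable (E0 T) := by
  have hch : ∀ w : E0 T, ∃ e : C(X, Circle), ∀ x, e (T x) = (w : Circle) * e x := fun w => w.2
  choose e he using hch
  let g : E0 T → C(X, ℂ) := fun w => ⟨fun x => (e w x : ℂ), by
    have h1 := (e w).continuous
    fun_prop⟩
  have hg : ∀ w w' : E0 T, w ≠ w' → (1 : ℝ) / 2 ≤ dist (g w) (g w') := by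
    intro w w' hne
    obtain ⟨x, hx⟩ := eig_far (fun h => hne (Subtype.ext h)) (he w) (he w')
    refine hx.trans ?_
    rw [← dist_eq_norm]
    exact ContinuousMap.dist_apply_le_dist (f := g w) (g := g w') x
  rw [← Set.countable_univ_iff]
  refine Set.PairwiseDisjoint.countable_of_isOpen (s := fun w => Metric.ball (g w) (1 / 4)) ?_
    (fun w _ => Metric.isOpen_ball) (fun w _ => ⟨g w, Metric.mem_ball_self (by norm_num)⟩)
  intro w _ w' _ hne
  refine Metric.ball_disjoint_ball ?_
  have := hg w w' hne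
  linarith
-- END mf2

-- BEGIN mf3
/-- a continuous invariant function is constant (minimality: `{f = f x}` is closed and `T F = F`) -/
theorem inv_const {Z : Type*} [TopologicalSpace Z] [T1Space Z] (hT : IsMin T) {f : X → Z} (hf : Continuous f)
    (hi : ∀ x, f (T x) = f x) (x y : X) : f x = f y := by
  have h1 : f ⁻¹' {f y} = Set.univ := by
    refine hT _ (isClosed_singleton.preimage hf) ?_ ⟨y, rfl⟩
    ext z
    constructor
    · rintro ⟨v, hv, rfl⟩
      exact (hi v).trans hv
    · intro hz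
      refine ⟨T.symm z, ?_, T.apply_symm_apply z⟩
      have h2 := hi (T.symm z)
      rw [T.apply_symm_apply] at h2
      exact h2.symm.trans hz
  have h3 : x ∈ f ⁻¹' {f y} := by
    rw [h1]
    trivial
  exact h3

private theorem mf3_uniq (hT : IsMin T) (x0 : X) {w : Circle} {e e' : C(X, Circle)}
    (he : ∀ x, e (T x) = w * e x) (he' : ∀ x, e' (T x) = w * e' x) (x : X) :
    e x * (e x0)⁻¹ = e' x * (e' x0)⁻¹ := by
  have h1 : (fun x => e x * (e' x)⁻¹) x = (fun x => e x * (e' x)⁻¹) x0 := by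
    refine inv_const hT (e.continuous.mul e'.continuous.inv) ?_ x x0
    intro y
    change e (T y) * (e' (T y))⁻¹ = e y * (e' y)⁻¹
    rw [he, he', mul_inv, mul_mul_mul_comm, mul_inv_cancel, one_mul]
  have h2 : e x * (e' x)⁻¹ = e x0 * (e' x0)⁻¹ := h1
  calc e x * (e x0)⁻¹ = (e x * (e' x)⁻¹) * (e' x * (e x0)⁻¹) := by
        rw [mul_assoc, inv_mul_cancel_left]
    _ = (e x0 * (e' x0)⁻¹) * (e' x * (e x0)⁻¹) := by rw [h2]
    _ = e' x * (e' x0)⁻¹ := by
        rw [mul_comm (e' x) (e x0)⁻¹, mul_mul_mul_comm, mul_inv_cancel, one_mul, mul_comm]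

/-- **The map `p`.** For `w ∈ E0 T` choose an eigenfunction `e_w`, and put `p x w = e_w x * (e_w x0)⁻¹`; two eigenfunctions for `w` have a constant
quotient (`inv_const`), so `p x` is multiplicative in `w`. Continuity: `Dsc G` is discrete, the topology of `KG G` is pointwise convergence
(`ContinuousMonoidHom.isInducing_toContinuousMap`, `ContinuousMap.continuous_of_continuous_uncurry`). -/
theorem exists_p (hT : IsMin T) (x0 : X) : ∃ p : X → KG (E0 T), Continuous p ∧
    (∀ x, p (T x) = uG (E0 T) * p x) ∧ p x0 = 1 ∧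
    ∀ (w : Dsc (E0 T)) (e : C(X, Circle)), (∀ x, e (T x) = uG (E0 T) w * e x) → ∀ x, e x = p x w * e x0 := by
  have hch : ∀ w : Dsc (E0 T), ∃ e : C(X, Circle), ∀ x, e (T x) = uG (E0 T) w * e x := fun w => w.2
  choose e he using hch
  let p : X → KG (E0 T) := fun x =>
    ({ toFun := fun w => e w x * (e w x0)⁻¹
       map_one' := by
         have h1 := mf3_uniq hT x0 (w := 1) (e := e 1) (e' := 1) (fun y => by
           rw [he, map_one]) (fun y => by simp) x
         rw [h1]
         simp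
       map_mul' := fun w w' => by
         have h1 := mf3_uniq hT x0 (w := uG (E0 T) (w * w')) (e := e (w * w')) (e' := e w * e w')
           (he _) (fun y => by
             rw [ContinuousMap.mul_apply, he, he, map_mul, ContinuousMap.mul_apply,
               mul_mul_mul_comm]) x
         rw [h1, ContinuousMap.mul_apply, ContinuousMap.mul_apply, mul_inv, mul_mul_mul_comm]
       continuous_toFun := continuous_of_discreteTopology } : Dsc (E0 T) →ₜ* Circle)
  have hp : ∀ x w, p x w = e w x * (e w x0)⁻¹ := fun x w => rfl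
  refine ⟨p, ?_, ?_, ?_, ?_⟩
  · have h1 : Topology.IsInducing
        (ContinuousMonoidHom.toContinuousMap : (Dsc (E0 T) →ₜ* Circle) → C(Dsc (E0 T), Circle)) :=
      ContinuousMonoidHom.isInducing_toContinuousMap _ _
    refine h1.continuous_iff.2 ?_
    refine ContinuousMap.continuous_of_continuous_uncurry _ ?_
    rw [continuous_prod_of_discrete_right]
    intro w
    change Continuous fun x => e w x * (e w x0)⁻¹
    exact (e w).continuous.mul continuous_const
  · intro x
    refine ContinuousMonoidHom.ext fun w => ?_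
    change e w (T x) * (e w x0)⁻¹ = uG (E0 T) w * (e w x * (e w x0)⁻¹)
    rw [he, mul_assoc]
  · refine ContinuousMonoidHom.ext fun w => ?_
    change e w x0 * (e w x0)⁻¹ = 1
    exact mul_inv_cancel _
  · intro w e' he' x
    rw [hp, mf3_uniq hT x0 (he w) he' x, inv_mul_cancel_right]
-- END mf3

-- BEGIN mf4
/-- **`p` is the maximal equicontinuous factor map.** Onto: the image is compact and contains `1`, hence all `u ^ n`, which are dense
(`dense_uG`). Let `e : X → ℂ` be continuous, `e (T x) = l e x`, not identically `0`. The maximum of `‖e‖` shows `‖l‖ = 1`, so `‖e‖` is invariant,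
constant `= c > 0` (`inv_const`), `e / c` has values in the circle, `l ∈ E0 T`, and `e x` is determined by `p x l`. -/
theorem exists_Ext [Nonempty X] (hT : IsMin T) : ∃ p : X → KG (E0 T), Ext T (uG (E0 T)) p := by
  obtain ⟨x0⟩ := ‹Nonempty X›
  obtain ⟨p, hp, hpT, hp0, hpe⟩ := exists_p hT x0
  have hpow : ∀ n : ℕ, ∃ x, p x = uG (E0 T) ^ n := by
    intro n
    induction n with
    | zero => exact ⟨x0, by rw [pow_zero, hp0]⟩
    | succ n ih =>
      obtain ⟨x, hx⟩ := ih
      exact ⟨T x, by rw [hpT, hx, pow_succ']⟩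
  refine ⟨p, hp, ?_, hpT, ?_, dense_uG (E0 T)⟩
  · intro y
    by_contra hy
    have hcl : IsClosed (Set.range p) := (isCompact_range hp).isClosed
    obtain ⟨m, _, hm⟩ := dense_uG (E0 T) (Set.range p)ᶜ hcl.isOpen_compl ⟨y, hy⟩ 0
    exact hm (hpow m)
  · intro e l he hel x x' hxx
    by_cases hz : ∀ z, e z = 0
    · rw [hz, hz]
    push Not at hz
    obtain ⟨z0, hz0⟩ := hz
    obtain ⟨x1, -, hx1⟩ := isCompact_univ.exists_isMaxOn (Set.univ_nonempty (α := X))
      (he.norm.continuousOn (s := Set.univ))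
    have hmax : ∀ z, ‖e z‖ ≤ ‖e x1‖ := fun z => hx1 (Set.mem_univ z)
    have hpos : 0 < ‖e x1‖ := lt_of_lt_of_le (norm_pos_iff.2 hz0) (hmax z0)
    have hl1 : ‖l‖ ≤ 1 := by
      have h1 := hmax (T x1)
      rw [hel, norm_mul] at h1
      by_contra h2
      push Not at h2
      nlinarith
    have hl2 : 1 ≤ ‖l‖ := by
      have h1 := hel (T.symm x1)
      rw [T.apply_symm_apply] at h1
      have h2 := hmax (T.symm x1)
      have h3 : ‖e x1‖ = ‖l‖ * ‖e (T.symm x1)‖ := by rw [h1, norm_mul]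
      by_contra h4
      push Not at h4
      have h5 : 0 ≤ ‖e (T.symm x1)‖ := norm_nonneg _
      have h6 : 0 ≤ ‖l‖ := norm_nonneg _
      nlinarith
    have hl : ‖l‖ = 1 := le_antisymm hl1 hl2
    have hcon : ∀ z, ‖e z‖ = ‖e x1‖ := fun z =>
      inv_const hT he.norm (fun z => by rw [hel, norm_mul, hl, one_mul]) z x1
    -- the normalised eigenfunction
    obtain ⟨c, hc⟩ : ∃ c : ℝ, c = ‖e x1‖ := ⟨_, rfl⟩
    rw [← hc] at hpos hcon
    have hc0 : (c : ℂ) ≠ 0 := by exact_mod_cast hpos.ne'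
    have hmem : ∀ z, e z / c ∈ Submonoid.unitSphere ℂ := by
      intro z
      rw [Submonoid.unitSphere, Submonoid.mem_mk, Subsemigroup.mem_mk, mem_sphere_zero_iff_norm, norm_div,
        hcon, Complex.norm_real, Real.norm_eq_abs, abs_of_pos hpos, div_self hpos.ne']
    have hlm : l ∈ Submonoid.unitSphere ℂ := by
      rw [Submonoid.unitSphere, Submonoid.mem_mk, Subsemigroup.mem_mk, mem_sphere_zero_iff_norm, hl]
    let w : Circle := ⟨l, hlm⟩
    let f : C(X, Circle) := ⟨fun z => ⟨e z / c, hmem z⟩, (he.div_const _).subtype_mk _⟩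
    have hfT : ∀ z, f (T z) = w * f z := by
      intro z
      apply Circle.ext
      rw [Circle.coe_mul]
      change e (T z) / c = l * (e z / c)
      rw [hel, mul_div_assoc]
    have hw : w ∈ E0 T := ⟨f, hfT⟩
    have h1 := hpe ⟨w, hw⟩ f hfT
    have h2 : f x = f x' := by rw [h1 x, h1 x', hxx]
    have h3 : e x / c = e x' / c := congrArg (fun z : Circle => (z : ℂ)) h2
    field_simp at h3
    exact h3
-- END mf4

end Pool.Agent.S7A
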