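import Pool.Agent.S7A.Lab
import Pool.Agent.S7A.Mef
import Pool.Agent.S7A.Ent

/-! # MP_13664e_an, block A: THEOREM A -/

set_option autoImplicit false

namespace Pool.Agent.S7A

open MeasureTheory Filter Topology Pool.Agent.Sar Pool.Agent.S7

/-- THEOREM A -/
theorem thmA {X : Type*} [MetricSpace X] [CompactSpace X] [Nonempty X] [MeasurableSpace X]
    [BorelSpace X] (T : X ≃ₜ X) (hT : IsMin T) (hB : BddSeqEnt T) :
    ∃ p : X → KG (E0 T), Continuous p ∧ (∀ x, p (T x) = uG (E0 T) * p x) ∧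
      ∃ (r : ℕ) (K' : Set (KG (E0 T))) (lab : X → Fin r) (ξ : KG (E0 T) × Fin r → X),
        MeasurableSet K' ∧
        (∀ (m : Measure (KG (E0 T))) [m.IsHaarMeasure], m K'ᶜ = 0) ∧
        (∀ k, uG (E0 T) * k ∈ K' ↔ k ∈ K') ∧ Measurable lab ∧ Measurable ξ ∧
        ∀ k ∈ K', (∀ j, p (ξ (k, j)) = k ∧ lab (ξ (k, j)) = j) ∧ ∀ x, p x = k → ξ (k, lab x) = x := by
  have hM : Mini T := fun F hF hn hi => hT F hF hi hn
  have : Countable (E0 T) := countable_E0 T
  obtain ⟨p, he⟩ := exists_Ext hT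
  obtain ⟨h, hh⟩ : ∃ h : Measure (KG (E0 T)), h = Measure.haarMeasure ⊤ := ⟨_, rfl⟩
  have hp : IsProbabilityMeasure h := ⟨by rw [hh]; exact Measure.haarMeasure_self⟩
  have hH : h.IsHaarMeasure := by rw [hh]; infer_instance
  have hd : DenseRange (fun n : ℕ => uG (E0 T) ^ n) := by
    rw [DenseRange, dense_iff_inter_open]
    intro O hO hn
    obtain ⟨m, -, hm⟩ := dense_uG (E0 T) O hO hn 0
    exact ⟨_, hm, m, rfl⟩
  have hE : Ergodic (fun z => uG (E0 T) * z) h := ergodic_mul_left_of_denseRange_pow hd h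
  obtain ⟨R, -, hR⟩ := exists_bound hM he h hB
  obtain ⟨r, hr, hre⟩ := exists_r he.cont he.surj he.eq h hE hR
  obtain ⟨lab, hl, hi⟩ := exists_lab he.cont hr
  obtain ⟨ξ, hξ, hx⟩ := exists_xi he.cont hr hl hi
  refine ⟨p, he.cont, he.eq, r, {z | (p ⁻¹' {z}).encard = r}, lab, ξ, ?_, ?_, ?_, hl, hξ, hx⟩
  · have h1 : {z | (p ⁻¹' {z}).encard = r} = {z | (r : ℕ∞) ≤ (p ⁻¹' {z}).encard} \
        {z | ((r + 1 : ℕ) : ℕ∞) ≤ (p ⁻¹' {z}).encard} := by
      ext z
      simp only [Set.mem_ofPred_eq, Set.mem_sdiff, not_le]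
      constructor
      · intro hz
        rw [hz]
        exact ⟨le_rfl, by exact_mod_cast Nat.lt_succ_self r⟩
      · rintro ⟨h2, h3⟩
        refine le_antisymm ?_ h2
        have h4 : ((r + 1 : ℕ) : ℕ∞) = (r : ℕ∞) + 1 := by push_cast; rfl
        rw [h4] at h3
        exact Order.lt_add_one_iff_of_not_isMax (by simp) |>.1 h3
    rw [h1]
    exact (fib_meas he.cont r).diff (fib_meas he.cont (r + 1))
  · intro m hm
    have h1 : h {z | (p ⁻¹' {z}).encard = r}ᶜ = 0 := hre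
    rw [Measure.isMulLeftInvariant_eq_smul m h, Measure.smul_apply, h1, smul_zero]
  · intro k
    simp only [Set.mem_ofPred_eq]
    rw [fib_card he.eq k]

end Pool.Agent.S7A
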