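import Pool.Agent.S7A.Basic

/-! # MP_13664e_an, block A: continuous invariant kernels are constant on the fibres of `p` -/

set_option autoImplicit false

namespace Pool.Agent.S7A

open MeasureTheory Filter Topology Pool.Agent.Sar

-- BEGIN ke1
/-- the subspace orthogonal to all joint eigenvectors -/
private def ke1_W {H : Type*} [NormedAddCommGroup H] [InnerProductSpace ℂ H]
    (A : H →L[ℂ] H) (U : H →ₗᵢ[ℂ] H) : Submodule ℂ H where
  carrier := {w | ∀ (f : H) (t l : ℂ), t ≠ 0 → A f = t • f → U f = l • f → inner ℂ f w = 0}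
  add_mem' := by
    intro a b ha hb f t l h1 h2 h3
    rw [inner_add_right, ha f t l h1 h2 h3, hb f t l h1 h2 h3, add_zero]
  zero_mem' := by
    intro f t l _ _ _
    exact inner_zero_right f
  smul_mem' := by
    intro c a ha f t l h1 h2 h3
    rw [inner_smul_right, ha f t l h1 h2 h3, mul_zero]

private theorem ke1_closed {H : Type*} [NormedAddCommGroup H] [InnerProductSpace ℂ H]
    (A : H →L[ℂ] H) (U : H →ₗᵢ[ℂ] H) : IsClosed (ke1_W A U : Set H) := by
  have : (ke1_W A U : Set H) = ⋂ (f : H) (t : ℂ) (l : ℂ) (_ : t ≠ 0) (_ : A f = t • f) (_ : U f = l • f),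
      {w : H | inner ℂ f w = 0} := by
    ext w
    simp only [Set.mem_iInter]
    exact Iff.rfl
  rw [this]
  refine isClosed_iInter fun f => isClosed_iInter fun t => isClosed_iInter fun l =>
    isClosed_iInter fun _ => isClosed_iInter fun _ => isClosed_iInter fun _ => ?_
  exact isClosed_eq (continuous_const.inner continuous_id) continuous_const

/-- **Hilbert space lemma.** A compact symmetric operator `A` commutes with an isometry `U`. If `v` is orthogonal to all
joint eigenvectors `f` (`A f = t f`, `t ≠ 0`, `U f = l f`) then `A v = 0`.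
Proof. For `t ≠ 0` the eigenspace `E` of `A` is finite dimensional (`ContinuousLinearMap.finite_dimensional_eigenspace`)
and `U`-invariant, `U` is bijective on it; let `E'` be the span of the eigenvectors of `U` in `E`; the
orthogonal complement of `E'` in `E` is `U`-invariant (`U E' = E'`, `U` preserves inner products), if it is not
zero it contains an eigenvector of `U` (`Module.End.exists_eigenvalue`), contradiction. So `v` is orthogonal to `E`.
So `v` is orthogonal to all eigenspaces for `t ≠ 0`. Let `N` be the orthogonal complement of the sum of these eigenspaces: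
`A` maps `N` to `N`, `A` restricted to `N` is compact symmetric without eigenvalues `≠ 0`, so it is `0`
(`ContinuousLinearMap.eq_zero_of_forall_hasEigenvalue_eq_zero`; compare the proof of
`ContinuousLinearMap.orthogonalComplement_iSup_eigenspaces_eq_bot` in Mathlib). -/
theorem joint {H : Type*} [NormedAddCommGroup H] [InnerProductSpace ℂ H] [CompleteSpace H]
    (A : H →L[ℂ] H) (hA : IsCompactOperator A) (hs : (A : H →ₗ[ℂ] H).IsSymmetric) (U : H →ₗᵢ[ℂ] H)
    (hc : ∀ f, A (U f) = U (A f)) (v : H)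
    (h : ∀ (f : H) (t l : ℂ), t ≠ 0 → A f = t • f → U f = l • f → inner ℂ f v = 0) : A v = 0 := by
  have hcl := ke1_closed A U
  have : CompleteSpace (ke1_W A U) := hcl.completeSpace_coe
  have hAW : ∀ w ∈ ke1_W A U, (A : H →ₗ[ℂ] H) w ∈ ke1_W A U := by
    intro w hw f t l h1 h2 h3
    have h4 := hs f w
    rw [← h4]
    change inner ℂ (A f) w = 0
    rw [h2, inner_smul_left, hw f t l h1 h2 h3, mul_zero]
  have hUW : ∀ w ∈ ke1_W A U, U.toLinearMap w ∈ ke1_W A U := by
    intro w hw f t l h1 h2 h3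
    change inner ℂ f (U w) = 0
    by_cases hl : l = 0
    · rw [hl, zero_smul] at h3
      have : f = 0 := by
        have := U.norm_map f
        rw [h3, norm_zero] at this
        exact norm_eq_zero.1 this.symm
      rw [this, inner_zero_left]
    · have h5 : f = U (l⁻¹ • f) := by
        rw [U.map_smul, h3, smul_smul, inv_mul_cancel₀ hl, one_smul]
      rw [h5, U.inner_map_map, inner_smul_left, hw f t l h1 h2 h3, mul_zero]
  have hSc : IsCompactOperator (A.restrict hAW) := hA.restrict' hAW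
  have hSs : (A.restrict hAW).IsSymmetric := hs.restrict_invariant hAW
  have key : ∀ μ, Module.End.HasEigenvalue
      ((A.restrict hAW : (ke1_W A U) →L[ℂ] (ke1_W A U)) : Module.End ℂ (ke1_W A U)) μ → μ = 0 := by
    intro t ht
    by_contra h0
    have := ContinuousLinearMap.finite_dimensional_eigenspace hSc t h0
    have hUE : ∀ e ∈ Module.End.eigenspace (A.restrict hAW).toLinearMap t,
        (U.toLinearMap.restrict hUW) e ∈ Module.End.eigenspace (A.restrict hAW).toLinearMap t := by
      intro e he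
      rw [Module.End.mem_eigenspace_iff] at he ⊢
      apply Subtype.ext
      have h1 : A (e : H) = t • (e : H) := congrArg Subtype.val he
      change A (U (e : H)) = t • (U (e : H))
      rw [hc, h1, U.map_smul]
    obtain ⟨e, he⟩ := ht.exists_hasEigenvector
    have : Nontrivial (Module.End.eigenspace (A.restrict hAW).toLinearMap t) := by
      refine ⟨⟨⟨e, he.1⟩, 0, fun hh => he.2 (congrArg Subtype.val hh)⟩⟩
    obtain ⟨l, hl⟩ := Module.End.exists_eigenvalue ((U.toLinearMap.restrict hUW).restrict hUE)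
    obtain ⟨g, hg⟩ := hl.exists_hasEigenvector
    have hg1 := g.2
    rw [Module.End.mem_eigenspace_iff] at hg1
    have h1 : A ((g : ke1_W A U) : H) = t • ((g : ke1_W A U) : H) := congrArg Subtype.val hg1
    have hg2 := hg.1
    rw [Module.End.mem_eigenspace_iff] at hg2
    have h2 : U ((g : ke1_W A U) : H) = l • ((g : ke1_W A U) : H) :=
      congrArg Subtype.val (congrArg Subtype.val hg2)
    have h3 : inner ℂ ((g : ke1_W A U) : H) ((g : ke1_W A U) : H) = 0 :=
      (g : ke1_W A U).2 _ t l h0 h1 h2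
    have h4 := inner_self_eq_zero.1 h3
    exact hg.2 (Subtype.ext (Subtype.ext h4))
  rw [ContinuousLinearMap.eq_zero_of_forall_hasEigenvalue_eq_zero hSc hSs] at key
  have hv : v ∈ ke1_W A U := h
  have h1 : (A.restrict hAW) ⟨v, hv⟩ = 0 := by rw [key]; rfl
  exact congrArg Subtype.val h1
-- END ke1

variable {X : Type*} [MetricSpace X] [CompactSpace X] [MeasurableSpace X] [BorelSpace X]
  (μ : Measure X) [IsProbabilityMeasure μ]

-- BEGIN ke2
/-- the function `x ↦ ∫ k x y f y` is continuous (`k` is uniformly continuous) -/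
theorem ker_cont {k : X → X → ℝ} (hk : Continuous fun q : X × X => k q.1 q.2) {f : X → ℂ}
    (hf : Integrable f μ) : Continuous fun x => ∫ y, (k x y : ℂ) * f y ∂μ := by
  obtain ⟨C, hC⟩ := (isCompact_univ (X := X × X)).exists_bound_of_continuousOn hk.continuousOn
  refine continuous_of_dominated (bound := fun y => C * ‖f y‖) ?_ ?_ ?_ ?_
  · intro x
    have h1 : Continuous fun y => ((k x y : ℝ) : ℂ) :=
      Complex.continuous_ofReal.comp (hk.comp (Continuous.prodMk_right x))
    exact h1.aestronglyMeasurable.mul hf.aestronglyMeasurable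
  · intro x
    refine Filter.Eventually.of_forall fun y => ?_
    rw [norm_mul, Complex.norm_real]
    exact mul_le_mul_of_nonneg_right (hC (x, y) (Set.mem_univ _)) (norm_nonneg _)
  · exact hf.norm.const_mul C
  · refine Filter.Eventually.of_forall fun y => ?_
    have h1 : Continuous fun x => ((k x y : ℝ) : ℂ) :=
      Complex.continuous_ofReal.comp (hk.comp (Continuous.prodMk_left y))
    exact h1.mul continuous_const
-- END ke2

-- BEGIN ke3
omit [MetricSpace X] [CompactSpace X] [BorelSpace X] in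
/-- the integral of the norm is at most the `L²` norm -/
private theorem ke3_L1 (f : Lp ℂ 2 μ) : Integrable (f : X → ℂ) μ ∧ ∫ y, ‖f y‖ ∂μ ≤ ‖f‖ := by
  have hm : MemLp (f : X → ℂ) 2 μ := Lp.memLp f
  have hi : Integrable (f : X → ℂ) μ := hm.integrable (by norm_num)
  refine ⟨hi, ?_⟩
  rw [integral_norm_eq_lintegral_enorm hi.aestronglyMeasurable, Lp.norm_def]
  refine ENNReal.toReal_mono (Lp.eLpNorm_ne_top f) ?_
  rw [← eLpNorm_one_eq_lintegral_enorm]
  exact eLpNorm_le_eLpNorm_of_exponent_le (by norm_num) hi.aestronglyMeasurable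

omit [MetricSpace X] [CompactSpace X] [BorelSpace X] in
/-- a bounded kernel gives a bounded integral -/
private theorem ke3_bd (f : Lp ℂ 2 μ) (g : X → ℝ) {M : ℝ} (hM : ∀ y, |g y| ≤ M) :
    ‖∫ y, (g y : ℂ) * f y ∂μ‖ ≤ M * ‖f‖ := by
  have hM0 : 0 ≤ M := by
    have : Nonempty X := by
      by_contra hne
      rw [not_nonempty_iff] at hne
      have h1 : μ Set.univ = 1 := measure_univ
      rw [Set.univ_eq_empty_iff.mpr hne, measure_empty] at h1
      exact zero_ne_one h1
    exact (abs_nonneg _).trans (hM (Classical.arbitrary X))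
  calc ‖∫ y, (g y : ℂ) * f y ∂μ‖ ≤ ∫ y, ‖(g y : ℂ) * f y‖ ∂μ := norm_integral_le_integral_norm _
    _ ≤ ∫ y, M * ‖f y‖ ∂μ := by
        refine integral_mono_of_nonneg (Filter.Eventually.of_forall fun y => norm_nonneg _)
          ((ke3_L1 μ f).1.norm.const_mul M) (Filter.Eventually.of_forall fun y => ?_)
        show ‖(g y : ℂ) * f y‖ ≤ M * ‖f y‖
        rw [norm_mul, Complex.norm_real, Real.norm_eq_abs]
        exact mul_le_mul_of_nonneg_right (hM y) (norm_nonneg _)
    _ = M * ∫ y, ‖f y‖ ∂μ := integral_const_mul _ _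
    _ ≤ M * ‖f‖ := mul_le_mul_of_nonneg_left (ke3_L1 μ f).2 hM0

/-- products with a continuous function are integrable -/
private theorem ke3_int (f : Lp ℂ 2 μ) (g : X → ℝ) (hg : Continuous g) :
    Integrable (fun y => (g y : ℂ) * f y) μ := by
  obtain ⟨M, hM⟩ := isCompact_univ.exists_bound_of_continuousOn (f := g) hg.continuousOn
  refine Integrable.bdd_mul (c := M) (ke3_L1 μ f).1
    (Complex.continuous_ofReal.comp hg).aestronglyMeasurable
    (Filter.Eventually.of_forall fun y => ?_)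
  show ‖(g y : ℂ)‖ ≤ M
  rw [Complex.norm_real]
  exact hM y (Set.mem_univ y)

/-- the operator into the continuous functions -/
private theorem ke3_B {k : X → X → ℝ} (hk : Continuous fun q : X × X => k q.1 q.2) :
    ∃ B : Lp ℂ 2 μ →L[ℂ] C(X, ℂ), ∀ f x, B f x = ∫ y, (k x y : ℂ) * f y ∂μ := by
  have hkx : ∀ x, Continuous (k x) := fun x => hk.comp (Continuous.prodMk_right x)
  obtain ⟨M, hM⟩ := isCompact_univ.exists_bound_of_continuousOn
    (f := fun q : X × X => k q.1 q.2) hk.continuousOn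
  have hM' : ∀ x y, |k x y| ≤ M := fun x y => hM (x, y) (Set.mem_univ _)
  let L : Lp ℂ 2 μ →ₗ[ℂ] C(X, ℂ) :=
    { toFun := fun f => ⟨fun x => ∫ y, (k x y : ℂ) * f y ∂μ, ker_cont μ hk (ke3_L1 μ f).1⟩
      map_add' := by
        intro f g
        ext x
        show ∫ y, (k x y : ℂ) * (f + g : Lp ℂ 2 μ) y ∂μ
          = (∫ y, (k x y : ℂ) * f y ∂μ) + ∫ y, (k x y : ℂ) * g y ∂μ
        rw [← integral_add (ke3_int μ f (k x) (hkx x)) (ke3_int μ g (k x) (hkx x))]
        refine integral_congr_ae ?_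
        filter_upwards [Lp.coeFn_add f g] with y hy
        rw [hy, Pi.add_apply]
        ring
      map_smul' := by
        intro c f
        ext x
        show ∫ y, (k x y : ℂ) * (c • f : Lp ℂ 2 μ) y ∂μ = c * ∫ y, (k x y : ℂ) * f y ∂μ
        rw [← integral_const_mul]
        refine integral_congr_ae ?_
        filter_upwards [Lp.coeFn_smul c f] with y hy
        rw [hy, Pi.smul_apply, smul_eq_mul]
        ring }
  refine ⟨L.mkContinuous (|M|) ?_, fun f x => rfl⟩
  intro f
  have h0 : 0 ≤ |M| * ‖f‖ := mul_nonneg (abs_nonneg _) (norm_nonneg _)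
  rw [ContinuousMap.norm_le _ h0]
  intro x
  show ‖∫ y, (k x y : ℂ) * f y ∂μ‖ ≤ |M| * ‖f‖
  exact ke3_bd μ f (k x) (fun y => (hM' x y).trans (le_abs_self M))

omit [MeasurableSpace X] [BorelSpace X] in
/-- partition of unity subordinate to balls -/
private theorem ke3_pou {δ : ℝ} (hδ : 0 < δ) : ∃ (t : Finset X) (φ : X → C(X, ℂ)),
    (∀ x, ∑ i ∈ t, ‖φ i x‖ = 1) ∧ (∀ x, ∑ i ∈ t, φ i x = 1) ∧ ∀ i x, φ i x ≠ 0 → dist x i < δ := by
  obtain ⟨t, -, hfin, ht⟩ := (isCompact_univ (X := X)).finite_cover_balls hδ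
  set s : Finset X := hfin.toFinset with hs
  let w : X → X → ℝ := fun i x => max 0 (δ - dist x i)
  have hw0 : ∀ i x, 0 ≤ w i x := fun i x => le_max_left _ _
  have hwc : ∀ i, Continuous (w i) := fun i => by
    show Continuous fun x => max 0 (δ - dist x i)
    fun_prop
  let S : X → ℝ := fun x => ∑ j ∈ s, w j x
  have hSc : Continuous S := continuous_finsetSum _ fun j _ => hwc j
  have hS : ∀ x, 0 < S x := by
    intro x
    obtain ⟨i, hi, hx⟩ := Set.mem_iUnion₂.mp (ht (Set.mem_univ x))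
    rw [Metric.mem_ball] at hx
    have h1 : 0 < w i x := lt_max_of_lt_right (by linarith)
    refine lt_of_lt_of_le h1 ?_
    exact Finset.single_le_sum (f := fun j => w j x) (fun j _ => hw0 j x)
      (hfin.mem_toFinset.mpr hi)
  have hc : ∀ i, Continuous fun x => ((w i x / S x : ℝ) : ℂ) := fun i =>
    Complex.continuous_ofReal.comp ((hwc i).div hSc fun x => (hS x).ne')
  refine ⟨s, fun i => ⟨fun x => ((w i x / S x : ℝ) : ℂ), hc i⟩, ?_, ?_, ?_⟩
  · intro x
    show ∑ i ∈ s, ‖((w i x / S x : ℝ) : ℂ)‖ = 1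
    have h1 : ∀ i ∈ s, ‖((w i x / S x : ℝ) : ℂ)‖ = w i x / S x := fun i _ => by
      rw [Complex.norm_real, Real.norm_eq_abs, abs_of_nonneg (div_nonneg (hw0 i x) (hS x).le)]
    rw [Finset.sum_congr rfl h1, ← Finset.sum_div]
    exact div_self (hS x).ne'
  · intro x
    show ∑ i ∈ s, ((w i x / S x : ℝ) : ℂ) = 1
    rw [← Complex.ofReal_sum, ← Finset.sum_div]
    have : (∑ i ∈ s, w i x) / S x = 1 := div_self (hS x).ne'
    rw [this, Complex.ofReal_one]
  · intro i x hne
    by_contra hcon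
    apply hne
    show ((w i x / S x : ℝ) : ℂ) = 0
    have h1 : w i x = 0 := max_eq_left (by linarith [not_lt.mp hcon])
    rw [h1, zero_div, Complex.ofReal_zero]

/-- the operator into the continuous functions is compact -/
private theorem ke3_comp {k : X → X → ℝ} (hk : Continuous fun q : X × X => k q.1 q.2)
    (B : Lp ℂ 2 μ →L[ℂ] C(X, ℂ)) (hB : ∀ f x, B f x = ∫ y, (k x y : ℂ) * f y ∂μ) :
    IsCompactOperator B := by
  have hkx : ∀ x, Continuous (k x) := fun x => hk.comp (Continuous.prodMk_right x)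
  have hcl := (isClosed_setOfPred_isCompactOperator (σ₁₂ := RingHom.id ℂ)
    (M₁ := Lp ℂ 2 μ) (M₂ := C(X, ℂ))).closure_eq
  have hmem : B ∈ closure {f : Lp ℂ 2 μ →L[ℂ] C(X, ℂ) | IsCompactOperator f} := by
    rw [Metric.mem_closure_iff]
    intro ε hε
    have huc : UniformContinuous fun q : X × X => k q.1 q.2 :=
      CompactSpace.uniformContinuous_of_continuous hk
    obtain ⟨δ, hδ, hd⟩ := Metric.uniformContinuous_iff.mp huc (ε / 2) (by positivity)
    obtain ⟨t, φ, hφ1, hφ2, hφ3⟩ := ke3_pou (X := X) hδ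
    let R : X → (Lp ℂ 2 μ →L[ℂ] C(X, ℂ)) := fun i =>
      (ContinuousLinearMap.toSpanSingleton ℂ (φ i)).comp ((ContinuousMap.evalCLM ℂ i).comp B)
    have hR : ∀ i f, R i f = (B f i) • φ i := fun i f => rfl
    refine ⟨∑ i ∈ t, R i, ?_, ?_⟩
    · show IsCompactOperator ((∑ i ∈ t, R i : Lp ℂ 2 μ →L[ℂ] C(X, ℂ)) : Lp ℂ 2 μ → C(X, ℂ))
      classical
      clear hφ1 hφ2
      induction t using Finset.induction_on with
      | empty =>
        rw [Finset.sum_empty]
        exact isCompactOperator_zero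
      | @insert a t ha ih =>
        rw [Finset.sum_insert ha]
        have h1 : IsCompactOperator (R a : Lp ℂ 2 μ → C(X, ℂ)) := by
          have h2 : IsCompactOperator
              (((ContinuousMap.evalCLM ℂ a).comp B : Lp ℂ 2 μ →L[ℂ] ℂ) : Lp ℂ 2 μ → ℂ) :=
            isCompactOperator_of_locallyCompactSpace_dom _
          exact h2.clm_comp (ContinuousLinearMap.toSpanSingleton ℂ (φ a))
        exact h1.add ih
    · rw [dist_eq_norm]
      have hb : ‖B - ∑ i ∈ t, R i‖ ≤ ε / 2 := by
        refine ContinuousLinearMap.opNorm_le_bound _ (by positivity) fun f => ?_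
        have h0 : 0 ≤ ε / 2 * ‖f‖ := by positivity
        rw [ContinuousMap.norm_le _ h0]
        intro x
        have e1 : (B - ∑ i ∈ t, R i) f x = ∑ i ∈ t, φ i x * (B f x - B f i) := by
          have e2 : (B - ∑ i ∈ t, R i) f x = B f x - ∑ i ∈ t, (B f i) * φ i x := by
            rw [sub_apply, sum_apply,
              ContinuousMap.sub_apply, ContinuousMap.sum_apply]
            rfl
          rw [e2]
          have e3 : B f x = ∑ i ∈ t, φ i x * B f x := by
            rw [← Finset.sum_mul, hφ2 x, one_mul]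
          rw [e3, ← Finset.sum_sub_distrib]
          refine Finset.sum_congr rfl fun i _ => ?_
          rw [← e3]
          ring
        rw [e1]
        calc ‖∑ i ∈ t, φ i x * (B f x - B f i)‖ ≤ ∑ i ∈ t, ‖φ i x * (B f x - B f i)‖ :=
              norm_sum_le _ _
          _ ≤ ∑ i ∈ t, ‖φ i x‖ * (ε / 2 * ‖f‖) := by
              refine Finset.sum_le_sum fun i _ => ?_
              rw [norm_mul]
              by_cases hz : φ i x = 0
              · rw [hz, norm_zero, zero_mul, zero_mul]
              · refine mul_le_mul_of_nonneg_left ?_ (norm_nonneg _)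
                rw [hB, hB, ← integral_sub (ke3_int μ f (k x) (hkx x)) (ke3_int μ f (k i) (hkx i))]
                have e4 : ∀ y, (k x y : ℂ) * f y - (k i y : ℂ) * f y
                    = ((k x y - k i y : ℝ) : ℂ) * f y := fun y => by
                  push_cast
                  ring
                rw [integral_congr_ae (Filter.Eventually.of_forall e4)]
                refine ke3_bd μ f (fun y => k x y - k i y) fun y => ?_
                have h5 : dist ((x, y) : X × X) (i, y) < δ := by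
                  rw [Prod.dist_eq, dist_self, max_eq_left dist_nonneg]
                  exact hφ3 i x hz
                have h6 := hd h5
                rw [Real.dist_eq] at h6
                exact h6.le
          _ = ε / 2 * ‖f‖ := by rw [← Finset.sum_mul, hφ1 x, one_mul]
      linarith
  rw [hcl] at hmem
  exact hmem

/-- **The operator of a continuous symmetric kernel** is compact and symmetric. Compactness: approximate `k` uniformly by finite
sums `∑ a_i(x) b_i(y)` (Stone-Weierstrass, or: finite partition of `X` into Borel sets `P_i` of small diameter, `a_i = 1_{P_i}`,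
`b_i(y) = k x_i y`), these give operators of finite rank, `isCompactOperator_of_tendsto`; or Arzela-Ascoli: the
unit ball of `L²` is mapped to a uniformly bounded equicontinuous family. -/
theorem kerOp {k : X → X → ℝ} (hk : Continuous fun q : X × X => k q.1 q.2)
    (hs : ∀ x y, k x y = k y x) : ∃ A : Lp ℂ 2 μ →L[ℂ] Lp ℂ 2 μ, IsCompactOperator A ∧
      (A : Lp ℂ 2 μ →ₗ[ℂ] Lp ℂ 2 μ).IsSymmetric ∧
      ∀ f : Lp ℂ 2 μ, (A f : X → ℂ) =ᵐ[μ] fun x => ∫ y, (k x y : ℂ) * f y ∂μ := by
  obtain ⟨B, hB⟩ := ke3_B μ hk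
  have hBc := ke3_comp μ hk B hB
  have hA : ∀ f : Lp ℂ 2 μ, (((ContinuousMap.toLp 2 μ ℂ).comp B) f : X → ℂ)
      =ᵐ[μ] fun x => ∫ y, (k x y : ℂ) * f y ∂μ := by
    intro f
    have h1 : (((ContinuousMap.toLp 2 μ ℂ).comp B) f : X → ℂ) =ᵐ[μ] (B f) :=
      ContinuousMap.coeFn_toLp (p := 2) μ (𝕜 := ℂ) (B f)
    filter_upwards [h1] with x hx
    rw [hx, hB]
  have hAc : IsCompactOperator (((ContinuousMap.toLp 2 μ ℂ).comp B : Lp ℂ 2 μ →L[ℂ] Lp ℂ 2 μ)
      : Lp ℂ 2 μ → Lp ℂ 2 μ) := by
    have h1 := hBc.clm_comp (ContinuousMap.toLp 2 μ ℂ : C(X, ℂ) →L[ℂ] Lp ℂ 2 μ)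
    exact h1
  refine ⟨(ContinuousMap.toLp 2 μ ℂ).comp B, hAc, ?_, hA⟩
  intro f g
  show inner ℂ (((ContinuousMap.toLp 2 μ ℂ).comp B) f) g
    = inner ℂ f (((ContinuousMap.toLp 2 μ ℂ).comp B) g)
  rw [L2.inner_def, L2.inner_def]
  obtain ⟨M, hM⟩ := isCompact_univ.exists_bound_of_continuousOn
    (f := fun q : X × X => k q.1 q.2) hk.continuousOn
  have hint : Integrable (fun q : X × X => (k q.1 q.2 : ℂ)
      * (g q.1 * (starRingEnd ℂ) (f q.2))) (μ.prod μ) := by
    refine Integrable.bdd_mul (c := M) ?_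
      (Complex.continuous_ofReal.comp hk).aestronglyMeasurable
      (Filter.Eventually.of_forall fun q => ?_)
    · have hc : Integrable (fun y => (starRingEnd ℂ) (f y)) μ :=
        Complex.conjCLE.toContinuousLinearMap.integrable_comp (ke3_L1 μ f).1
      exact Integrable.mul_prod (ke3_L1 μ g).1 hc
    · show ‖(k q.1 q.2 : ℂ)‖ ≤ M
      rw [Complex.norm_real]
      exact hM q (Set.mem_univ q)
  have hsw := integral_integral_swap (μ := μ) (ν := μ)
    (f := fun x y => (k x y : ℂ) * (g x * (starRingEnd ℂ) (f y))) hint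
  have e1 : ∫ x, inner ℂ ((((ContinuousMap.toLp 2 μ ℂ).comp B) f : X → ℂ) x) (g x) ∂μ
      = ∫ x, ∫ y, (k x y : ℂ) * (g x * (starRingEnd ℂ) (f y)) ∂μ ∂μ := by
    refine integral_congr_ae ?_
    filter_upwards [hA f] with x hx
    rw [hx, RCLike.inner_apply, ← integral_conj, ← integral_const_mul]
    refine integral_congr_ae (Filter.Eventually.of_forall fun y => ?_)
    show g x * (starRingEnd ℂ) ((k x y : ℂ) * f y) = (k x y : ℂ) * (g x * (starRingEnd ℂ) (f y))
    rw [map_mul, Complex.conj_ofReal]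
    ring
  have e2 : ∫ y, inner ℂ (f y) ((((ContinuousMap.toLp 2 μ ℂ).comp B) g : X → ℂ) y) ∂μ
      = ∫ y, ∫ x, (k x y : ℂ) * (g x * (starRingEnd ℂ) (f y)) ∂μ ∂μ := by
    refine integral_congr_ae ?_
    filter_upwards [hA g] with y hy
    rw [hy, RCLike.inner_apply, ← integral_mul_const]
    refine integral_congr_ae (Filter.Eventually.of_forall fun x => ?_)
    show (k y x : ℂ) * g x * (starRingEnd ℂ) (f y) = (k x y : ℂ) * (g x * (starRingEnd ℂ) (f y))
    rw [hs y x]
    ring
  rw [e1, e2, hsw]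
-- END ke3

variable {K : Type*} [Group K] [TopologicalSpace K] {T : X ≃ₜ X} {u : K} {p : X → K}

-- BEGIN ke4
/-- A joint eigenfunction `f` of the kernel (eigenvalue `t ≠ 0`) and of `T` is equal a.e. to the continuous function
`f' z = t⁻¹ ∫ k z y f y`, `f' (T z) = l f' z` for almost all and so for all `z`; by `he.eig` `f' x = f' x'`. -/
theorem eig_fib [μ.IsOpenPosMeasure] (he : Ext T u p) (hμ : MeasurePreserving T μ μ) {k : X → X → ℝ}
    (hk : Continuous fun q : X × X => k q.1 q.2) {f : X → ℂ} (hf : Integrable f μ) {t l : ℂ}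
    (ht : t ≠ 0) (h1 : ∀ᵐ z ∂μ, ∫ y, (k z y : ℂ) * f y ∂μ = t * f z)
    (h2 : ∀ᵐ z ∂μ, f (T z) = l * f z) {x x' : X} (hp : p x = p x') :
    ∫ y, (k x y : ℂ) * f y ∂μ = ∫ y, (k x' y : ℂ) * f y ∂μ := by
  have hc : Continuous fun z => t⁻¹ * ∫ y, (k z y : ℂ) * f y ∂μ :=
    continuous_const.mul (ker_cont μ hk hf)
  have hT : ∀ᵐ z ∂μ, ∫ y, (k (T z) y : ℂ) * f y ∂μ = t * f (T z) :=
    hμ.quasiMeasurePreserving.ae h1
  have hae : ∀ᵐ z ∂μ, (fun z => t⁻¹ * ∫ y, (k (T z) y : ℂ) * f y ∂μ) z
      = (fun z => l * (t⁻¹ * ∫ y, (k z y : ℂ) * f y ∂μ)) z := by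
    filter_upwards [h1, h2, hT] with z hz1 hz2 hz3
    show t⁻¹ * ∫ y, (k (T z) y : ℂ) * f y ∂μ = l * (t⁻¹ * ∫ y, (k z y : ℂ) * f y ∂μ)
    rw [hz1, hz3, hz2]
    ring
  have hcT : Continuous fun z => t⁻¹ * ∫ y, (k (T z) y : ℂ) * f y ∂μ := hc.comp T.continuous
  have heq : (fun z => t⁻¹ * ∫ y, (k (T z) y : ℂ) * f y ∂μ)
      = fun z => l * (t⁻¹ * ∫ y, (k z y : ℂ) * f y ∂μ) :=
    (Continuous.ae_eq_iff_eq μ hcT (continuous_const.mul hc)).mp hae
  have h3 := he.eig (fun z => t⁻¹ * ∫ y, (k z y : ℂ) * f y ∂μ) l hc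
    (fun z => congrFun heq z) x x' hp
  exact mul_left_cancel₀ (inv_ne_zero ht) h3
-- END ke4

-- BEGIN ke5
private lemma ke5_cont {X : Type*} [TopologicalSpace X] {k : X → X → ℝ}
    (hk : Continuous fun q : X × X => k q.1 q.2) (x x' : X) :
    Continuous fun y => k x y - k x' y :=
  (hk.comp (Continuous.prodMk_right x)).sub (hk.comp (Continuous.prodMk_right x'))

private lemma ke5_memLp {X : Type*} [TopologicalSpace X] [CompactSpace X] [MeasurableSpace X]
    [OpensMeasurableSpace X] (μ : Measure X) [IsFiniteMeasure μ] {w : X → ℝ} (hw : Continuous w) :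
    MemLp (fun y => (w y : ℂ)) 2 μ := by
  have h1 : Continuous fun y => (w y : ℂ) := Complex.continuous_ofReal.comp hw
  have h2 : BddAbove (Set.range fun y => ‖(w y : ℂ)‖) :=
    (isCompact_range h1.norm).bddAbove
  obtain ⟨C, hC⟩ := h2
  exact MemLp.of_bound (h1.measurable.aestronglyMeasurable) C
    (Filter.Eventually.of_forall fun y => hC ⟨y, rfl⟩)

private lemma ke5_comm {X : Type*} [MetricSpace X] [CompactSpace X] [MeasurableSpace X] [BorelSpace X]
    (μ : Measure X) [IsProbabilityMeasure μ] {T : X ≃ₜ X} (hμ : MeasurePreserving T μ μ)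
    {k : X → X → ℝ} (hi : ∀ x y, k (T x) (T y) = k x y) {A : Lp ℂ 2 μ →L[ℂ] Lp ℂ 2 μ}
    (hA : ∀ f : Lp ℂ 2 μ, (A f : X → ℂ) =ᵐ[μ] fun x => ∫ y, (k x y : ℂ) * f y ∂μ)
    (f : Lp ℂ 2 μ) :
    A (Lp.compMeasurePreservingₗᵢ ℂ T hμ f) = Lp.compMeasurePreservingₗᵢ ℂ T hμ (A f) := by
  apply Lp.ext
  have h1 := hA (Lp.compMeasurePreservingₗᵢ ℂ T hμ f)
  have h2 : (Lp.compMeasurePreservingₗᵢ ℂ T hμ f : X → ℂ) =ᵐ[μ] f ∘ T :=
    Lp.coeFn_compMeasurePreserving f hμ
  have h3 : (Lp.compMeasurePreservingₗᵢ ℂ T hμ (A f) : X → ℂ) =ᵐ[μ] (A f) ∘ T :=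
    Lp.coeFn_compMeasurePreserving (A f) hμ
  have h4 := hμ.quasiMeasurePreserving.ae_eq_comp (hA f)
  filter_upwards [h1, h3, h4] with x hx1 hx3 hx4
  rw [hx1, hx3, hx4]
  have h5 : ∫ y, (k x y : ℂ) * (Lp.compMeasurePreservingₗᵢ ℂ T hμ f) y ∂μ
      = ∫ y, (k (T x) (T y) : ℂ) * f (T y) ∂μ := by
    refine integral_congr_ae ?_
    filter_upwards [h2] with y hy
    rw [hy, hi]
    rfl
  rw [h5]
  exact hμ.integral_comp T.measurableEmbedding (fun y => (k (T x) y : ℂ) * f y)

/-- **Continuous symmetric invariant kernels are constant on the fibres.** Let `v y = k x y - k x' y`, `A` from `kerOp`, `U` the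
Koopman operator (`Lp.compMeasurePreservingₗᵢ`), `A U = U A` by invariance. `joint` with `eig_fib` gives `A v = 0`; so
`∫ k z y v y dμ = 0` for almost all, hence for all `z` (`ker_cont`); `z = x`, `z = x'` and subtract: `∫ v² = 0`,
so `v = 0` a.e., hence everywhere. -/
theorem ker_fib [μ.IsOpenPosMeasure] (he : Ext T u p) (hμ : MeasurePreserving T μ μ) {k : X → X → ℝ}
    (hk : Continuous fun q : X × X => k q.1 q.2) (hs : ∀ x y, k x y = k y x)
    (hi : ∀ x y, k (T x) (T y) = k x y) {x x' : X} (hp : p x = p x') (y : X) : k x y = k x' y := by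
  obtain ⟨A, hAc, hAs, hA⟩ := kerOp μ hk hs
  set w : X → ℝ := fun y => k x y - k x' y with hwdef
  have hw : Continuous w := ke5_cont hk x x'
  have hwL := ke5_memLp μ hw
  have hwI : Integrable (fun y => (w y : ℂ)) μ := hwL.integrable (by norm_num)
  have hki : ∀ (z : X) (f : Lp ℂ 2 μ), Integrable (fun y => (k z y : ℂ) * f y) μ := by
    intro z f
    have h1 : Continuous fun y => k z y := hk.comp (Continuous.prodMk_right z)
    exact (ke5_memLp μ h1).integrable_mul (Lp.memLp f)
  have hvA : A hwL.toLp = 0 := by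
    refine joint A hAc hAs (Lp.compMeasurePreservingₗᵢ ℂ T hμ) (ke5_comm μ hμ hi hA) _ ?_
    intro f t l ht hAf hUf
    have hfI : Integrable f μ := (Lp.memLp f).integrable (by norm_num)
    have h1 : ∀ᵐ z ∂μ, ∫ y, (k z y : ℂ) * f y ∂μ = t * f z := by
      have h2 := hA f
      rw [hAf] at h2
      filter_upwards [h2, Lp.coeFn_smul t f] with z hz1 hz2
      rw [← hz1, hz2]
      rfl
    have h2 : ∀ᵐ z ∂μ, f (T z) = l * f z := by
      have h3 : (Lp.compMeasurePreservingₗᵢ ℂ T hμ f : X → ℂ) =ᵐ[μ] f ∘ T :=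
        Lp.coeFn_compMeasurePreserving f hμ
      rw [hUf] at h3
      filter_upwards [h3, Lp.coeFn_smul l f] with z hz1 hz2
      have h4 : f (T z) = (f ∘ T) z := rfl
      rw [h4, ← hz1, hz2]
      rfl
    have h3 := eig_fib μ he hμ hk hfI ht h1 h2 hp
    have h4 : ∫ y, (w y : ℂ) * f y ∂μ = 0 := by
      have h5 : (fun y => (w y : ℂ) * f y)
          = fun y => (k x y : ℂ) * f y - (k x' y : ℂ) * f y := by
        funext y
        rw [hwdef]
        push_cast
        ring
      rw [h5, integral_sub (hki x f) (hki x' f), h3, sub_self]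
    rw [L2.inner_def]
    have h6 : ∫ a, inner ℂ (f a) (((hwL.toLp : Lp ℂ 2 μ) : X → ℂ) a) ∂μ
        = ∫ a, (starRingEnd ℂ) ((w a : ℂ) * f a) ∂μ := by
      refine integral_congr_ae ?_
      filter_upwards [hwL.coeFn_toLp] with a ha
      rw [ha, RCLike.inner_apply, map_mul, Complex.conj_ofReal]
    rw [h6, integral_conj, h4, map_zero]
  have h7 : (fun z => ∫ y, (k z y : ℂ) * (w y : ℂ) ∂μ) = fun _ => 0 := by
    refine (Continuous.ae_eq_iff_eq μ (ker_cont μ hk hwI) continuous_const).1 ?_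
    have h8 := hA hwL.toLp
    rw [hvA] at h8
    filter_upwards [h8, Lp.coeFn_zero ℂ 2 μ] with z hz1 hz2
    have h9 : ∫ y, (k z y : ℂ) * (w y : ℂ) ∂μ = ∫ y, (k z y : ℂ) * ((hwL.toLp : Lp ℂ 2 μ) : X → ℂ) y ∂μ := by
      refine integral_congr_ae ?_
      filter_upwards [hwL.coeFn_toLp] with y hy
      rw [hy]
    rw [h9, ← hz1, hz2]
    rfl
  have hint : ∀ z, Integrable (fun y => (k z y : ℂ) * (w y : ℂ)) μ := by
    intro z
    have h1 : Continuous fun y => k z y := hk.comp (Continuous.prodMk_right z)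
    exact (ke5_memLp μ h1).integrable_mul hwL
  have h10 : ∫ y, ((w y * w y : ℝ) : ℂ) ∂μ = 0 := by
    have h11 : (fun y => ((w y * w y : ℝ) : ℂ))
        = fun y => (k x y : ℂ) * (w y : ℂ) - (k x' y : ℂ) * (w y : ℂ) := by
      funext y
      push_cast
      rw [← sub_mul]
      congr 1
      rw [hwdef]
      push_cast
      ring
    rw [h11, integral_sub (hint x) (hint x'), congrFun h7 x, congrFun h7 x', sub_self]
  rw [integral_complex_ofReal] at h10
  have h12 : ∫ y, w y * w y ∂μ = 0 := by exact_mod_cast h10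
  have h13 : (fun y => w y * w y) =ᵐ[μ] 0 := by
    refine (integral_eq_zero_iff_of_nonneg (fun y => mul_self_nonneg _) ?_).1 h12
    have hb : BddAbove (Set.range fun y => ‖w y * w y‖) :=
      (isCompact_range (hw.mul hw).norm).bddAbove
    obtain ⟨C, hC⟩ := hb
    exact Integrable.of_bound ((hw.mul hw).measurable.aestronglyMeasurable) C
      (Filter.Eventually.of_forall fun y => hC ⟨y, rfl⟩)
  have h14 : (fun y => w y * w y) = 0 :=
    (Continuous.ae_eq_iff_eq μ (hw.mul hw) continuous_zero).1 h13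
  have h15 : w y = 0 := mul_self_eq_zero.1 (congrFun h14 y)
  exact sub_eq_zero.1 h15
-- END ke5

end Pool.Agent.S7A
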