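import Pool.Agent.S7A.Basic

/-! # MP_13664e_an, block A: the number of points in a fibre, labels -/

set_option autoImplicit false

namespace Pool.Agent.S7A

open MeasureTheory Filter Topology Pool.Agent.Sar

variable {X : Type*} [MetricSpace X] [CompactSpace X] [MeasurableSpace X] [BorelSpace X]
  {K : Type*} [CommGroup K] [TopologicalSpace K] [IsTopologicalGroup K] [CompactSpace K] [T2Space K]
  [SecondCountableTopology K] [MeasurableSpace K] [BorelSpace K]
  {T : X ≃ₜ X} {u : K} {p : X → K}

omit [MeasurableSpace X] [BorelSpace X] [CompactSpace K] [SecondCountableTopology K] [IsTopologicalGroup K]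
  [CommGroup K] in
-- BEGIN la1
/-- the image of the intersection of a closed and an open set is Borel (it is `σ`-compact: an open set in a metric
space is a countable union of closed sets, `IsOpen.exists_iUnion_isClosed`) -/
theorem image_meas (hp : Continuous p) {F O : Set X} (hF : IsClosed F) (hO : IsOpen O) :
    MeasurableSet (p '' (F ∩ O)) := by
  obtain ⟨G, hG, -, hU, -⟩ := hO.exists_iUnion_isClosed
  have h1 : p '' (F ∩ O) = ⋃ n, p '' (F ∩ G n) := by
    rw [← hU, Set.inter_iUnion, Set.image_iUnion]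
  rw [h1]
  exact MeasurableSet.iUnion fun n =>
    ((hF.inter (hG n)).isCompact.image hp).isClosed.measurableSet
-- END la1

omit [MeasurableSpace X] [BorelSpace X] [CompactSpace K] [SecondCountableTopology K] [IsTopologicalGroup K]
  [CommGroup K] in
-- BEGIN la2
/-- `{z | j ≤ #p⁻¹ z}` is the union over all `j`-tuples of pairwise disjoint members of a countable family of closed balls (a
countable dense set of centres, rational radii) of the intersections of their (closed) images -/
theorem fib_meas (hp : Continuous p) (j : ℕ) :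
    MeasurableSet {z : K | (j : ℕ∞) ≤ (p ⁻¹' {z}).encard} := by
  have h1 : {z : K | (j : ℕ∞) ≤ (p ⁻¹' {z}).encard} =
      ⋃ n : ℕ, {z : K | ∃ x : Fin j → X,
        (∀ i i', i ≠ i' → 1 / ((n : ℝ) + 1) ≤ dist (x i) (x i')) ∧ ∀ i, p (x i) = z} := by
    ext z
    simp only [Set.mem_ofPred_eq, Set.mem_iUnion]
    constructor
    · intro hz
      obtain ⟨t, hts, htc⟩ := Set.exists_subset_encard_eq hz
      have htf : t.Finite := Set.finite_of_encard_eq_coe htc
      have hcard : Nat.card t = j := by
        have h2 : (t.ncard : ℕ∞) = j := by rw [htf.cast_ncard_eq, htc]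
        rw [Nat.card_coe_set_eq]
        exact_mod_cast h2
      have : Finite t := htf
      let e : Fin j ≃ t := (finCongr hcard.symm).trans (Finite.equivFin t).symm
      have hinj : Function.Injective (fun i : Fin j => ((e i : t) : X)) :=
        Subtype.val_injective.comp e.injective
      have hev : ∀ᶠ n : ℕ in atTop, ∀ i i' : Fin j, i ≠ i' →
          1 / ((n : ℝ) + 1) ≤ dist ((e i : t) : X) ((e i' : t) : X) := by
        rw [Filter.eventually_all]
        intro i
        rw [Filter.eventually_all]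
        intro i'
        rcases eq_or_ne i i' with h | h
        · exact Filter.Eventually.of_forall fun n hne => absurd h hne
        · have hpos : 0 < dist ((e i : t) : X) ((e i' : t) : X) :=
            dist_pos.mpr fun he => h (hinj he)
          filter_upwards [(tendsto_one_div_add_atTop_nhds_zero_nat (𝕜 := ℝ)).eventually
            (gt_mem_nhds hpos)] with n hn _
          exact hn.le
      obtain ⟨n, hn⟩ := hev.exists
      exact ⟨n, fun i => ((e i : t) : X), hn, fun i => hts (e i).2⟩
    · rintro ⟨n, x, hx, hxz⟩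
      have hinj : Function.Injective x := by
        intro i i' he
        by_contra hne
        have h3 := hx i i' hne
        rw [he, dist_self] at h3
        have h4 : (0 : ℝ) < 1 / ((n : ℝ) + 1) := by positivity
        linarith
      have h5 : (Set.range x).encard ≤ (p ⁻¹' {z}).encard := by
        refine Set.encard_le_encard ?_
        rintro _ ⟨i, rfl⟩
        exact hxz i
      have h6 := hinj.encard_range.trans h5
      simpa using h6
  rw [h1]
  refine MeasurableSet.iUnion fun n => IsClosed.measurableSet ?_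
  have h2 : IsClosed {w : (Fin j → X) × K |
      (∀ i i', i ≠ i' → 1 / ((n : ℝ) + 1) ≤ dist (w.1 i) (w.1 i')) ∧ ∀ i, p (w.1 i) = w.2} := by
    have h3 : IsClosed {w : (Fin j → X) × K |
        ∀ i i', i ≠ i' → 1 / ((n : ℝ) + 1) ≤ dist (w.1 i) (w.1 i')} := by
      simp only [Set.ofPred_forall]
      refine isClosed_iInter fun i => isClosed_iInter fun i' => isClosed_iInter fun _ => ?_
      exact isClosed_le continuous_const
        (((continuous_apply i).comp continuous_fst).dist ((continuous_apply i').comp continuous_fst))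
    have h4 : IsClosed {w : (Fin j → X) × K | ∀ i, p (w.1 i) = w.2} := by
      simp only [Set.ofPred_forall]
      refine isClosed_iInter fun i => ?_
      exact isClosed_eq (hp.comp ((continuous_apply i).comp continuous_fst)) continuous_snd
    exact h3.inter h4
  have h3 := isClosedMap_snd_of_compactSpace _ h2
  have h4 : {z : K | ∃ x : Fin j → X,
        (∀ i i', i ≠ i' → 1 / ((n : ℝ) + 1) ≤ dist (x i) (x i')) ∧ ∀ i, p (x i) = z} =
      Prod.snd '' {w : (Fin j → X) × K |
        (∀ i i', i ≠ i' → 1 / ((n : ℝ) + 1) ≤ dist (w.1 i) (w.1 i')) ∧ ∀ i, p (w.1 i) = w.2} := by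
    ext z
    simp only [Set.mem_ofPred_eq, Set.mem_image, Prod.exists, exists_eq_right]
  rw [h4]
  exact h3
-- END la2

-- BEGIN la3
omit [MeasurableSpace X] [BorelSpace X] [IsTopologicalGroup K] [CompactSpace K] [T2Space K]
  [SecondCountableTopology K] [MeasurableSpace K] [BorelSpace K] [CompactSpace X] in
/-- `T` maps the fibre over `z` bijectively to the fibre over `u z` -/
theorem fib_card (he : ∀ x, p (T x) = u * p x) (z : K) :
    (p ⁻¹' {u * z}).encard = (p ⁻¹' {z}).encard := by
  have h1 : p ⁻¹' {u * z} = T '' (p ⁻¹' {z}) := by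
    ext x
    simp only [Set.mem_preimage, Set.mem_singleton_iff, Set.mem_image]
    constructor
    · intro hx
      refine ⟨T.symm x, ?_, T.apply_symm_apply x⟩
      have h2 := he (T.symm x)
      rw [T.apply_symm_apply, hx] at h2
      exact (mul_left_cancel h2).symm
    · rintro ⟨y, hy, rfl⟩
      rw [he, hy]
  rw [h1, T.injective.encard_image]

omit [MeasurableSpace X] [BorelSpace X] in
/-- **The number of points in a fibre is constant a.e.** (each set `{z | j ≤ #p⁻¹ z}` is measurable and invariant, so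
null or conull; the set for `j = R` is null, the one for `j = 1` is everything) -/
theorem exists_r (hp : Continuous p) (hs : Function.Surjective p) (he : ∀ x, p (T x) = u * p x) (h : Measure K)
    [IsProbabilityMeasure h] (hE : Ergodic (fun z => u * z) h) {R : ℕ}
    (hR : h {z | (R : ℕ∞) ≤ (p ⁻¹' {z}).encard} = 0) :
    ∃ r : ℕ, 1 ≤ r ∧ ∀ᵐ z ∂h, (p ⁻¹' {z}).encard = r := by
  classical
  have hex : ∃ j : ℕ, h {z | (j : ℕ∞) ≤ (p ⁻¹' {z}).encard} = 0 := ⟨R, hR⟩
  obtain ⟨j, hj, hmin⟩ : ∃ j : ℕ, h {z | (j : ℕ∞) ≤ (p ⁻¹' {z}).encard} = 0 ∧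
      ∀ i < j, h {z | (i : ℕ∞) ≤ (p ⁻¹' {z}).encard} ≠ 0 :=
    ⟨Nat.find hex, Nat.find_spec hex, fun i hi => Nat.find_min hex hi⟩
  have h1 : {z : K | ((1 : ℕ) : ℕ∞) ≤ (p ⁻¹' {z}).encard} = Set.univ := by
    refine Set.eq_univ_of_forall fun z => ?_
    obtain ⟨x, hx⟩ := hs z
    have : (p ⁻¹' {z}).Nonempty := ⟨x, hx⟩
    simpa [Set.one_le_encard_iff_nonempty] using this
  have h0 : {z : K | ((0 : ℕ) : ℕ∞) ≤ (p ⁻¹' {z}).encard} = Set.univ :=
    Set.eq_univ_of_forall fun z => by simp
  have hj2 : 2 ≤ j := by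
    by_contra hlt
    have h3 : j = 0 ∨ j = 1 := by omega
    rcases h3 with rfl | rfl
    · rw [h0, measure_univ] at hj
      exact one_ne_zero hj
    · rw [h1, measure_univ] at hj
      exact one_ne_zero hj
  refine ⟨j - 1, by omega, ?_⟩
  have hc : h ({z : K | ((j - 1 : ℕ) : ℕ∞) ≤ (p ⁻¹' {z}).encard}ᶜ) = 0 := by
    have hinv : (fun z => u * z) ⁻¹' {z : K | ((j - 1 : ℕ) : ℕ∞) ≤ (p ⁻¹' {z}).encard}
        = {z : K | ((j - 1 : ℕ) : ℕ∞) ≤ (p ⁻¹' {z}).encard} := by
      ext z
      simp only [Set.mem_preimage, Set.mem_ofPred_eq]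
      rw [fib_card he z]
    rcases hE.toPreErgodic.measure_self_or_compl_eq_zero (fib_meas hp (j - 1)) hinv with h2 | h2
    · exact absurd h2 (hmin (j - 1) (by omega))
    · exact h2
  have ha : ∀ᵐ z ∂h, ((j - 1 : ℕ) : ℕ∞) ≤ (p ⁻¹' {z}).encard := by
    rw [ae_iff]
    exact hc
  have hb : ∀ᵐ z ∂h, ¬ ((j : ℕ) : ℕ∞) ≤ (p ⁻¹' {z}).encard := by
    rw [ae_iff]
    simpa using hj
  filter_upwards [ha, hb] with z hz1 hz2
  refine le_antisymm ?_ hz1
  by_contra hlt
  apply hz2
  have h4 : ((j - 1 : ℕ) : ℕ∞) < (p ⁻¹' {z}).encard := not_le.mp hlt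
  have h5 : ((j - 1 : ℕ) : ℕ∞) + 1 ≤ (p ⁻¹' {z}).encard := Order.add_one_le_of_lt h4
  have h6 : ((j : ℕ) : ℕ∞) = ((j - 1 : ℕ) : ℕ∞) + 1 := by
    have : j = (j - 1) + 1 := by omega
    conv_lhs => rw [this]
    push_cast
    rfl
  rw [h6]
  exact h5
-- END la3

/-- the cell of `x` with respect to the first `n` sets -/
def cell (D : ℕ → Set X) (n : ℕ) (w : Fin n → Prop) : Set X := {x | ∀ i : Fin n, (x ∈ D i ↔ w i)}

-- BEGIN la4
omit [MeasurableSpace X] [BorelSpace X] in
/-- there is a sequence of closed sets which separates the points: closed balls with centres in a countable dense set and rational radii -/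
theorem exists_sep [Nonempty X] : ∃ D : ℕ → Set X, (∀ n, IsClosed (D n)) ∧
    ∀ x y : X, (∀ n, x ∈ D n ↔ y ∈ D n) → x = y := by
  refine ⟨fun k => Metric.closedBall (TopologicalSpace.denseSeq X k.unpair.1)
    (1 / ((k.unpair.2 : ℝ) + 1)), fun n => Metric.isClosed_closedBall, ?_⟩
  intro x y h
  by_contra hne
  have hd : 0 < dist x y := dist_pos.2 hne
  obtain ⟨m, hm⟩ := exists_nat_one_div_lt (half_pos hd)
  have hpos : (0 : ℝ) < 1 / ((m : ℝ) + 1) := Nat.one_div_pos_of_nat
  obtain ⟨n, hn⟩ := (TopologicalSpace.denseRange_denseSeq X).exists_dist_lt x hpos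
  have h1 := (h (Nat.pair n m)).1
  simp only [Nat.unpair_pair, Metric.mem_closedBall] at h1
  have h2 := h1 hn.le
  have h3 := dist_triangle_right x y (TopologicalSpace.denseSeq X n)
  linarith

omit [MeasurableSpace X] [BorelSpace X] [CompactSpace K] [SecondCountableTopology K] [IsTopologicalGroup K]
  [CommGroup K] in
/-- the images of the cells are Borel: a cell is the intersection of a closed and an open set -/
theorem cell_meas (hp : Continuous p) {D : ℕ → Set X} (hD : ∀ n, IsClosed (D n)) (n : ℕ)
    (w : Fin n → Prop) : MeasurableSet (p '' cell D n w) := by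
  have h : cell D n w = (⋂ i : {i : Fin n // w i}, D (i : Fin n)) ∩
      (⋂ i : {i : Fin n // ¬ w i}, (D (i : Fin n))ᶜ) := by
    ext x
    simp only [cell, Set.mem_ofPred_eq, Set.mem_inter_iff, Set.mem_iInter, Set.mem_compl_iff,
      Subtype.forall]
    constructor
    · intro h
      exact ⟨fun i hi => (h i).2 hi, fun i hi hx => hi ((h i).1 hx)⟩
    · rintro ⟨h1, h2⟩ i
      exact ⟨fun hx => by_contra fun hi => h2 i hi hx, fun hi => h1 i hi⟩
  rw [h]
  exact image_meas hp (isClosed_iInter fun i => hD _)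
    (isOpen_iInter_of_finite fun i => (hD _).isOpen_compl)
-- END la4

-- BEGIN la5
/-- the pattern of a point -/
private def la5W {X : Type*} (D : ℕ → Set X) (n : ℕ) (x : X) : Fin n → Prop := fun i => x ∈ D i

private theorem la5_mem {X : Type*} (D : ℕ → Set X) (n : ℕ) (x : X) (w : Fin n → Prop) :
    x ∈ cell D n w ↔ la5W D n x = w := by
  constructor
  · intro h
    funext i
    exact propext (h i)
  · rintro rfl i
    exact Iff.rfl

private theorem la5_mem' {X K : Type*} (p : X → K) (D : ℕ → Set X) (n : ℕ) (z : K) (w : Fin n → Prop) :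
    z ∈ p '' cell D n w ↔ w ∈ la5W D n '' (p ⁻¹' {z}) := by
  constructor
  · rintro ⟨x, hx, rfl⟩
    exact ⟨x, rfl, (la5_mem D n x w).1 hx⟩
  · rintro ⟨x, hx, hw⟩
    exact ⟨x, (la5_mem D n x w).2 hw, hx⟩

open Classical in
/-- the number of cells which meet the fibre -/
private noncomputable def la5c {X K : Type*} (p : X → K) (D : ℕ → Set X) (n : ℕ) (z : K) : ℕ :=
  (Finset.univ.filter (fun w : Fin n → Prop => z ∈ p '' cell D n w)).card

private theorem la5_c {X K : Type*} (p : X → K) (D : ℕ → Set X) (n : ℕ) (z : K) :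
    (la5c p D n z : ℕ∞) = (la5W D n '' (p ⁻¹' {z})).encard := by
  classical
  have h : (la5W D n '' (p ⁻¹' {z})) =
      ((Finset.univ.filter (fun w : Fin n → Prop => z ∈ p '' cell D n w) : Finset _) : Set _) := by
    ext w
    rw [Finset.coe_filter, Set.mem_ofPred_eq, la5_mem']
    simp
  rw [h, Set.encard_coe_eq_coe_finsetCard, la5c]

/-- separation: for large `n` the pattern is injective on a finite set -/
private theorem la5_inj {X : Type*} {D : ℕ → Set X}
    (hs : ∀ x y : X, (∀ n, x ∈ D n ↔ y ∈ D n) → x = y) {F : Set X} (hF : F.Finite) :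
    ∃ n, Set.InjOn (la5W D n) F := by
  classical
  have h1 : ∀ q : X × X, ∃ m : ℕ, q.1 ≠ q.2 → ¬ (q.1 ∈ D m ↔ q.2 ∈ D m) := by
    intro q
    by_cases h : q.1 = q.2
    · exact ⟨0, fun h' => absurd h h'⟩
    · have : ¬ ∀ n, (q.1 ∈ D n ↔ q.2 ∈ D n) := fun h' => h (hs _ _ h')
      push Not at this
      obtain ⟨m, hm⟩ := this
      exact ⟨m, fun _ h' => by tauto⟩
  choose m hm using h1
  obtain ⟨n, hn⟩ := ((hF.prod hF).image m).bddAbove
  refine ⟨n + 1, fun x hx y hy hxy => ?_⟩
  by_contra hne
  have h2 : m (x, y) < n + 1 := Nat.lt_succ_of_le (hn ⟨(x, y), ⟨hx, hy⟩, rfl⟩)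
  have h3 := congrFun hxy ⟨m (x, y), h2⟩
  exact hm (x, y) hne (iff_of_eq h3)

open Classical in
/-- the rank of a point in its fibre -/
private noncomputable def la5r {X K : Type*} (p : X → K) (D : ℕ → Set X) (n : ℕ) (x : X) : ℕ :=
  (Finset.univ.filter (fun w : Fin n → Prop =>
    Fintype.equivFin _ w < Fintype.equivFin _ (la5W D n x) ∧ p x ∈ p '' cell D n w)).card

private theorem la5_lt {X K : Type*} (p : X → K) (D : ℕ → Set X) (n : ℕ) (x y : X) (hp : p x = p y)
    (h : Fintype.equivFin _ (la5W D n x) < Fintype.equivFin _ (la5W D n y)) :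
    la5r p D n x < la5r p D n y := by
  classical
  refine Finset.card_lt_card ?_
  rw [Finset.ssubset_iff_of_subset]
  · refine ⟨la5W D n x, ?_, ?_⟩
    · rw [Finset.mem_filter]
      exact ⟨Finset.mem_univ _, h, ⟨x, (la5_mem D n x _).2 rfl, hp⟩⟩
    · rw [Finset.mem_filter]
      rintro ⟨-, h1, -⟩
      exact lt_irrefl _ h1
  · intro w hw
    rw [Finset.mem_filter] at hw ⊢
    exact ⟨hw.1, hw.2.1.trans h, hp ▸ hw.2.2⟩

private theorem la5_lt' {X K : Type*} (p : X → K) (D : ℕ → Set X) (n : ℕ) (x : X) :
    la5r p D n x < la5c p D n (p x) := by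
  classical
  refine Finset.card_lt_card ?_
  rw [Finset.ssubset_iff_of_subset]
  · refine ⟨la5W D n x, ?_, ?_⟩
    · rw [Finset.mem_filter]
      exact ⟨Finset.mem_univ _, ⟨x, (la5_mem D n x _).2 rfl, rfl⟩⟩
    · rw [Finset.mem_filter]
      rintro ⟨-, h1, -⟩
      exact lt_irrefl _ h1
  · intro w hw
    rw [Finset.mem_filter] at hw ⊢
    exact ⟨hw.1, hw.2.2⟩

/-- **Labels.** `D` from `exists_sep`. For `z` let `c n z` be the number of `w : Fin n → Prop` with `z ∈ p '' cell D n w` (there are `2^n`
patterns `w`; measurable in `z` by `cell_meas`), and `N z` the least `n` with `c n z = r` (if there is one, else `0`); it exists if the fibre has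
exactly `r` points, and then each of these cells contains exactly one point of the fibre. Let `lab x` be the number of `w'`
which come before the cell of `x` in a fixed enumeration of `Fin n → Prop`, `n = N (p x)`, with `p x ∈ p '' cell D n w'`
(and `0` if this number is not less than `r`). -/
theorem exists_lab [Nonempty X] (hp : Continuous p) {r : ℕ} (hr : 1 ≤ r) :
    ∃ lab : X → Fin r, Measurable lab ∧ ∀ z, (p ⁻¹' {z}).encard = r → Set.InjOn lab (p ⁻¹' {z}) := by
  classical
  obtain ⟨D, hD, hs⟩ := exists_sep (X := X)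
  have hpm : Measurable p := hp.measurable
  -- measurability of the count
  have hcm : ∀ n, Measurable (la5c p D n) := by
    intro n
    have h : la5c p D n = fun z => ∑ w : Fin n → Prop, if z ∈ p '' cell D n w then 1 else 0 := by
      funext z
      rw [la5c, Finset.card_filter]
    rw [h]
    exact Finset.measurable_sum _ fun w _ =>
      Measurable.ite (cell_meas hp hD n w) measurable_const measurable_const
  -- measurability of the pattern
  have hWm : ∀ n (S : Set (Fin n → Prop)), MeasurableSet {x | la5W D n x ∈ S} := by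
    intro n S
    have h : {x | la5W D n x ∈ S} = ⋃ w ∈ S, ⋂ i : Fin n, {x | x ∈ D i ↔ w i} := by
      ext x
      simp only [Set.mem_ofPred_eq, Set.mem_iUnion, Set.mem_iInter]
      constructor
      · intro hx
        exact ⟨_, hx, fun i => Iff.rfl⟩
      · rintro ⟨w, hw, h2⟩
        rwa [(la5_mem D n x w).1 h2]
    rw [h]
    refine MeasurableSet.biUnion (Set.to_countable S) fun w _ => MeasurableSet.iInter fun i => ?_
    by_cases hi : w i
    · have : {x | x ∈ D i ↔ w i} = D i := by
        ext x
        simp [hi]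
      rw [this]
      exact (hD i).measurableSet
    · have : {x | x ∈ D i ↔ w i} = (D i)ᶜ := by
        ext x
        simp [hi]
      rw [this]
      exact (hD i).measurableSet.compl
  -- measurability of the rank
  have hrm : ∀ n, Measurable (la5r p D n) := by
    intro n
    have h : la5r p D n = fun x => ∑ w : Fin n → Prop,
        if Fintype.equivFin _ w < Fintype.equivFin _ (la5W D n x) ∧ p x ∈ p '' cell D n w then 1 else 0 := by
      funext x
      rw [la5r, Finset.card_filter]
    rw [h]
    refine Finset.measurable_sum _ fun w _ => Measurable.ite ?_ measurable_const measurable_const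
    exact (hWm n {w' | Fintype.equivFin _ w < Fintype.equivFin _ w'}).inter
      (hpm (cell_meas hp hD n w))
  -- the level
  have hex : ∀ z : K, ∃ n, la5c p D n z = r ∨ ¬ ∃ m, la5c p D m z = r := by
    intro z
    by_cases h : ∃ m, la5c p D m z = r
    · obtain ⟨m, hm⟩ := h
      exact ⟨m, Or.inl hm⟩
    · exact ⟨0, Or.inr h⟩
  have hA : ∀ m, MeasurableSet {z | la5c p D m z = r} := fun m => hcm m (measurableSet_singleton r)
  have hNm : Measurable fun z => Nat.find (hex z) := by
    refine measurable_find hex fun k => ?_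
    have h2 : {z | ¬ ∃ m, la5c p D m z = r} = (⋃ m, {z | la5c p D m z = r})ᶜ := by
      ext z
      simp
    have h3 : MeasurableSet {z | ¬ ∃ m, la5c p D m z = r} := by
      rw [h2]
      exact (MeasurableSet.iUnion hA).compl
    exact (hA k).union h3
  -- the label
  let g : ℕ → Fin r := fun k => if h : k < r then ⟨k, h⟩ else ⟨0, hr⟩
  have hfm : Measurable (fun q : ℕ × X => la5r p D q.1 q.2) :=
    measurable_from_prod_countable_right fun n => hrm n
  refine ⟨fun x => g (la5r p D (Nat.find (hex (p x))) x), ?_, ?_⟩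
  · exact (measurable_of_countable g).comp (hfm.comp ((hNm.comp hpm).prodMk measurable_id))
  · intro z hz
    have hfin : (p ⁻¹' {z}).Finite := Set.finite_of_encard_eq_coe hz
    obtain ⟨n, hn⟩ := la5_inj hs hfin
    have hc : la5c p D n z = r := by
      have h := la5_c p D n z
      rw [hn.encard_image, hz] at h
      exact_mod_cast h
    have hN : la5c p D (Nat.find (hex z)) z = r := by
      rcases Nat.find_spec (hex z) with h | h
      · exact h
      · exact absurd ⟨n, hc⟩ h
    have hinj : Set.InjOn (la5W D (Nat.find (hex z))) (p ⁻¹' {z}) := by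
      refine hfin.injOn_of_encard_image_eq ?_
      rw [← la5_c, hN, hz]
    intro x hx y hy hxy
    have hx' : p x = z := hx
    have hy' : p y = z := hy
    have hxr : la5r p D (Nat.find (hex z)) x < r := by
      have := la5_lt' p D (Nat.find (hex z)) x
      rwa [hx', hN] at this
    have hyr : la5r p D (Nat.find (hex z)) y < r := by
      have := la5_lt' p D (Nat.find (hex z)) y
      rwa [hy', hN] at this
    have h3 : g (la5r p D (Nat.find (hex z)) x) = g (la5r p D (Nat.find (hex z)) y) := by
      have h4 : g (la5r p D (Nat.find (hex (p x))) x) = g (la5r p D (Nat.find (hex (p y))) y) := hxy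
      rwa [hx', hy'] at h4
    have h5 : la5r p D (Nat.find (hex z)) x = la5r p D (Nat.find (hex z)) y := by
      simp only [g, hxr, hyr, dif_pos] at h3
      exact congrArg Fin.val h3
    apply hinj hx hy
    by_contra hne
    rcases lt_or_gt_of_ne (fun h => hne ((Fintype.equivFin _).injective h)) with h | h
    · exact absurd h5 (la5_lt p D _ x y (hx'.trans hy'.symm) h).ne
    · exact absurd h5 (la5_lt p D _ y x (hy'.trans hx'.symm) h).ne'
-- END la5

-- BEGIN la6
/-- **The inverse.** `K' = {z | #p⁻¹ z = r}` is Borel (`fib_meas`). `(p, lab)` is an injective measurable map on the standard Borel space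
`p⁻¹ K'` (a measurable subset of `X`), so a measurable embedding (`Measurable.measurableEmbedding`, Lusin-Souslin); its range is
`K' × Fin r`. Let `xi` be its inverse there and constant elsewhere. -/
theorem exists_xi [Nonempty X] (hp : Continuous p) {r : ℕ} (hr : 1 ≤ r) {lab : X → Fin r} (hl : Measurable lab)
    (hi : ∀ z, (p ⁻¹' {z}).encard = r → Set.InjOn lab (p ⁻¹' {z})) :
    ∃ ξ : K × Fin r → X, Measurable ξ ∧ ∀ z, (p ⁻¹' {z}).encard = r →
      (∀ j, p (ξ (z, j)) = z ∧ lab (ξ (z, j)) = j) ∧ ∀ x, p x = z → ξ (z, lab x) = x := by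
  obtain ⟨K', hK'⟩ : ∃ K' : Set K, K' = {z : K | (p ⁻¹' {z}).encard = r} := ⟨_, rfl⟩
  have hmem : ∀ z, z ∈ K' ↔ (p ⁻¹' {z}).encard = r := fun z => by rw [hK']; exact Iff.rfl
  have hKm : MeasurableSet K' := by
    have h1 : K' = {z | (r : ℕ∞) ≤ (p ⁻¹' {z}).encard} \
        {z | ((r + 1 : ℕ) : ℕ∞) ≤ (p ⁻¹' {z}).encard} := by
      ext z
      rw [hmem, Set.mem_sdiff, Set.mem_ofPred_eq, Set.mem_ofPred_eq, not_le]
      constructor
      · intro hz
        rw [hz]
        exact ⟨le_rfl, by exact_mod_cast Nat.lt_succ_self r⟩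
      · rintro ⟨h2, h3⟩
        refine le_antisymm ?_ h2
        have h4 : ((r + 1 : ℕ) : ℕ∞) = (r : ℕ∞) + 1 := by push_cast; rfl
        rw [h4] at h3
        exact Order.lt_add_one_iff_of_not_isMax (by simp) |>.1 h3
    rw [h1]
    exact (fib_meas hp r).diff (fib_meas hp (r + 1))
  have hSm : MeasurableSet (p ⁻¹' K') := hp.measurable hKm
  have : StandardBorelSpace (p ⁻¹' K') := hSm.standardBorel
  let f : (p ⁻¹' K') → K × Fin r := fun s => (p s.1, lab s.1)
  have hf : Measurable f :=
    (hp.measurable.comp measurable_subtype_coe).prodMk (hl.comp measurable_subtype_coe)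
  have hfi : Function.Injective f := by
    intro s t hst
    have h1 : p s.1 = p t.1 := congrArg Prod.fst hst
    have h2 : lab s.1 = lab t.1 := congrArg Prod.snd hst
    have h3 : (p ⁻¹' {p t.1}).encard = r := (hmem _).1 t.2
    exact Subtype.ext (hi _ h3 (by simpa using h1) (by simp) h2)
  have hfe : MeasurableEmbedding f := hf.measurableEmbedding hfi
  obtain ⟨ξ, hξ, hξf⟩ := hfe.exists_measurable_extend (measurable_subtype_coe : Measurable
    (Subtype.val : (p ⁻¹' K') → X)) (fun _ => inferInstance)
  have hx : ∀ z, (p ⁻¹' {z}).encard = r → ∀ x, p x = z → ξ (z, lab x) = x := by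
    intro z hz x hxz
    have h1 : x ∈ p ⁻¹' K' := by
      rw [Set.mem_preimage, hxz]
      exact (hmem z).2 hz
    have h2 := congrFun hξf ⟨x, h1⟩
    simp only [Function.comp, f] at h2
    rw [hxz] at h2
    exact h2
  refine ⟨ξ, hξ, fun z hz => ⟨fun j => ?_, hx z hz⟩⟩
  have h1 : lab '' (p ⁻¹' {z}) = Set.univ := by
    have h2 : (lab '' (p ⁻¹' {z})).encard = r := by
      rw [(hi z hz).encard_image, hz]
    refine (Set.toFinite (lab '' (p ⁻¹' {z}))).eq_of_subset_of_encard_le
      (Set.subset_univ _) ?_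
    rw [h2, Set.encard_univ, ENat.card_eq_coe_fintype_card, Fintype.card_fin]
  obtain ⟨x, hxz, hxj⟩ : j ∈ lab '' (p ⁻¹' {z}) := by rw [h1]; trivial
  have h3 := hx z hz x hxz
  rw [hxj] at h3
  rw [h3]
  exact ⟨hxz, hxj⟩
-- END la6

end Pool.Agent.S7A
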