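import Pool.Agent.S7A.Ker

/-! # MP_13664e_an, block A: the argument of McMahon -/

set_option autoImplicit false

namespace Pool.Agent.S7A

open MeasureTheory Filter Topology Pool.Agent.Sar

variable {X : Type*} [MetricSpace X] [CompactSpace X] [MeasurableSpace X] [BorelSpace X]
  {K : Type*} [Group K] [TopologicalSpace K] {T : X ≃ₜ X} {u : K} {p : X → K}
  {Y : Type*} [MeasurableSpace Y] {ρ : Measure Y} [IsProbabilityMeasure ρ] {R : ℤ → Y → Y}
  {A : Set Y} {B : Set X}

-- BEGIN mc1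
omit [CompactSpace X] [MeasurableSpace X] [BorelSpace X] [IsProbabilityMeasure ρ] in
theorem SS_meas (hR : Act ρ R) (hA : MeasurableSet A) (L : ℤ) (v : X) :
    MeasurableSet (SS T R A B L v) := by
  unfold SS
  exact MeasurableSet.biUnion (Set.to_countable _) fun s _ => (hR.mp (-s)).measurable hA

omit [CompactSpace X] [MeasurableSpace X] [BorelSpace X] [IsProbabilityMeasure ρ] in
private theorem mc1_zpow (T : X ≃ₜ X) (s : ℤ) (v : X) : (T ^ (-(s + 1))) (T v) = (T ^ (-s)) v := by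
  have h : T ^ (-s) = T ^ (-(s + 1)) * T := by
    rw [← zpow_add_one]
    congr 1
    ring
  rw [h]
  rfl

omit [CompactSpace X] [MeasurableSpace X] [BorelSpace X] [IsProbabilityMeasure ρ] in
theorem SS_shift (hR : Act ρ R) (L : ℤ) (v : X) :
    SS T R A B (L + 1) (T v) = (R (-1)) ⁻¹' SS T R A B L v := by
  ext y
  unfold SS
  simp only [Set.mem_iUnion, Set.mem_ofPred_eq, Set.mem_preimage, exists_prop]
  constructor
  · rintro ⟨s, ⟨h1, h2⟩, h3⟩
    refine ⟨s - 1, ⟨by omega, ?_⟩, ?_⟩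
    · have := mc1_zpow T (s - 1) v
      rw [sub_add_cancel] at this
      rw [← this]
      exact h2
    · have := hR.add (-(s - 1)) (-1) y
      rw [← this]
      have h4 : -(s - 1) + -1 = -s := by ring
      rw [h4]
      exact h3
  · rintro ⟨s, ⟨h1, h2⟩, h3⟩
    refine ⟨s + 1, ⟨by omega, ?_⟩, ?_⟩
    · rw [mc1_zpow T s v]
      exact h2
    · have := hR.add (-s) (-1) y
      have h4 : -s + -1 = -(s + 1) := by ring
      rw [h4] at this
      rw [this]
      exact h3

omit [CompactSpace X] [MeasurableSpace X] [BorelSpace X] [MeasurableSpace Y] in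
theorem SS_anti {L L' : ℤ} (h : L ≤ L') (v : X) : SS T R A B L' v ⊆ SS T R A B L v := by
  intro y hy
  unfold SS at hy ⊢
  simp only [Set.mem_iUnion, Set.mem_ofPred_eq, Set.mem_preimage, exists_prop] at hy ⊢
  obtain ⟨s, ⟨h1, h2⟩, h3⟩ := hy
  exact ⟨s, ⟨lt_of_le_of_lt h h1, h2⟩, h3⟩

omit [CompactSpace X] [MeasurableSpace X] [BorelSpace X] [IsProbabilityMeasure ρ] in
theorem SS_self (hR : Act ρ R) {v : X} (hv : v ∈ B) : A ⊆ SS T R A B (-1) v := by
  intro y hy
  unfold SS
  simp only [Set.mem_iUnion, Set.mem_ofPred_eq, Set.mem_preimage, exists_prop]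
  refine ⟨0, ⟨by norm_num, ?_⟩, ?_⟩
  · rw [neg_zero, zpow_zero]
    exact hv
  · rw [neg_zero, hR.zero]
    exact hy
-- END mc1

-- BEGIN mc2
omit [CompactSpace X] [MeasurableSpace X] [BorelSpace X] in
/-- finitely many `s` exhaust the union up to `ε`, and `(T ^ (-s)) v ∈ B` is an open condition on `v` -/
theorem SS_lsc (hR : Act ρ R) (hA : MeasurableSet A) (hB : IsOpen B) (L : ℤ) (v : X) {ε : ℝ}
    (hε : 0 < ε) : ∀ᶠ v' in 𝓝 v, ρ.real (SS T R A B L v \ SS T R A B L v') < ε := by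
  classical
  set G : ℕ → Set Y := fun n => ⋃ s ∈ {s : ℤ | L < s ∧ (T ^ (-s)) v ∈ B ∧ |s| ≤ n}, (R (-s)) ⁻¹' A with hG
  have hGm : ∀ n, MeasurableSet (G n) := fun n =>
    MeasurableSet.biUnion (Set.to_countable _) fun s _ => (hR.mp (-s)).measurable hA
  have hSm : MeasurableSet (SS T R A B L v) := SS_meas hR hA L v
  have hanti : Antitone fun n => SS T R A B L v \ G n := by
    intro m n hmn y hy
    refine ⟨hy.1, fun h => hy.2 ?_⟩
    simp only [hG, Set.mem_iUnion, Set.mem_ofPred_eq, Set.mem_preimage, exists_prop] at h ⊢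
    obtain ⟨s, ⟨h1, h2, h3⟩, h4⟩ := h
    refine ⟨s, ⟨h1, h2, le_trans h3 ?_⟩, h4⟩
    exact_mod_cast hmn
  have hint : ⋂ n, (SS T R A B L v \ G n) = ∅ := by
    apply Set.eq_empty_of_forall_notMem
    intro y hy
    rw [Set.mem_iInter] at hy
    have h1 := (hy 0).1
    unfold SS at h1
    simp only [Set.mem_iUnion, Set.mem_ofPred_eq, Set.mem_preimage, exists_prop] at h1
    obtain ⟨s, ⟨h2, h3⟩, h4⟩ := h1
    apply (hy s.natAbs).2
    simp only [hG, Set.mem_iUnion, Set.mem_ofPred_eq, Set.mem_preimage, exists_prop]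
    refine ⟨s, ⟨h2, h3, ?_⟩, h4⟩
    rw [Int.natCast_natAbs]
  have htend := tendsto_measure_iInter_atTop (μ := ρ) (s := fun n => SS T R A B L v \ G n)
    (fun n => (hSm.diff (hGm n)).nullMeasurableSet) hanti ⟨0, measure_ne_top _ _⟩
  rw [hint, measure_empty] at htend
  have hev : ∀ᶠ n : ℕ in atTop, ρ (SS T R A B L v \ G n) < ENNReal.ofReal ε :=
    htend.eventually (gt_mem_nhds (ENNReal.ofReal_pos.mpr hε))
  obtain ⟨n, hn⟩ := hev.exists
  have hfin : ∀ᶠ v' in 𝓝 v, ∀ s ∈ Finset.Icc (-(n : ℤ)) (n : ℤ), (T ^ (-s)) v ∈ B → (T ^ (-s)) v' ∈ B := by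
    rw [Filter.eventually_all_finset]
    intro s _
    by_cases h : (T ^ (-s)) v ∈ B
    · have h2 : (T ^ (-s)) ⁻¹' B ∈ 𝓝 v := (hB.preimage (T ^ (-s)).continuous).mem_nhds h
      filter_upwards [h2] with v' hv' _
      exact hv'
    · exact Filter.Eventually.of_forall fun v' h' => absurd h' h
  filter_upwards [hfin] with v' hv'
  have hsub : SS T R A B L v \ SS T R A B L v' ⊆ SS T R A B L v \ G n := by
    intro y hy
    refine ⟨hy.1, fun h => hy.2 ?_⟩
    simp only [hG, Set.mem_iUnion, Set.mem_ofPred_eq, Set.mem_preimage, exists_prop] at h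
    obtain ⟨s, ⟨h1, h2, h3⟩, h4⟩ := h
    unfold SS
    simp only [Set.mem_iUnion, Set.mem_ofPred_eq, Set.mem_preimage, exists_prop]
    refine ⟨s, ⟨h1, hv' s ?_ h2⟩, h4⟩
    rw [Finset.mem_Icc]
    exact abs_le.mp h3
  have hlt : ρ (SS T R A B L v \ SS T R A B L v') < ENNReal.ofReal ε :=
    lt_of_le_of_lt (measure_mono hsub) hn
  rw [Measure.real]
  exact (ENNReal.lt_ofReal_iff_toReal_lt (measure_ne_top _ _)).mp hlt
-- END mc2

-- BEGIN mc3
omit [CompactSpace X] [MeasurableSpace X] [BorelSpace X] in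
private theorem mc3_le (hR : Act ρ R) (hA : MeasurableSet A) (L : ℤ) (v v' : X) :
    ρ.real (SS T R A B L v) - ρ.real (SS T R A B L v \ SS T R A B L v') ≤ ρ.real (SS T R A B L v') := by
  have h1 := measureReal_sdiff_add_inter (μ := ρ) (s := SS T R A B L v) (t := SS T R A B L v')
    (SS_meas hR hA L v')
  have h2 : ρ.real (SS T R A B L v ∩ SS T R A B L v') ≤ ρ.real (SS T R A B L v') :=
    measureReal_mono Set.inter_subset_right
  linarith

omit [CompactSpace X] [MeasurableSpace X] [BorelSpace X] [IsProbabilityMeasure ρ] in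
private theorem mc3_eq (hR : Act ρ R) (hA : MeasurableSet A) (L : ℤ) (v : X) :
    ρ.real (SS T R A B (L + 1) (T v)) = ρ.real (SS T R A B L v) := by
  rw [SS_shift hR]
  unfold Measure.real
  rw [(hR.mp (-1)).measure_preimage (SS_meas hR hA L v).nullMeasurableSet]

omit [MeasurableSpace X] [BorelSpace X] in
private theorem mc3_v (hR : Act ρ R) (hT : Mini T) (hA : MeasurableSet A) (hB : IsOpen B) (L : ℤ)
    (v v' : X) : ρ.real (SS T R A B L v) = ρ.real (SS T R A B L v') := by
  refine lsc_const hT (f := fun v => ρ.real (SS T R A B L v)) ?_ ?_ v v'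
  · intro x y hy
    have hε : 0 < ρ.real (SS T R A B L x) - y := by linarith
    filter_upwards [SS_lsc hR hA hB L x hε] with x' hx'
    have := mc3_le (T := T) (B := B) hR hA L x x'
    linarith
  · intro x
    have h1 := mc3_eq (T := T) (B := B) hR hA L x
    have h2 : ρ.real (SS T R A B (L + 1) (T x)) ≤ ρ.real (SS T R A B L (T x)) :=
      measureReal_mono (SS_anti (by omega) _)
    show ρ.real (SS T R A B L x) ≤ ρ.real (SS T R A B L (T x))
    rw [← h1]
    exact h2

omit [MeasurableSpace X] [BorelSpace X] in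
/-- The measure does not depend on `v` and on `L`: `f v = ρ (SS L v)` is lower semicontinuous (`SS_lsc`) and
`f v = ρ (SS (L+1) (T v)) ≤ f (T v)`, so it is constant in `v` (`lsc_const`), and then
`ρ (SS (L+1) w) = ρ (SS L w)` with `w = T v`. -/
theorem SS_const (hR : Act ρ R) (hT : Mini T) (hA : MeasurableSet A) (hB : IsOpen B) (L L' : ℤ)
    (v v' : X) : ρ.real (SS T R A B L v) = ρ.real (SS T R A B L' v') := by
  have hstep : ∀ M : ℤ, ρ.real (SS T R A B (M + 1) v) = ρ.real (SS T R A B M v) := by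
    intro M
    rw [mc3_v hR hT hA hB (M + 1) v (T v), mc3_eq hR hA M v]
  have hL : ∀ M : ℤ, ρ.real (SS T R A B M v) = ρ.real (SS T R A B 0 v) := by
    intro M
    induction M using Int.induction_on with
    | zero => rfl
    | succ i ih => rw [hstep, ih]
    | pred i ih =>
      have := hstep (-(i : ℤ) - 1)
      rw [sub_add_cancel] at this
      rw [← this, ih]
  rw [hL L, ← hL L', mc3_v hR hT hA hB L' v v']

omit [MeasurableSpace X] [BorelSpace X] in
/-- (`SS_anti`, `SS_const`) -/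
theorem SS_ae (hR : Act ρ R) (hT : Mini T) (hA : MeasurableSet A) (hB : IsOpen B) (L L' : ℤ) (v : X) :
    SS T R A B L v =ᵐ[ρ] SS T R A B L' v := by
  have key : ∀ M M' : ℤ, M ≤ M' → SS T R A B M' v =ᵐ[ρ] SS T R A B M v := by
    intro M M' h
    apply ae_eq_of_subset_of_measure_ge (SS_anti h v)
    · have h1 := SS_const hR hT hA hB M M' v v
      unfold Measure.real at h1
      rw [ENNReal.toReal_eq_toReal_iff' (measure_ne_top _ _) (measure_ne_top _ _)] at h1
      exact h1.le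
    · exact (SS_meas hR hA M' v).nullMeasurableSet
    · exact measure_ne_top _ _
  rcases le_total L L' with h | h
  · exact (key L L' h).symm
  · exact key L' L h
-- END mc3

-- BEGIN mc4
omit [MeasurableSpace X] [BorelSpace X] in
private theorem mc4_diff (hR : Act ρ R) (hT : Mini T) (hA : MeasurableSet A) (hB : IsOpen B) (L : ℤ)
    (v v' : X) : ρ.real (SS T R A B L v' \ SS T R A B L v) =
      ρ.real (SS T R A B L v \ SS T R A B L v') := by
  have hm := SS_meas (T := T) (B := B) hR hA L v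
  have hm' := SS_meas (T := T) (B := B) hR hA L v'
  have h1 := measureReal_sdiff_add_inter (μ := ρ) (s := SS T R A B L v') (t := SS T R A B L v) hm
  have h2 := measureReal_sdiff_add_inter (μ := ρ) (s := SS T R A B L v) (t := SS T R A B L v') hm'
  rw [Set.inter_comm] at h2
  have h3 := SS_const hR hT hA hB L L v v'
  linarith

omit [MeasurableSpace X] [BorelSpace X] in
private theorem mc4_le (hR : Act ρ R) (hT : Mini T) (hA : MeasurableSet A) (hB : IsOpen B) (L : ℤ)
    (v w v' w' : X) : ρ.real (SS T R A B L v ∩ SS T R A B L w) ≤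
      ρ.real (SS T R A B L v' ∩ SS T R A B L w') + ρ.real (SS T R A B L v \ SS T R A B L v') +
        ρ.real (SS T R A B L w \ SS T R A B L w') := by
  have h1 : SS T R A B L v ∩ SS T R A B L w ⊆ (SS T R A B L v' ∩ SS T R A B L w') ∪
      (SS T R A B L v \ SS T R A B L v') ∪ (SS T R A B L w \ SS T R A B L w') := by
    intro y hy
    by_cases h : y ∈ SS T R A B L v'
    · by_cases h' : y ∈ SS T R A B L w'
      · exact Or.inl (Or.inl ⟨h, h'⟩)
      · exact Or.inr ⟨hy.2, h'⟩
    · exact Or.inl (Or.inr ⟨hy.1, h⟩)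
  refine (measureReal_mono h1).trans ?_
  refine (measureReal_union_le _ _).trans ?_
  have := measureReal_union_le (μ := ρ) (SS T R A B L v' ∩ SS T R A B L w')
    (SS T R A B L v \ SS T R A B L v')
  linarith

omit [MeasurableSpace X] [BorelSpace X] in
/-- `|ρ (S v ∩ S w) - ρ (S v' ∩ S w')| ≤ ρ (S v ∆ S v') + ρ (S w ∆ S w')`, and `ρ (S v ∆ S v') = 2 ρ (S v \ S v')` by
`SS_const` -/
theorem k_cont (hR : Act ρ R) (hT : Mini T) (hA : MeasurableSet A) (hB : IsOpen B) (L : ℤ) :
    Continuous fun q : X × X => ρ.real (SS T R A B L q.1 ∩ SS T R A B L q.2) := by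
  rw [continuous_iff_continuousAt]
  rintro ⟨v, w⟩
  unfold ContinuousAt
  rw [Metric.tendsto_nhds]
  intro ε hε
  have h1 : ∀ᶠ q : X × X in 𝓝 (v, w), ρ.real (SS T R A B L v \ SS T R A B L q.1) < ε / 2 :=
    (continuous_fst.tendsto (v, w)).eventually (SS_lsc hR hA hB L v (half_pos hε))
  have h2 : ∀ᶠ q : X × X in 𝓝 (v, w), ρ.real (SS T R A B L w \ SS T R A B L q.2) < ε / 2 :=
    (continuous_snd.tendsto (v, w)).eventually (SS_lsc hR hA hB L w (half_pos hε))
  filter_upwards [h1, h2] with q hq1 hq2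
  have h3 := mc4_le hR hT hA hB L v w q.1 q.2
  have h4 := mc4_le hR hT hA hB L q.1 q.2 v w
  rw [mc4_diff hR hT hA hB L v q.1, mc4_diff hR hT hA hB L w q.2] at h4
  rw [Real.dist_eq, abs_lt]
  constructor
  · show -ε < ρ.real (SS T R A B L q.1 ∩ SS T R A B L q.2) - ρ.real (SS T R A B L v ∩ SS T R A B L w)
    linarith
  · show ρ.real (SS T R A B L q.1 ∩ SS T R A B L q.2) - ρ.real (SS T R A B L v ∩ SS T R A B L w) < ε
    linarith

omit [MeasurableSpace X] [BorelSpace X] in
/-- `S_L (T v)` is a.e. `S_(L+1) (T v) = R(-1)⁻¹ S_L v` -/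
theorem k_inv (hR : Act ρ R) (hT : Mini T) (hA : MeasurableSet A) (hB : IsOpen B) (L : ℤ) (v w : X) :
    ρ.real (SS T R A B L (T v) ∩ SS T R A B L (T w)) =
      ρ.real (SS T R A B L v ∩ SS T R A B L w) := by
  have h1 := SS_ae hR hT hA hB L (L + 1) (T v)
  have h2 := SS_ae hR hT hA hB L (L + 1) (T w)
  rw [SS_shift hR] at h1 h2
  rw [measureReal_congr (h1.inter h2), ← Set.preimage_inter]
  unfold Measure.real
  rw [(hR.mp (-1)).measure_preimage
    ((SS_meas hR hA L v).inter (SS_meas hR hA L w)).nullMeasurableSet]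
-- END mc4

-- BEGIN mc5
/-- `S v` and `S v'` are a.e. equal if `p v = p v'`: `k v v' = ρ (S v ∩ S v')`, `ker_fib` gives
`k v v = k v' v = k v' v'`, so `ρ (S v ∆ S v') = k v v + k v' v' - 2 k v v' = 0`. -/
theorem SS_fib [Nonempty X] (hR : Act ρ R) (hT : Mini T) (he : Ext T u p) (hA : MeasurableSet A)
    (hB : IsOpen B) (L : ℤ) {v v' : X} (hp : p v = p v') :
    SS T R A B L v =ᵐ[ρ] SS T R A B L v' := by
  obtain ⟨μ, hμp, hμo, hμi⟩ := exists_inv hT
  have hk : ∀ y, ρ.real (SS T R A B L v ∩ SS T R A B L y) = ρ.real (SS T R A B L v' ∩ SS T R A B L y) :=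
    fun y => ker_fib μ he hμi (k := fun v w => ρ.real (SS T R A B L v ∩ SS T R A B L w))
      (k_cont hR hT hA hB L) (fun x y => by rw [Set.inter_comm]) (k_inv hR hT hA hB L) hp y
  have h1 := hk v
  have h2 := hk v'
  rw [Set.inter_self] at h1 h2
  have hm : ∀ w, MeasurableSet (SS T R A B L w) := fun w => SS_meas hR hA L w
  have e1 : (SS T R A B L v ∩ SS T R A B L v' : Set Y) =ᵐ[ρ] SS T R A B L v := by
    apply ae_eq_of_subset_of_measure_ge Set.inter_subset_left
    · have h3 : ρ.real (SS T R A B L v) = ρ.real (SS T R A B L v ∩ SS T R A B L v') := by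
        rw [h1, Set.inter_comm]
      unfold Measure.real at h3
      rw [ENNReal.toReal_eq_toReal_iff' (measure_ne_top _ _) (measure_ne_top _ _)] at h3
      exact h3.le
    · exact ((hm v).inter (hm v')).nullMeasurableSet
    · exact measure_ne_top _ _
  have e2 : (SS T R A B L v ∩ SS T R A B L v' : Set Y) =ᵐ[ρ] SS T R A B L v' := by
    apply ae_eq_of_subset_of_measure_ge Set.inter_subset_right
    · unfold Measure.real at h2
      rw [ENNReal.toReal_eq_toReal_iff' (measure_ne_top _ _) (measure_ne_top _ _)] at h2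
      exact h2.ge
    · exact ((hm v).inter (hm v')).nullMeasurableSet
    · exact measure_ne_top _ _
  exact e1.symm.trans e2

/-- **McMahon's argument.** If `x ∈ B`, `p x = p x'` and `ρ A ≠ 0` then there is `s > L` with `x' ∈ T^s B` and
`ρ (A ∩ R^s A) ≠ 0`. Proof: `A ⊆ SS (-1) x` (`SS_self`), which is a.e. `SS L x`, a.e. `SS L x'`. If the assertion fails all the
countably many sets in the union `SS L x'` meet `A` in null sets, so `ρ A = 0`. -/
theorem mcm [Nonempty X] (hR : Act ρ R) (hT : Mini T) (he : Ext T u p) (hA : MeasurableSet A)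
    (h0 : ρ A ≠ 0) (hB : IsOpen B) {x x' : X} (hx : x ∈ B) (hp : p x = p x') (L : ℤ) :
    ∃ s : ℤ, L < s ∧ (T ^ (-s)) x' ∈ B ∧ ρ (A ∩ (R (-s)) ⁻¹' A) ≠ 0 := by
  by_contra hcon
  push Not at hcon
  apply h0
  have e1 : SS T R A B (-1) x =ᵐ[ρ] SS T R A B L x' :=
    (SS_ae hR hT hA hB (-1) L x).trans (SS_fib hR hT he hA hB L hp)
  have e2 : (A ∩ SS T R A B (-1) x : Set Y) =ᵐ[ρ] (A ∩ SS T R A B L x' : Set Y) :=
    (ae_eq_refl A).inter e1
  rw [Set.inter_eq_left.mpr (SS_self hR hx)] at e2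
  rw [measure_congr e2]
  have hsub : A ∩ SS T R A B L x' ⊆
      ⋃ s ∈ {s : ℤ | L < s ∧ (T ^ (-s)) x' ∈ B}, A ∩ (R (-s)) ⁻¹' A := by
    intro y hy
    obtain ⟨h1, h2⟩ := hy
    unfold SS at h2
    simp only [Set.mem_iUnion, Set.mem_ofPred_eq, Set.mem_preimage, exists_prop] at h2 ⊢
    obtain ⟨s, hs, h3⟩ := h2
    exact ⟨s, hs, h1, h3⟩
  apply measure_mono_null hsub
  rw [measure_biUnion_null_iff (Set.to_countable _)]
  intro s hs
  exact hcon s hs.1 hs.2
-- END mc5

end Pool.Agent.S7A
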