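import Pool.Agent.S7A.Mcm

/-! # MP_13664e_an, block A: moving open sets simultaneously, independence (helper58) -/

set_option autoImplicit false

namespace Pool.Agent.S7A

open MeasureTheory Filter Topology Pool.Agent.Sar
open scoped Pointwise

private theorem mv_mp {X : Type*} [TopologicalSpace X] [MeasurableSpace X] [BorelSpace X]
    {T : X ≃ₜ X} {μ : Measure X} (hμ : MeasurePreserving T μ μ) (s : ℤ) :
    MeasurePreserving (T ^ s : X ≃ₜ X) μ μ := by
  have h1 : MeasurePreserving (T ^ (-1 : ℤ) : X ≃ₜ X) μ μ := by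
    have := MeasurePreserving.symm T.toMeasurableEquiv hμ
    rw [zpow_neg_one]
    exact this
  induction s using Int.induction_on with
  | zero => exact MeasurePreserving.id μ
  | succ n ih =>
    rw [zpow_add, zpow_one]
    exact ih.comp hμ
  | pred n ih =>
    rw [sub_eq_add_neg, zpow_add]
    exact ih.comp h1

section move

variable {X : Type*} [MetricSpace X] [CompactSpace X] [Nonempty X] [MeasurableSpace X] [BorelSpace X]
  {K : Type*} [Group K] [TopologicalSpace K] {T : X ≃ₜ X} {u : K} {p : X → K}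

/-- Simultaneous moving: one application of `mcm` for each index, with the measure preserving system `X^ι`. -/
theorem move (hT : Mini T) (he : Ext T u p) {ι : Type} [Fintype ι] (B U : ι → Set X)
    (hB : ∀ q, IsOpen (B q)) (hn : ∀ q, (B q).Nonempty) (hU : ∀ q, IsOpen (U q))
    (hp : ∀ q, ∀ x ∈ B q, ∃ x' ∈ U q, p x' = p x) (L : ℕ) :
    ∃ s : ℕ, L < s ∧ ∀ q, ∃ x ∈ B q, (T ^ (s : ℤ)) x ∈ U q := by
  classical
  obtain ⟨μ, hμ1, hμ2, hμ3⟩ := exists_inv hT
  -- the statement for a finite set of indices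
  have main : ∀ S : Finset ι, ∃ s : ℕ, (S.Nonempty → L < s) ∧ ∃ D : ι → Set X,
      (∀ q, IsOpen (D q)) ∧ (∀ q, (D q).Nonempty) ∧ (∀ q, ∀ x ∈ D q, (T ^ (-(s : ℤ))) x ∈ B q) ∧
      (∀ q ∈ S, D q ⊆ U q) ∧ (∀ q, q ∉ S → D q ⊆ B q) := by
    intro S
    induction S using Finset.induction_on with
    | empty =>
      refine ⟨0, fun h => absurd h Finset.not_nonempty_empty, B, hB, hn, ?_, ?_, fun q _ => le_rfl⟩
      · intro q x hx
        simpa using hx
      · intro q hq
        exact absurd hq (Finset.notMem_empty q)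
    | insert j S hj ih =>
      obtain ⟨s, hs, D, hD1, hD2, hD3, hD4, hD5⟩ := ih
      obtain ⟨x, hx⟩ := hD2 j
      obtain ⟨x', hx', hxx⟩ := hp j x (hD5 j hj hx)
      let R : ℤ → (ι → X) → (ι → X) := fun t y q => (T ^ t) (y q)
      have hR : Act (Measure.pi fun _ : ι => μ) R :=
        { mp := fun t => measurePreserving_pi _ _ fun _ => mv_mp hμ3 t
          zero := fun y => by
            funext q
            show (T ^ (0 : ℤ)) (y q) = y q
            rw [zpow_zero]
            rfl
          add := fun t t' y => by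
            funext q
            show (T ^ (t + t')) (y q) = (T ^ t) ((T ^ t') (y q))
            rw [zpow_add]
            rfl }
      let C : ι → Set X := fun q => if q = j then Set.univ else D q
      have hC1 : ∀ q, IsOpen (C q) := fun q => by
        by_cases h : q = j
        · simp only [C, if_pos h]
          exact isOpen_univ
        · simp only [C, if_neg h]
          exact hD1 q
      have hC2 : ∀ q, (C q).Nonempty := fun q => by
        by_cases h : q = j
        · simp only [C, if_pos h]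
          exact Set.univ_nonempty
        · simp only [C, if_neg h]
          exact hD2 q
      let A : Set (ι → X) := Set.pi Set.univ C
      have hA : MeasurableSet A := MeasurableSet.univ_pi fun q => (hC1 q).measurableSet
      have h0 : (Measure.pi fun _ : ι => μ) A ≠ 0 := by
        rw [Measure.pi_pi]
        exact Finset.prod_ne_zero_iff.2 fun q _ => ((hC1 q).measure_pos μ (hC2 q)).ne'
      obtain ⟨t, ht1, ht2, ht3⟩ := mcm (A := A) hR hT he hA h0 (hD1 j) hx hxx.symm (L : ℤ)
      obtain ⟨y, hy1, hy2⟩ := nonempty_of_measure_ne_zero ht3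
      have ht0 : (0 : ℤ) ≤ t := by omega
      obtain ⟨t', rfl⟩ := Int.eq_ofNat_of_zero_le ht0
      have hst : ∀ z : X, (T ^ (-((s + t' : ℕ) : ℤ))) z = (T ^ (-(s : ℤ))) ((T ^ (-(t' : ℤ))) z) := by
        intro z
        have : (-((s + t' : ℕ) : ℤ)) = -(s : ℤ) + -(t' : ℤ) := by push_cast; ring
        rw [this, zpow_add]
        rfl
      refine ⟨s + t', fun _ => by omega, fun q => if q = j then U j ∩ (T ^ (-(t' : ℤ))) ⁻¹' D j
        else D q ∩ (T ^ (-(t' : ℤ))) ⁻¹' D q, ?_, ?_, ?_, ?_, ?_⟩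
      · intro q
        by_cases h : q = j
        · simp only [if_pos h]
          exact (hU j).inter ((hD1 j).preimage (T ^ (-(t' : ℤ)) : X ≃ₜ X).continuous)
        · simp only [if_neg h]
          exact (hD1 q).inter ((hD1 q).preimage (T ^ (-(t' : ℤ)) : X ≃ₜ X).continuous)
      · intro q
        by_cases h : q = j
        · simp only [if_pos h]
          exact ⟨x', hx', ht2⟩
        · simp only [if_neg h]
          have h1 := hy1 q (Set.mem_univ _)
          have h2 := hy2 q (Set.mem_univ _)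
          simp only [C, if_neg h] at h1 h2
          exact ⟨y q, h1, h2⟩
      · intro q z hz
        rw [hst]
        by_cases h : q = j
        · simp only [if_pos h] at hz
          subst h
          exact hD3 q _ hz.2
        · simp only [if_neg h] at hz
          exact hD3 q _ hz.2
      · intro q hq z hz
        by_cases h : q = j
        · simp only [if_pos h] at hz
          rw [h]
          exact hz.1
        · simp only [if_neg h] at hz
          exact hD4 q ((Finset.mem_insert.1 hq).resolve_left h) hz.1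
      · intro q hq z hz
        have h : q ≠ j := fun h => hq (by rw [h]; exact Finset.mem_insert_self _ _)
        simp only [if_neg h] at hz
        exact hD5 q (fun h' => hq (Finset.mem_insert_of_mem h')) hz.1
  rcases isEmpty_or_nonempty ι with hι | hι
  · exact ⟨L + 1, by omega, fun q => (hι.false q).elim⟩
  · obtain ⟨s, hs, D, -, hD2, hD3, hD4, -⟩ := main Finset.univ
    refine ⟨s, hs Finset.univ_nonempty, fun q => ?_⟩
    obtain ⟨z, hz⟩ := hD2 q
    refine ⟨_, hD3 q z hz, ?_⟩
    have h1 : (T ^ (s : ℤ)) ((T ^ (-(s : ℤ))) z) = z := by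
      have : (T ^ (s : ℤ)) ((T ^ (-(s : ℤ))) z) = (T ^ (s : ℤ) * T ^ (-(s : ℤ))) z := rfl
      rw [this, ← zpow_add, add_neg_cancel, zpow_zero]
      rfl
    rw [h1]
    exact hD4 q (Finset.mem_univ q) hz

end move

section semi

variable {X : Type*} [MetricSpace X] [CompactSpace X]
  {K : Type*} [Group K] [TopologicalSpace K] [IsTopologicalGroup K] [CompactSpace K] [T2Space K]
  {T : X ≃ₜ X} {u : K} {p : X → K}

/-- `p` is semi-open -/
theorem semi_open (hT : Mini T) (he : Ext T u p) {O : Set X} (hO : IsOpen O) (hn : O.Nonempty) :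
    (interior (p '' O)).Nonempty := by
  obtain ⟨x, hx⟩ := hn
  obtain ⟨r, hr, hball⟩ := Metric.isOpen_iff.1 hO x hx
  have hsub : Metric.closedBall x (r / 2) ⊆ O :=
    (Metric.closedBall_subset_ball (by linarith)).trans hball
  obtain ⟨n, hn⟩ := cover hT (O := Metric.ball x (r / 2)) Metric.isOpen_ball
    ⟨x, Metric.mem_ball_self (by linarith)⟩
  have hclosed : IsClosed (p '' Metric.closedBall x (r / 2)) :=
    ((Metric.isClosed_closedBall.isCompact).image he.cont).isClosed
  have hcov : ⋃ i : Fin n, (fun z : K => u ^ (i : ℕ) * z) ⁻¹' (p '' Metric.closedBall x (r / 2)) =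
      Set.univ := by
    rw [Set.eq_univ_iff_forall]
    intro z
    obtain ⟨y, rfl⟩ := he.surj z
    obtain ⟨i, hi, hy⟩ := hn y
    refine Set.mem_iUnion.2 ⟨⟨i, hi⟩, ⟨_, Metric.ball_subset_closedBall hy, ?_⟩⟩
    rw [p_zpow he, zpow_natCast]
  have : Nonempty K := ⟨1⟩
  obtain ⟨i, hi⟩ := nonempty_interior_of_iUnion_of_closed (fun i : Fin n =>
    hclosed.preimage (continuous_const.mul continuous_id)) hcov
  obtain ⟨z, hz⟩ := hi
  change z ∈ interior ((Homeomorph.mulLeft (u ^ (i : ℕ))) ⁻¹' (p '' Metric.closedBall x (r / 2))) at hz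
  rw [← (Homeomorph.mulLeft (u ^ (i : ℕ))).preimage_interior] at hz
  exact ⟨_, interior_mono (Set.image_mono hsub) hz⟩

end semi

section step

variable {X : Type*} [MetricSpace X] [CompactSpace X] [Nonempty X] [MeasurableSpace X] [BorelSpace X]
  {K : Type*} [CommGroup K] [TopologicalSpace K] [IsTopologicalGroup K] [CompactSpace K] [T2Space K]
  {T : X ≃ₜ X} {u : K} {p : X → K}

/-- One more time. -/
theorem step (hT : Mini T) (he : Ext T u p) {ι κ : Type} [Fintype ι] [Fintype κ] (O : ι → Set X)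
    (hO : ∀ i, IsOpen (O i)) (hn : ∀ i, (O i).Nonempty) (V U : κ → Set X) (hU : ∀ j, IsOpen (U j))
    (hVU : ∀ j, V j ⊆ U j) (W : Set K) (hW : ∀ j, W ⊆ p '' V j)
    (ht : ∀ z : ι → K, (∀ i, z i ∈ p '' O i) → ∃ t, ∀ i, t * z i ∈ W) (L : ℕ) :
    ∃ s : ℕ, L < s ∧ ∀ i j, ∃ x ∈ O i, (T ^ (s : ℤ)) x ∈ U j := by
  choose z hz using fun i => semi_open hT he (hO i) (hn i)
  obtain ⟨t, ht⟩ := ht z fun i => interior_subset (hz i)
  -- open sets in the image of `U j` near `t z_i`
  have hC : ∀ i j, ∃ C : Set K, IsOpen C ∧ C.Nonempty ∧ C ⊆ p '' U j ∧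
      C ⊆ (fun y => t⁻¹ * y) ⁻¹' interior (p '' O i) := by
    intro i j
    obtain ⟨v, hv, hvz⟩ := hW j (ht i)
    let G : Set X := U j ∩ p ⁻¹' ((fun y => t⁻¹ * y) ⁻¹' interior (p '' O i))
    have hG : IsOpen G := (hU j).inter
      ((isOpen_interior.preimage (continuous_const.mul continuous_id)).preimage he.cont)
    have hGn : G.Nonempty := by
      refine ⟨v, hVU j hv, ?_⟩
      show t⁻¹ * p v ∈ interior (p '' O i)
      rw [hvz, inv_mul_cancel_left]
      exact hz i
    refine ⟨interior (p '' G), isOpen_interior, semi_open hT he hG hGn,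
      interior_subset.trans (Set.image_mono Set.inter_subset_left), ?_⟩
    rintro y hy
    obtain ⟨g, hg, rfl⟩ := interior_subset hy
    exact hg.2
  choose C hC1 hC2 hC3 hC4 using hC
  -- the times `t'` for which everything meets form an open set containing `t`
  let N : Set K := ⋂ i, ⋂ j, {t' | ∃ y ∈ C i j, t'⁻¹ * y ∈ interior (p '' O i)}
  have hN : IsOpen N := by
    refine isOpen_iInter_of_finite fun i => isOpen_iInter_of_finite fun j => ?_
    have : {t' | ∃ y ∈ C i j, t'⁻¹ * y ∈ interior (p '' O i)} =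
        ⋃ y ∈ C i j, (fun t' : K => t'⁻¹ * y) ⁻¹' interior (p '' O i) := by
      ext t'
      simp
    rw [this]
    exact isOpen_biUnion fun y _ => isOpen_interior.preimage (continuous_inv.mul continuous_const)
  have htN : t ∈ N := by
    simp only [N, Set.mem_iInter, Set.mem_ofPred_eq]
    intro i j
    obtain ⟨y, hy⟩ := hC2 i j
    exact ⟨y, hy, hC4 i j hy⟩
  obtain ⟨m, hm, hmN⟩ := he.dense N hN ⟨t, htN⟩ L
  simp only [N, Set.mem_iInter, Set.mem_ofPred_eq] at hmN
  -- the sets to be moved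
  let B : ι × κ → Set X := fun q => (T ^ (-(m : ℤ))) ⁻¹' O q.1 ∩ p ⁻¹' C q.1 q.2
  obtain ⟨s, hs, hsB⟩ := move hT he B (fun q => U q.2)
    (fun q => ((hO q.1).preimage (T ^ (-(m : ℤ)) : X ≃ₜ X).continuous).inter
      ((hC1 q.1 q.2).preimage he.cont))
    (fun q => by
      obtain ⟨y, hy, hy2⟩ := hmN q.1 q.2
      obtain ⟨x, hx, hxy⟩ := interior_subset hy2
      refine ⟨(T ^ (m : ℤ)) x, ?_, ?_⟩
      · show (T ^ (-(m : ℤ))) ((T ^ (m : ℤ)) x) ∈ O q.1
        have h1 : (T ^ (-(m : ℤ))) ((T ^ (m : ℤ)) x) = (T ^ (-(m : ℤ)) * T ^ (m : ℤ)) x := rfl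
        rw [h1, ← zpow_add, neg_add_cancel, zpow_zero]
        exact hx
      · show p ((T ^ (m : ℤ)) x) ∈ C q.1 q.2
        rw [p_zpow he, hxy, zpow_natCast, mul_inv_cancel_left]
        exact hy)
    (fun q => hU q.2)
    (fun q x hx => by
      obtain ⟨x', hx', h⟩ := hC3 q.1 q.2 hx.2
      exact ⟨x', hx', h⟩) L
  refine ⟨s + m, by omega, fun i j => ?_⟩
  obtain ⟨x, hx, hxU⟩ := hsB (i, j)
  refine ⟨(T ^ (-(m : ℤ))) x, hx.1, ?_⟩
  have h1 : (T ^ ((s + m : ℕ) : ℤ)) ((T ^ (-(m : ℤ))) x) =
      (T ^ ((s + m : ℕ) : ℤ) * T ^ (-(m : ℤ))) x := rfl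
  rw [h1, ← zpow_add]
  have h2 : ((s + m : ℕ) : ℤ) + -(m : ℤ) = (s : ℤ) := by push_cast; ring
  rw [h2]
  exact hxU

omit [CompactSpace K] [T2Space K] in
/-- A common translate: a compact set `W` of positive Haar measure, `z` in a small neighbourhood of `1`. -/
private theorem tr_exists [MeasurableSpace K] [BorelSpace K] (h : Measure K) [IsFiniteMeasure h]
    [h.IsMulLeftInvariant] {W : Set K} {ε : ENNReal} {N : Set K}
    (hN : ∀ z ∈ N, h (z • W \ W) < ε) {ι : Type} [Fintype ι] (hε : (Fintype.card ι : ENNReal) * ε < h W)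
    (z : ι → K) (hz : ∀ i, z i ∈ N) : ∃ t, ∀ i, t * z i ∈ W := by
  have h1 : ∀ i, h (W \ {t | t * z i ∈ W}) ≤ ε := by
    intro i
    have h2 : W \ {t | t * z i ∈ W} = (fun t => z i * t) ⁻¹' (z i • W \ W) := by
      ext t
      simp only [Set.mem_sdiff, Set.mem_ofPred_eq, Set.mem_preimage]
      rw [mul_comm t (z i)]
      constructor
      · rintro ⟨h3, h4⟩
        exact ⟨⟨t, h3, rfl⟩, h4⟩
      · rintro ⟨⟨t', h3, h5⟩, h4⟩
        have h6 : z i * t' = z i * t := h5
        rw [← mul_left_cancel h6]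
        rw [← mul_left_cancel h6] at h4
        exact ⟨h3, h4⟩
    rw [h2, measure_preimage_mul]
    exact (hN _ (hz i)).le
  have h2 : h (⋃ i, W \ {t | t * z i ∈ W}) < h W := by
    refine lt_of_le_of_lt (measure_iUnion_fintype_le _ _) (lt_of_le_of_lt ?_ hε)
    calc ∑ i, h (W \ {t | t * z i ∈ W}) ≤ ∑ _i : ι, ε := Finset.sum_le_sum fun i _ => h1 i
      _ = (Fintype.card ι : ENNReal) * ε := by
        rw [Finset.sum_const, Finset.card_univ, nsmul_eq_mul]
  have h3 : ¬ W ⊆ ⋃ i, W \ {t | t * z i ∈ W} := fun hsub => absurd (measure_mono hsub) (not_le.2 h2)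
  obtain ⟨t, ht, ht2⟩ := Set.not_subset.1 h3
  refine ⟨t, fun i => ?_⟩
  by_contra hc
  exact ht2 (Set.mem_iUnion.2 ⟨i, ht, hc⟩)

/-- Independence along long sequences of times. -/
theorem indep (hT : Mini T) (he : Ext T u p) [MeasurableSpace K] [BorelSpace K] (h : Measure K)
    [IsFiniteMeasure h] [h.IsMulLeftInvariant] [h.InnerRegularCompactLTTop] {R : ℕ}
    (V U : Fin R → Set X) (hU : ∀ j, IsOpen (U j)) (hVU : ∀ j, V j ⊆ U j) (W : Set K)
    (hWc : IsClosed W) (hW : ∀ j, W ⊆ p '' V j) (h0 : h W ≠ 0) (n L : ℕ) :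
    ∃ s : Fin n → ℕ, StrictMono s ∧ (∀ i, L < s i) ∧
      ∀ w : Fin n → Fin R, ∃ x, ∀ i, (T ^ (s i : ℤ)) x ∈ U (w i) := by
  classical
  -- the neighbourhood of `1`
  let c : ℕ := ∑ i ∈ Finset.range n, R ^ i + 1
  have hc0 : (c : ENNReal) ≠ 0 := by
    have : c ≠ 0 := Nat.succ_ne_zero _
    exact_mod_cast this
  have hct : (c : ENNReal) ≠ ⊤ := ENNReal.natCast_ne_top c
  have hWt : h W ≠ ⊤ := measure_ne_top h W
  have hε0 : h W / c ≠ 0 := ENNReal.div_ne_zero.2 ⟨h0, hct⟩
  have hev := (tendsto_measure_smul_sdiff_isCompact_isClosed (μ := h) hWc.isCompact hWc).eventually_lt_const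
    (pos_iff_ne_zero.2 hε0)
  obtain ⟨N, hNsub, hNo, hN1⟩ := eventually_nhds_iff.1 hev
  have key : ∀ i : ℕ, i ≤ n → ∃ s : Fin i → ℕ, StrictMono s ∧ (∀ a, L < s a) ∧
      ∃ O : (Fin i → Fin R) → Set X, (∀ w, IsOpen (O w)) ∧ (∀ w, (O w).Nonempty) ∧
        (∀ w, ∀ x ∈ O w, p x ∈ N) ∧ ∀ w, ∀ x ∈ O w, ∀ a, (T ^ (s a : ℤ)) x ∈ U (w a) := by
    intro i
    induction i with
    | zero =>
      intro _
      refine ⟨Fin.elim0, fun a => a.elim0, fun a => a.elim0, fun _ => p ⁻¹' N,
        fun _ => hNo.preimage he.cont, fun _ => ?_, fun _ x hx => hx, fun _ _ _ a => a.elim0⟩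
      obtain ⟨x, hx⟩ := he.surj 1
      exact ⟨x, by rw [Set.mem_preimage, hx]; exact hN1⟩
    | succ i ih =>
      intro hi
      obtain ⟨s, hs1, hs2, O, hO1, hO2, hO3, hO4⟩ := ih (by omega)
      have hcard : (Fintype.card (Fin i → Fin R) : ENNReal) * (h W / c) < h W := by
        have h1 : Fintype.card (Fin i → Fin R) < c := by
          rw [Fintype.card_fun, Fintype.card_fin, Fintype.card_fin]
          have := Finset.single_le_sum (f := fun i => R ^ i) (fun _ _ => Nat.zero_le _)
            (Finset.mem_range.2 (show i < n by omega))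
          omega
        have h2 : (Fintype.card (Fin i → Fin R) : ENNReal) < c := by exact_mod_cast h1
        calc (Fintype.card (Fin i → Fin R) : ENNReal) * (h W / c) < c * (h W / c) :=
            (ENNReal.mul_lt_mul_iff_left hε0 (ENNReal.div_ne_top hWt hc0)).2 h2
          _ = h W := ENNReal.mul_div_cancel hc0 hct
      obtain ⟨L', hL'⟩ : ∃ L' : ℕ, L ≤ L' ∧ ∀ a, s a ≤ L' :=
        ⟨L + ∑ a, s a, Nat.le_add_right _ _, fun a =>
          (Finset.single_le_sum (f := s) (fun _ _ => Nat.zero_le _) (Finset.mem_univ a)).trans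
            (Nat.le_add_left _ _)⟩
      obtain ⟨t, ht, htO⟩ := step hT he O hO1 hO2 V U hU hVU W hW
        (fun z hz => tr_exists h (fun y hy => hNsub y hy) hcard z fun w => by
          obtain ⟨x, hx, hxz⟩ := hz w
          rw [← hxz]
          exact hO3 w x hx) L'
      refine ⟨Fin.snoc s t, ?_, ?_, fun w => O (Fin.init w) ∩ (T ^ (t : ℤ)) ⁻¹' U (w (Fin.last i)),
        ?_, ?_, ?_, ?_⟩
      · intro a b hab
        induction b using Fin.lastCases with
        | last =>
          induction a using Fin.lastCases with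
          | last => exact absurd hab (lt_irrefl _)
          | cast a =>
            rw [Fin.snoc_last, Fin.snoc_castSucc]
            exact lt_of_le_of_lt (hL'.2 a) ht
        | cast b =>
          induction a using Fin.lastCases with
          | last => exact absurd hab (not_lt.2 (Fin.le_last _))
          | cast a =>
            rw [Fin.snoc_castSucc, Fin.snoc_castSucc]
            exact hs1 hab
      · intro a
        induction a using Fin.lastCases with
        | last =>
          rw [Fin.snoc_last]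
          exact lt_of_le_of_lt hL'.1 ht
        | cast a =>
          rw [Fin.snoc_castSucc]
          exact hs2 a
      · intro w
        exact (hO1 _).inter ((hU _).preimage (T ^ (t : ℤ) : X ≃ₜ X).continuous)
      · intro w
        obtain ⟨x, hx, hxU⟩ := htO (Fin.init w) (w (Fin.last i))
        exact ⟨x, hx, hxU⟩
      · intro w x hx
        exact hO3 _ x hx.1
      · intro w x hx a
        induction a using Fin.lastCases with
        | last =>
          rw [Fin.snoc_last]
          exact hx.2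
        | cast a =>
          rw [Fin.snoc_castSucc]
          exact hO4 _ x hx.1 a
  obtain ⟨s, hs1, hs2, O, -, hO2, -, hO4⟩ := key n le_rfl
  refine ⟨s, hs1, hs2, fun w => ?_⟩
  obtain ⟨x, hx⟩ := hO2 w
  exact ⟨x, hO4 w x hx⟩

end step

end Pool.Agent.S7A
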